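import Pool.Agent.Y697.MQ.Lm

/-! The quadratic character of `1 + i` on primary elements. -/

set_option autoImplicit false

namespace Pool.Agent.Helper35K9.TW

open Pool.Agent.Y697.MQ

/-- the character `((1 + i) / g)` on primary elements, zero on the others -/
def cl (g : GaussianInt) : ℤ := if g.im % 2 = 0 ∧ (g.re + g.im) % 8 = 1 then 1 else
  if g.im % 2 = 0 ∧ (g.re + g.im) % 8 = 5 then -1 else 0

theorem Pr_iff2 (g : GaussianInt) : Pr g ↔ g.im % 2 = 0 ∧ (g.re + g.im) % 4 = 1 := by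
  unfold Pr
  omega

theorem cl_zero {g : GaussianInt} (h : ¬ Pr g) : cl g = 0 := by
  rw [Pr_iff2] at h
  unfold cl
  rw [if_neg (by omega), if_neg (by omega)]

theorem cl_ne {g : GaussianInt} (h : Pr g) : cl g = 1 ∨ cl g = -1 := by
  rw [Pr_iff2] at h
  unfold cl
  split_ifs with h1 h2
  · exact Or.inl rfl
  · exact Or.inr rfl
  · omega

theorem cl_sq {g : GaussianInt} (h : Pr g) : cl g * cl g = 1 := by
  rcases cl_ne h with h | h <;> rw [h] <;> rfl

theorem cl_pos {g : GaussianInt} (h1 : g.im % 2 = 0) (h2 : (g.re + g.im) % 8 = 1) : cl g = 1 := by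
  unfold cl
  rw [if_pos ⟨h1, h2⟩]

theorem cl_neg {g : GaussianInt} (h1 : g.im % 2 = 0) (h2 : (g.re + g.im) % 8 = 5) : cl g = -1 := by
  unfold cl
  rw [if_neg (by omega), if_pos ⟨h1, h2⟩]

theorem cl_one : cl 1 = 1 := rfl

theorem cl_mulP {g h : GaussianInt} (hg : Pr g) (hh : Pr h) : cl (g * h) = cl g * cl h := by
  rw [Pr_iff2] at hg hh
  obtain ⟨a, b⟩ := g
  obtain ⟨c, d⟩ := h
  have k1 : ((⟨a, b⟩ : GaussianInt) * ⟨c, d⟩).re = a * c + -1 * b * d := Zsqrtd.re_mul _ _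
  have k2 : ((⟨a, b⟩ : GaussianInt) * ⟨c, d⟩).im = a * d + b * c := Zsqrtd.im_mul _ _
  simp only at hg hh
  obtain ⟨x, rfl⟩ : ∃ x, b = 2 * x := ⟨b / 2, by omega⟩
  obtain ⟨y, rfl⟩ : ∃ y, d = 2 * y := ⟨d / 2, by omega⟩
  have him : (((⟨a, 2 * x⟩ : GaussianInt) * ⟨c, 2 * y⟩).im) % 2 = 0 := by
    rw [k2]
    have : a * (2 * y) + 2 * x * c = 2 * (a * y + x * c) := by ring
    omega
  have hsum : ((⟨a, 2 * x⟩ : GaussianInt) * ⟨c, 2 * y⟩).re + ((⟨a, 2 * x⟩ : GaussianInt) * ⟨c, 2 * y⟩).im =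
      (a + 2 * x) * (c + 2 * y) - 8 * (x * y) := by
    rw [k1, k2]
    ring
  have h1 : (a + 2 * x) % 8 = 1 ∨ (a + 2 * x) % 8 = 5 := by omega
  have h2 : (c + 2 * y) % 8 = 1 ∨ (c + 2 * y) % 8 = 5 := by omega
  have g1 : (2 * x) % 2 = 0 := by omega
  have g2 : (2 * y) % 2 = 0 := by omega
  rcases h1 with h1 | h1 <;> rcases h2 with h2 | h2
  · rw [cl_pos (g := ⟨a, 2 * x⟩) g1 h1, cl_pos (g := ⟨c, 2 * y⟩) g2 h2, cl_pos him]
    · rfl
    · rw [hsum]
      have := Int.mul_emod (a + 2 * x) (c + 2 * y) 8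
      rw [h1, h2] at this
      omega
  · rw [cl_pos (g := ⟨a, 2 * x⟩) g1 h1, cl_neg (g := ⟨c, 2 * y⟩) g2 h2, cl_neg him]
    · rfl
    · rw [hsum]
      have := Int.mul_emod (a + 2 * x) (c + 2 * y) 8
      rw [h1, h2] at this
      omega
  · rw [cl_neg (g := ⟨a, 2 * x⟩) g1 h1, cl_pos (g := ⟨c, 2 * y⟩) g2 h2, cl_neg him]
    · rfl
    · rw [hsum]
      have := Int.mul_emod (a + 2 * x) (c + 2 * y) 8
      rw [h1, h2] at this
      omega
  · rw [cl_neg (g := ⟨a, 2 * x⟩) g1 h1, cl_neg (g := ⟨c, 2 * y⟩) g2 h2, cl_pos him]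
    · rfl
    · rw [hsum]
      have := Int.mul_emod (a + 2 * x) (c + 2 * y) 8
      rw [h1, h2] at this
      omega

/-- multiplication by a primary element -/
theorem cl_mul {g : GaussianInt} (hg : Pr g) (h : GaussianInt) : cl (g * h) = cl g * cl h := by
  by_cases hh : Pr h
  · exact cl_mulP hg hh
  · rw [cl_zero hh, mul_zero]
    apply cl_zero
    intro h1
    apply hh
    rw [Pr_iff] at *
    obtain ⟨a, ha⟩ := hg
    obtain ⟨b, hb⟩ := h1
    refine ⟨b - a * h, ?_⟩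
    linear_combination hb - h * ha

theorem cl_congr {g h : GaussianInt} (hh : (⟨4, 4⟩ : GaussianInt) ∣ g - h) : cl h = cl g := by
  obtain ⟨c, hc⟩ := hh
  have h1 := congrArg Zsqrtd.re hc
  have h2 := congrArg Zsqrtd.im hc
  simp only [Zsqrtd.re_sub, Zsqrtd.re_mul, Zsqrtd.im_sub, Zsqrtd.im_mul] at h1 h2
  have e1 : g.im = h.im + 2 * (2 * (c.re + c.im)) := by linarith
  have e2 : g.re + g.im = h.re + h.im + 8 * c.re := by linarith
  unfold cl
  split_ifs <;> first | rfl | omega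

theorem cl_shift (g : GaussianInt) : cl (g + 4) = -cl g := by
  have e4 : (4 : GaussianInt) = ⟨4, 0⟩ := rfl
  have h1 : (g + 4).re = g.re + 4 := by rw [e4]; simp
  have h2 : (g + 4).im = g.im := by rw [e4]; simp
  unfold cl
  rw [h1, h2]
  split_ifs <;> first | rfl | omega

/-- the weights of the vertices -/
noncomputable def gL (v : GaussianInt) : ZMod 2 := if cl v = -1 then 1 else 0

theorem gL_one {v : GaussianInt} (h : cl v = -1) : gL v = 1 := by
  unfold gL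
  rw [if_pos h]

end Pool.Agent.Helper35K9.TW
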