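import Pool.Agent.Y697.MQ.Ex3
import Pool.Agent.Y983.PP.Supp
import Pool.Agent.Helper35K9.TW.Cl

/-! Primary primes with prescribed symbols, the symbol of `1 + i` included. -/

set_option autoImplicit false

open NumberField

namespace Pool.Agent.Helper35K9.TW

open Pool.Agent.Y697.MQ
open Pool.Agent.W401.Cheb (xp HasFrob infinite_frob)

theorem la_prime : Prime (⟨1, 1⟩ : GaussianInt) := by
  rw [← irreducible_iff_prime]
  refine ⟨?_, ?_⟩
  · intro hu
    have := Zsqrtd.norm_eq_one_iff.2 hu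
    revert this
    decide
  · intro a b hab
    have h2 := congrArg (fun x : GaussianInt => x.norm.natAbs) hab
    simp only [Zsqrtd.norm_mul, Int.natAbs_mul] at h2
    have h3 : (Zsqrtd.norm (⟨1, 1⟩ : GaussianInt)).natAbs = 2 := by decide
    rw [h3] at h2
    have h4 : (Zsqrtd.norm a).natAbs ∣ 2 := ⟨_, h2⟩
    rcases (Nat.dvd_prime Nat.prime_two).1 h4 with h5 | h5
    · exact Or.inl (Zsqrtd.norm_eq_one_iff.1 h5)
    · rw [h5] at h2
      exact Or.inr (Zsqrtd.norm_eq_one_iff.1 (by omega))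

/-- the two symbols -/
theorem leg_eq_qs (p a : GaussianInt) : leg p a = Pool.Agent.Y690.PP.qs p a := by
  have h : (∃ b : GaussianInt, p ∣ b ^ 2 - a) ↔ ∃ b : GaussianInt, p ∣ b * b - a := by
    constructor
    · rintro ⟨b, hb⟩
      exact ⟨b, by rw [← pow_two]; exact hb⟩
    · rintro ⟨b, hb⟩
      exact ⟨b, by rw [pow_two]; exact hb⟩
  classical
  unfold leg Pool.Agent.Y690.PP.qs
  exact if_congr Iff.rfl rfl (if_congr h rfl rfl)

theorem Prm_iff (p : GaussianInt) : Pool.Agent.Y690.PP.Prm p ↔ Pr p := (Pr_iff p).symm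

theorem cl_eq_sg {p : GaussianInt} (hp : Pr p) : cl p = Pool.Agent.Y690.PP.sg p := by
  have h := (Pr_iff p).1 hp
  obtain ⟨⟨x, y⟩, hxy⟩ := h
  have hxy' : p = 1 + (⟨2, 2⟩ : GaussianInt) * ⟨x, y⟩ := by rw [← hxy]; ring
  have h1 := congrArg Zsqrtd.re hxy'
  have h2 := congrArg Zsqrtd.im hxy'
  simp at h1 h2
  rw [hxy', Pool.Agent.Y983.PP.sg_val, ← hxy']
  have e : p.re + p.im = 1 + 4 * x := by rw [h1, h2]; ring
  by_cases hx : Even x
  · rw [if_pos hx]
    obtain ⟨z, rfl⟩ := hx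
    exact cl_pos (by omega) (by omega)
  · rw [if_neg hx]
    rw [Int.not_even_iff_odd] at hx
    obtain ⟨z, rfl⟩ := hx
    exact cl_neg (by omega) (by omega)

/-- the supplementary law -/
theorem leg_la {p : GaussianInt} (hp : OP p) : leg p ⟨1, 1⟩ = cl p := by
  rw [cl_eq_sg hp.pm, leg_eq_qs]
  exact Pool.Agent.Y983.PP.t_SUPP p hp.pr ((Prm_iff p).2 hp.pm)

theorem indep_la {P : Finset GaussianInt} (hP : ∀ p ∈ P, OP p) : Indep (insert ⟨1, 1⟩ P) := by
  intro J hJ hne a b hb hab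
  by_cases hex : ∃ p ∈ J, p ∈ P
  · obtain ⟨p, hpJ, hpP⟩ := hex
    refine odd_ne (hP p hpP).pr (E := ∏ d ∈ J.erase p, d) ?_ b hb a ?_
    · intro h
      obtain ⟨l, hl, hpl⟩ := (Prime.dvd_finsetProd_iff (hP p hpP).pr _).1 h
      rw [Finset.mem_erase] at hl
      rcases Finset.mem_insert.1 (hJ hl.2) with h1 | h1
      · rw [h1] at hpl
        exact (hP p hpP).odd hpl
      · exact hl.1 ((hP p hpP).dvd (hP l h1) hpl).symm
    · rw [Finset.mul_prod_erase J (fun z => z) hpJ, ← hab]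
      ring
  · push Not at hex
    have hJI : J = {⟨1, 1⟩} := by
      rw [Finset.eq_singleton_iff_nonempty_unique_mem]
      refine ⟨hne, fun x hx => ?_⟩
      rcases Finset.mem_insert.1 (hJ hx) with h1 | h1
      · exact h1
      · exact absurd h1 (hex x hx)
    rw [hJI, Finset.prod_singleton] at hab
    refine odd_ne la_prime (E := 1) (fun h => la_prime.not_isUnit (isUnit_of_dvd_one h)) b hb a ?_
    rw [mul_one, ← hab]
    ring

/-- **Primes with prescribed symbols.** -/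
theorem inf_qL (P : Finset GaussianInt) (hP : ∀ p ∈ P, OP p) (ε : GaussianInt → ZMod 2)
    (ε' : ZMod 2) :
    {q : GaussianInt | OP q ∧ cl q = sg ε' ∧ q ∉ P ∧ ∀ p ∈ P, leg q p = sg (ε p)}.Infinite := by
  classical
  have hIP : (⟨1, 1⟩ : GaussianInt) ∉ P := fun h => (hP _ h).odd (dvd_refl _)
  obtain ⟨L, _, _, _, j, ρ, hρ⟩ := exists_field (insert ⟨1, 1⟩ P)
  have hinj : Function.Injective j := by
    rw [injective_iff_map_eq_zero]
    intro a ha
    by_contra h0
    have h3 : j ((a.norm : ℤ) : GaussianInt) = 0 := by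
      rw [Zsqrtd.norm_eq_mul_conj, map_mul, ha, zero_mul]
    rw [map_intCast] at h3
    have h4 : a.norm = 0 := by exact_mod_cast h3
    exact h0 (GaussianInt.norm_eq_zero.1 h4)
  let _ : Algebra (FractionRing GaussianInt) L :=
    (IsFractionRing.lift (K := FractionRing GaussianInt) hinj).toAlgebra
  obtain ⟨g, hg1, hg2⟩ := exists_gal (k := FractionRing GaussianInt) j
    (fun g => IsFractionRing.lift_algebraMap hinj g) ρ hρ (by
      intro x hx
      rcases Finset.mem_insert.1 hx with rfl | h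
      · decide
      · exact (hP x h).pr.ne_zero) (indep_la hP) (fun x => if x = ⟨1, 1⟩ then ε' else ε x)
  have hinf := infinite_frob L g
  intro hfin
  apply hinf
  have hB : ({2} ∪ (P.image (fun q : GaussianInt => q.norm.natAbs) : Finset ℕ) ∪
    (hfin.toFinset.image (fun q : GaussianInt => q.norm.natAbs) : Finset ℕ) : Set ℕ).Finite := by
    refine Set.Finite.union (Set.Finite.union (Set.finite_singleton _) (Finset.finite_toSet _))
      (Finset.finite_toSet _)
  refine hB.subset ?_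
  rintro p ⟨hp, hxp⟩
  by_cases hp2 : p = 2
  · left; left; exact hp2
  obtain ⟨q, hq, hqn, hleg⟩ := q_of_p j ρ hρ _ g hg1 hg2 hp hp2 hxp
  by_cases hqP : q ∈ P
  · left; right
    rw [Finset.mem_coe, Finset.mem_image]
    exact ⟨q, hqP, hqn⟩
  · right
    rw [Finset.mem_coe, Finset.mem_image]
    refine ⟨q, ?_, hqn⟩
    rw [Set.Finite.mem_toFinset]
    refine ⟨hq, ?_, hqP, ?_⟩
    · have h1 := hleg ⟨1, 1⟩ (Finset.mem_insert_self _ _) hq.odd
      rw [leg_la hq, if_pos rfl] at h1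
      exact h1
    · intro p' hp'
      have h1 := hleg p' (Finset.mem_insert_of_mem hp') (fun h => hqP (by
        rw [hq.dvd (hP p' hp') h]; exact hp'))
      rw [if_neg (fun h : p' = ⟨1, 1⟩ => hIP (by rw [← h]; exact hp'))] at h1
      exact h1

theorem exists_isoL (X : Finset GaussianInt) (hX : ∀ p ∈ X, OP p) (B : Finset GaussianInt) :
    ∃ q, OP q ∧ cl q = -1 ∧ q ∉ X ∧ q ∉ B ∧ ∀ u ∈ X, leg q u = 1 := by
  classical
  have h1 := inf_qL X hX (fun _ => 0) 1
  obtain ⟨q, ⟨h2, h3, h4, h5⟩, h6⟩ := (h1.sdiff B.finite_toSet).nonempty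
  exact ⟨q, h2, h3, h4, fun h => h6 (Finset.mem_coe.2 h), h5⟩

end Pool.Agent.Helper35K9.TW
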