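import Pool.Agent.Y690.PP.Last
import Pool.Agent.Helper35K9.TW.Ex
import Pool.Agent.Y697.MQ.Gad

/-! The criterion in terms of the weighted graph. -/

set_option autoImplicit false

open Finset

namespace Pool.Agent.Helper35K9.TW

open Pool.Agent.Y697.MQ (OP gA Gd leg leg_cases leg_ne)
open Pool.Agent.Y690.PP (qs sg gs gt gN XX Kn cc adm_of_XX em em_coe phi_coe nonv0)
open Pool.Agent.Y690.PP.Fn

/-- the primes as elements of the other type -/
def toP (S : Finset GaussianInt) (hS : ∀ p ∈ S, OP p) :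
    {x // x ∈ S} ↪ Pool.Agent.Y690.PP.Pr :=
  ⟨fun p => ⟨p.1, (hS p p.2).pr, (Prm_iff p.1).2 (hS p p.2).pm⟩, fun a b h => by
    have h1 := congrArg (fun x : Pool.Agent.Y690.PP.Pr => x.1) h
    exact Subtype.ext h1⟩

/-- the set of primes -/
def toA (S : Finset GaussianInt) (hS : ∀ p ∈ S, OP p) : Finset Pool.Agent.Y690.PP.Pr :=
  S.attach.map (toP S hS)

theorem PA_toA (S : Finset GaussianInt) (hS : ∀ p ∈ S, OP p) :
    Pool.Agent.Y690.PP.Fn.PA (toA S hS) = ∏ p ∈ S, p := by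
  unfold Pool.Agent.Y690.PP.Fn.PA toA
  rw [Finset.prod_map]
  exact Finset.prod_attach S (fun p => p)

theorem mem_toA {S : Finset GaussianInt} {hS : ∀ p ∈ S, OP p} {p : Pool.Agent.Y690.PP.Pr} :
    p ∈ toA S hS ↔ p.1 ∈ S := by
  unfold toA
  rw [Finset.mem_map]
  constructor
  · rintro ⟨q, -, rfl⟩
    exact q.2
  · intro h
    exact ⟨⟨p.1, h⟩, Finset.mem_attach _ _, Subtype.ext rfl⟩

/-- the sign of an element of `ZMod 2` -/
noncomputable def sR (x : ZMod 2) : ℝ := if x = 0 then 1 else -1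

theorem sR_add (x y : ZMod 2) : sR (x + y) = sR x * sR y := by
  have h : ∀ z : ZMod 2, z = 0 ∨ z = 1 := by decide
  have h0 : sR 0 = 1 := if_pos rfl
  have h1 : sR 1 = -1 := if_neg (by decide)
  rcases h x with rfl | rfl <;> rcases h y with rfl | rfl
  · rw [add_zero, h0]; norm_num
  · rw [zero_add, h0, h1]; norm_num
  · rw [add_zero, h0, h1]; norm_num
  · rw [show (1 : ZMod 2) + 1 = 0 from rfl, h0, h1]; norm_num

theorem sR_sum {ι : Type} (s : Finset ι) (f : ι → ZMod 2) :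
    sR (∑ i ∈ s, f i) = ∏ i ∈ s, sR (f i) := by
  classical
  induction s using Finset.induction_on with
  | empty => exact if_pos rfl
  | insert i s hi ih => rw [Finset.sum_insert hi, Finset.prod_insert hi, sR_add, ih]

theorem sR_one {x : ZMod 2} : sR x = 1 ↔ x = 0 := by
  unfold sR
  split_ifs with h
  · exact ⟨fun _ => h, fun _ => rfl⟩
  · constructor
    · intro h1
      norm_num at h1
    · intro h1
      exact absurd h1 h

theorem sR_pow {z : ℤ} (hz : z = 1 ∨ z = -1) (x : ZMod 2) :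
    ((z : ℤ) : ℝ) ^ x.val = sR ((if z = -1 then 1 else 0) * x) := by
  have h : ∀ y : ZMod 2, y = 0 ∨ y = 1 := by decide
  have h0 : sR 0 = 1 := if_pos rfl
  have h1 : sR 1 = -1 := if_neg (by decide)
  have v0 : (0 : ZMod 2).val = 0 := rfl
  have v1 : (1 : ZMod 2).val = 1 := rfl
  rcases h x with rfl | rfl
  · rw [mul_zero, h0, v0, pow_zero]
  · rw [mul_one, v1, pow_one]
    rcases hz with rfl | rfl
    · rw [if_neg (by norm_num), h0]; norm_num
    · rw [if_pos rfl, h1]; norm_num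

/-- the condition on the kernel -/
theorem TK_of_gd {S : Finset GaussianInt} (hS : ∀ p ∈ S, OP p) (h : Gd gA gL S) :
    TK (toA S hS) := by
  classical
  obtain ⟨A, hA⟩ : ∃ A, A = toA S hS := ⟨_, rfl⟩
  rw [← hA]
  unfold TK XX
  rw [Finset.card_eq_one]
  refine ⟨0, ?_⟩
  rw [Finset.eq_singleton_iff_unique_mem]
  refine ⟨?_, ?_⟩
  · unfold Kn
    rw [Finset.mem_filter]
    refine ⟨Finset.mem_univ _, fun p => ?_⟩
    unfold cc
    simp
  · intro ν hν
    unfold Kn at hν
    rw [Finset.mem_filter] at hν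
    have hν' := hν.2
    -- the function on the Gaussian integers
    let t : GaussianInt → ZMod 2 := fun g => if hg : g ∈ S then
      ν ⟨toP S hS ⟨g, hg⟩, by rw [hA]; exact Finset.mem_map_of_mem _ (Finset.mem_attach _ _)⟩ else 0
    have ht : ∀ p : A, t (p : Pool.Agent.Y690.PP.Pr).1 = ν p := by
      intro p
      have hp : (p : Pool.Agent.Y690.PP.Pr).1 ∈ S := (mem_toA (hS := hS)).1 (by rw [← hA]; exact p.2)
      show (if hg : _ then _ else _) = _
      rw [dif_pos hp]
      congr 1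
    have hker := h.ker t ?_
    · funext p
      rw [← ht p]
      exact hker _ ((mem_toA (hS := hS)).1 (by rw [← hA]; exact p.2))
    · intro v hv
      have hp : toP S hS ⟨v, hv⟩ ∈ A := by
        rw [hA]; exact Finset.mem_map_of_mem _ (Finset.mem_attach _ _)
      have h1 := hν' ⟨toP S hS ⟨v, hv⟩, hp⟩
      unfold cc at h1
      have hvO := hS v hv
      have e1 : gt (toP S hS ⟨v, hv⟩) ^ (ν ⟨toP S hS ⟨v, hv⟩, hp⟩).val = sR (gL v * t v) := by
        have e2 : gt (toP S hS ⟨v, hv⟩) = ((cl v : ℤ) : ℝ) := by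
          unfold gt
          rw [cl_eq_sg hvO.pm]
          rfl
        rw [e2, sR_pow (cl_ne hvO.pm), ← ht ⟨toP S hS ⟨v, hv⟩, hp⟩]
        rfl
      have e3 : ∏ q : A, gs q (toP S hS ⟨v, hv⟩) ^ (ν q + ν ⟨toP S hS ⟨v, hv⟩, hp⟩).val =
          sR (∑ u ∈ S, gA v u * (t v + t u)) := by
        rw [sR_sum]
        have e4 : ∀ q : A, gs q (toP S hS ⟨v, hv⟩) ^ (ν q + ν ⟨toP S hS ⟨v, hv⟩, hp⟩).val =
            sR (gA v (q : Pool.Agent.Y690.PP.Pr).1 * (t v + t (q : Pool.Agent.Y690.PP.Pr).1)) := by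
          intro q
          have hq : (q : Pool.Agent.Y690.PP.Pr).1 ∈ S := (mem_toA (hS := hS)).1 (by rw [← hA]; exact q.2)
          have e5 : gs q (toP S hS ⟨v, hv⟩) = ((leg (q : Pool.Agent.Y690.PP.Pr).1 v : ℤ) : ℝ) := by
            unfold gs
            rw [leg_eq_qs]
            rfl
          have e6 : ν q + ν ⟨toP S hS ⟨v, hv⟩, hp⟩ = t v + t (q : Pool.Agent.Y690.PP.Pr).1 := by
            rw [ht q, add_comm, ← ht ⟨toP S hS ⟨v, hv⟩, hp⟩]
            rfl
          rw [e5, e6]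
          by_cases hne : (q : Pool.Agent.Y690.PP.Pr).1 = v
          · rw [hne, CharTwo.add_self_eq_zero, mul_zero]
            have : sR 0 = 1 := if_pos rfl
            rw [this]
            exact pow_zero _
          · have hl : leg (q : Pool.Agent.Y690.PP.Pr).1 v = 1 ∨
                leg (q : Pool.Agent.Y690.PP.Pr).1 v = -1 :=
              leg_ne fun hd => hne ((hS _ hq).dvd hvO hd)
            rw [sR_pow hl]
            rfl
        rw [Finset.prod_congr rfl fun q _ => e4 q]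
        have e7 : ∏ q : A, sR (gA v (q : Pool.Agent.Y690.PP.Pr).1 *
            (t v + t (q : Pool.Agent.Y690.PP.Pr).1)) =
            ∏ q ∈ A, sR (gA v q.1 * (t v + t q.1)) :=
          Finset.prod_coe_sort A (fun q => sR (gA v q.1 * (t v + t q.1)))
        rw [e7, hA]
        unfold toA
        rw [Finset.prod_map]
        exact Finset.prod_attach S (fun u => sR (gA v u * (t v + t u)))
      have h2 : sR (gL v * t v) * sR (∑ u ∈ S, gA v u * (t v + t u)) = 1 := by
        rw [← e1, ← e3]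
        exact h1
      rw [← sR_add, sR_one] at h2
      exact h2

/-- the criterion -/
theorem good_A (A : Finset Pool.Agent.Y690.PP.Pr) (hA : TK A) :
    GoodP (la * Pool.Agent.Y690.PP.Fn.PA A) ∧ GoodL (la * Pool.Agent.Y690.PP.Fn.PA A) := by
  refine ⟨t_DSC (Pool.Agent.Y547.PP.t_DSC1 Pool.Agent.Y983.PP.t_SUPP) Pool.Agent.Y259.PP.t_KER A hA,
    ?_⟩
  let R : Subring ℂ := GaussianInt.toComplex.range
  have hR : ∀ z : ℂ, z ∈ R ↔ ∃ x y : ℤ, z = x + y * Complex.I := by
    intro z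
    constructor
    · rintro ⟨w, rfl⟩
      exact ⟨w.re, w.im, GaussianInt.toComplex_def w⟩
    · rintro ⟨x, y, rfl⟩
      exact ⟨⟨x, y⟩, GaussianInt.toComplex_def _⟩
  have hadm := adm_of_XX hR Pool.Agent.Y901.PP.Rec.t_REC Pool.Agent.W287.HK.h_basic hA
  refine (Pool.Agent.Y674.PP.t_EUL Pool.Agent.Y983.PP.t_SUPP) R hR (Pool.Agent.Y690.NV.ff hR)
    (Pool.Agent.Y690.NV.ff_coe hR) A (A.map (em hR)) ?_ (nonv0 hR hadm)
  intro p
  rw [Finset.mem_map]
  constructor
  · rintro ⟨q, hq, rfl⟩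
    refine ⟨q, hq, ?_⟩
    rw [em_coe, phi_coe]
    exact (GaussianInt.toComplex_def q.1).symm
  · rintro ⟨q, hq, h⟩
    refine ⟨q, hq, Subtype.ext ?_⟩
    rw [em_coe, phi_coe, h]
    exact (GaussianInt.toComplex_def q.1).symm

/-- **The criterion for nondegenerate sets.** -/
theorem good_of_gd {S : Finset GaussianInt} (hS : ∀ p ∈ S, OP p) (h : Gd gA gL S) :
    GoodP (la * ∏ p ∈ S, p) ∧ GoodL (la * ∏ p ∈ S, p) := by
  rw [← PA_toA S hS]
  exact good_A _ (TK_of_gd hS h)

end Pool.Agent.Helper35K9.TW
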