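import Pool.Agent.Helper35K9.TW.Ex
import Pool.Agent.Y697.MQ.Ex3
import Pool.Agent.Y697.PP.Det

/-! Infinite towers above a nondegenerate set. -/

set_option autoImplicit false

namespace Pool.Agent.Helper35K9.TW.PP

open Pool.Agent.Y697.PP

open Finset
open Pool.Agent.Y697.MQ (leg OP Pr Pr_prod gA Gd fr gw recip gA_zero)
open Pool.Agent.Helper35K9.TW

theorem gd_of_det {S : Finset GaussianInt} (h : (Mt gA gL S).det ≠ 0) : Gd gA gL S := by
  refine ⟨?_, ker_of_det gA gL h⟩
  rw [fr_det]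
  have : ∀ x : ZMod 2, x ≠ 0 → x = 1 := by decide
  exact this _ h

/-- **New primes.** -/
theorem exists_tower {Q : Finset GaussianInt} (hQ : ∀ x ∈ Q, OP x) (hG : Gd gA gL Q) :
    ∃ R : Set GaussianInt, R.Infinite ∧ (∀ q ∈ R, OP q) ∧ (∀ x ∈ Q, x ∉ R) ∧
      ∀ U : Finset GaussianInt, (∀ l ∈ U, l ∈ R) → Disjoint Q U ∧ Gd gA gL (Q ∪ U) := by
  classical
  have hsym : Std.Symm (fun x y : GaussianInt => x ≠ y ∧ OP x ∧ OP y ∧ leg x y = 1 ∧ leg y x = 1) :=
    ⟨fun x y h => ⟨h.1.symm, h.2.2.1, h.2.1, h.2.2.2.2, h.2.2.2.1⟩⟩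
  obtain ⟨f, f1, f2⟩ := exists_seq_of_forall_finset_exists'
    (fun y : GaussianInt => OP y ∧ cl y = -1 ∧ y ∉ Q ∧ ∀ u ∈ Q, leg y u = 1)
    (fun x y => x ≠ y ∧ OP x ∧ OP y ∧ leg x y = 1 ∧ leg y x = 1) (by
      intro s hs
      obtain ⟨y, b1, b2, b3, b4, b5⟩ := exists_isoL (Q ∪ s) (by
        intro x hx
        rcases Finset.mem_union.1 hx with h | h
        · exact hQ x h
        · exact (hs x h).1) ∅
      refine ⟨y, ⟨b1, b2, fun h => b3 (Finset.mem_union_left _ h),
        fun u hu => b5 u (Finset.mem_union_left _ hu)⟩, fun x hx => ?_⟩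
      have hne : x ≠ y := fun h => b3 (Finset.mem_union_right _ (h ▸ hx))
      have h3 := b5 x (Finset.mem_union_right _ hx)
      exact ⟨hne, (hs x hx).1, b1, by rw [recip (hs x hx).1 b1 hne]; exact h3, h3⟩)
  refine ⟨Set.range f, ?_, ?_, ?_, ?_⟩
  · apply Set.infinite_range_of_injective
    intro m n hmn
    by_contra hne
    exact (f2 hne).1 hmn
  · rintro x ⟨n, rfl⟩
    exact (f1 n).1
  · rintro x hx ⟨n, rfl⟩
    exact (f1 n).2.2.1 hx
  · intro U
    induction U using Finset.induction_on with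
    | empty =>
      intro _
      refine ⟨Finset.disjoint_empty_right _, ?_⟩
      rw [Finset.union_empty]
      exact hG
    | insert q U hq ih =>
      intro hU
      obtain ⟨h1, h2⟩ := ih fun l hl => hU l (Finset.mem_insert_of_mem hl)
      obtain ⟨n, hn⟩ := hU q (Finset.mem_insert_self _ _)
      have hqQ : q ∉ Q := by
        rw [← hn]
        exact (f1 n).2.2.1
      have key : ∀ u ∈ Q ∪ U, gA q u = 0 ∧ gA u q = 0 := by
        intro u hu
        rcases Finset.mem_union.1 hu with hu | hu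
        · rw [← hn]
          exact gA_zero (f1 n).1 (hQ u hu) (fun h => (f1 n).2.2.1 (h ▸ hu)) ((f1 n).2.2.2 u hu)
        · obtain ⟨m, hm⟩ := hU u (Finset.mem_insert_of_mem hu)
          have hne : q ≠ u := fun h => hq (h ▸ hu)
          have hnm : n ≠ m := fun h => hne (by rw [← hn, ← hm, h])
          rw [← hn, ← hm]
          exact gA_zero (f1 n).1 (f1 m).1 (f2 hnm).1 (f2 hnm).2.2.2.1
      refine ⟨?_, ?_⟩
      · rw [Finset.disjoint_insert_right]
        exact ⟨hqQ, h1⟩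
      · rw [Finset.union_insert]
        refine h2.iso ?_ (gL_one (hn ▸ (f1 n).2.1)) (fun u hu => (key u hu).1)
          fun u hu => (key u hu).2
        rw [Finset.mem_union, not_or]
        exact ⟨hqQ, hq⟩

end Pool.Agent.Helper35K9.TW.PP
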