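import Pool.Agent.Helper35K9.TW.Mast

/-! The choice of the parameters. -/

set_option autoImplicit false

namespace Pool.Agent.Helper35K9.TW.PP

open Pool.Agent.Y697.PP

open Finset Filter
open Pool.Agent.Y697.MQ (leg OP Pr Pr_prod gA)
open Pool.Agent.Helper35K9.TW
open scoped Classical

noncomputable def eL (X : ℕ) : ℝ := Real.log (Real.log X)
noncomputable def pK (X : ℕ) : ℕ := ⌈10 * eL X⌉₊
noncomputable def pz (X : ℕ) : ℕ := ⌈Real.exp (eL X ^ 3)⌉₊
noncomputable def pH (X : ℕ) : ℕ := ⌈(Real.log X) ^ 4⌉₊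
noncomputable def pN (X : ℕ) : ℕ := ⌊(pH X : ℝ) * Real.log X⌋₊ + 1
noncomputable def pJ (D X : ℕ) : ℕ := ⌊eL X / (2 * Real.log D)⌋₊
noncomputable def pV (D X : ℕ) : ℕ := ⌊(pJ D X : ℝ) / D / 2⌋₊

theorem eL_tendsto : Tendsto eL atTop atTop :=
  Real.tendsto_log_atTop.comp (Real.tendsto_log_atTop.comp tendsto_natCast_atTop_atTop)

theorem two_pow_ge (n : ℕ) : Real.exp (n / 2) ≤ 2 ^ n := by
  have h1 : (2 : ℝ) ^ n = Real.exp (n * Real.log 2) := by
    rw [Real.exp_nat_mul, Real.exp_log (by norm_num)]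
  rw [h1]
  apply Real.exp_le_exp.2
  have := Real.log_two_gt_d9
  have h2 : (0 : ℝ) ≤ n := Nat.cast_nonneg n
  nlinarith

theorem two_pow_le (n : ℕ) : (2 : ℝ) ^ n ≤ Real.exp n := by
  have h1 : Real.exp (n : ℝ) = Real.exp 1 ^ n := by
    rw [← Real.exp_nat_mul, mul_one]
  rw [h1]
  apply pow_le_pow_left₀ (by norm_num)
  have := Real.exp_one_gt_d9
  linarith

theorem ten_pow_le (n : ℕ) : (10 : ℝ) ^ n ≤ Real.exp (3 * n) := by
  have h1 : Real.exp (3 * (n : ℝ)) = (Real.exp 1 ^ 3) ^ n := by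
    rw [← Real.exp_nat_mul, ← Real.exp_nat_mul]
    congr 1
    push_cast
    ring
  rw [h1]
  apply pow_le_pow_left₀ (by norm_num)
  have h2 := Real.exp_one_gt_d9
  have h3 : (2.7 : ℝ) ^ 3 ≤ Real.exp 1 ^ 3 := pow_le_pow_left₀ (by norm_num) (by linarith) 3
  have h4 : (10 : ℝ) ≤ 2.7 ^ 3 := by norm_num
  exact h4.trans h3

section bounds
variable {X : ℕ} (h : 4 ≤ eL X)
include h

theorem log_eq : Real.log X = Real.exp (eL X) := by
  have h0 : 0 ≤ Real.log X := Real.log_natCast_nonneg X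
  have h1 : Real.log X ≠ 0 := by
    intro h2
    unfold eL at h
    rw [h2, Real.log_zero] at h
    linarith
  unfold eL
  rw [Real.exp_log (lt_of_le_of_ne h0 (Ne.symm h1))]

theorem X_pos : 1 ≤ X := by
  by_contra hc
  have : X = 0 := by omega
  subst this
  unfold eL at h
  simp at h
  linarith

theorem one_le_exp : 1 ≤ Real.exp (eL X) := Real.one_le_exp (by linarith)

theorem one_add_log : 1 + Real.log X ≤ 2 * Real.exp (eL X) := by
  rw [log_eq h]
  have := one_le_exp h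
  linarith

theorem pK_ge : 10 * eL X ≤ pK X := Nat.le_ceil _

theorem pK_le : (pK X : ℝ) ≤ 11 * eL X := by
  have h1 := Nat.ceil_lt_add_one (a := 10 * eL X) (by linarith)
  unfold pK
  linarith

theorem pz_ge : Real.exp (eL X ^ 3) ≤ pz X := Nat.le_ceil _

theorem pz_pos : 1 ≤ pz X := by
  have h1 : (1 : ℝ) ≤ pz X := (Real.one_le_exp (by positivity)).trans (pz_ge h)
  exact_mod_cast h1

theorem log_pz : Real.log (pz X) ≤ 2 * eL X ^ 3 := by
  have h1 := Nat.ceil_lt_add_one (a := Real.exp (eL X ^ 3)) (Real.exp_pos _).le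
  have h2 : (1 : ℝ) ≤ Real.exp (eL X ^ 3) := Real.one_le_exp (by positivity)
  have h3 : (pz X : ℝ) ≤ 2 * Real.exp (eL X ^ 3) := by
    unfold pz
    linarith
  have h4 := Real.log_le_log (by exact_mod_cast pz_pos h) h3
  rw [Real.log_mul (by norm_num) (Real.exp_pos _).ne', Real.log_exp] at h4
  have h5 := Real.log_two_lt_d9
  have h6 : (1 : ℝ) ≤ eL X ^ 3 := one_le_pow₀ (by linarith)
  linarith

theorem pH_ge : Real.exp (4 * eL X) ≤ pH X := by
  have h1 : (Real.log X) ^ 4 = Real.exp (4 * eL X) := by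
    rw [log_eq h, ← Real.exp_nat_mul]
    norm_num
  rw [← h1]
  exact Nat.le_ceil _

theorem pH_le : (pH X : ℝ) ≤ 2 * Real.exp (4 * eL X) := by
  have h1 : (Real.log X) ^ 4 = Real.exp (4 * eL X) := by
    rw [log_eq h, ← Real.exp_nat_mul]
    norm_num
  have h2 := Nat.ceil_lt_add_one (a := (Real.log X) ^ 4) (by positivity)
  have h3 : (1 : ℝ) ≤ Real.exp (4 * eL X) := Real.one_le_exp (by linarith)
  unfold pH
  rw [h1] at h2 ⊢
  linarith

theorem pH_pos : 1 ≤ pH X := by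
  have h1 : (1 : ℝ) ≤ pH X := (Real.one_le_exp (by linarith)).trans (pH_ge h)
  exact_mod_cast h1

theorem pN_gt : (pH X : ℝ) * Real.log X < pN X := by
  unfold pN
  push_cast
  exact Nat.lt_floor_add_one _

theorem pN_le : (pN X : ℝ) + 1 ≤ Real.exp (7 * eL X) := by
  have h1 : (⌊(pH X : ℝ) * Real.log X⌋₊ : ℝ) ≤ pH X * Real.log X :=
    Nat.floor_le (mul_nonneg (Nat.cast_nonneg _) (Real.log_natCast_nonneg X))
  have h2 : (pH X : ℝ) * Real.log X ≤ 2 * Real.exp (5 * eL X) := by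
    have e1 : Real.exp (5 * eL X) = Real.exp (4 * eL X) * Real.exp (eL X) := by
      rw [← Real.exp_add]
      congr 1
      ring
    rw [log_eq h, e1]
    have := mul_le_mul_of_nonneg_right (pH_le h) (Real.exp_pos (eL X)).le
    linarith
  have h3 : (1 : ℝ) ≤ Real.exp (5 * eL X) := Real.one_le_exp (by linarith)
  have h4 : Real.exp (7 * eL X) = Real.exp (2 * eL X) * Real.exp (5 * eL X) := by
    rw [← Real.exp_add]
    congr 1
    ring
  have h5 : (4 : ℝ) ≤ Real.exp (2 * eL X) := by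
    have := Real.add_one_le_exp (2 * eL X)
    linarith
  have h6 : (pN X : ℝ) = (⌊(pH X : ℝ) * Real.log X⌋₊ : ℝ) + 1 := by
    unfold pN
    push_cast
    rfl
  rw [h6, h4]
  nlinarith

theorem t1 : 400 * X * (1 + Real.log X) / 2 ^ pK X ≤ X * (800 * Real.exp (-eL X)) := by
  have h1 : Real.exp (5 * eL X) ≤ 2 ^ pK X := by
    refine le_trans (Real.exp_le_exp.2 ?_) (two_pow_ge _)
    have := pK_ge h
    linarith
  have h2 : Real.exp (5 * eL X) * Real.exp (-eL X) = Real.exp (4 * eL X) := by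
    rw [← Real.exp_add]
    congr 1
    ring
  have h3 : Real.exp (eL X) ≤ Real.exp (4 * eL X) := Real.exp_le_exp.2 (by linarith)
  rw [div_le_iff₀ (by positivity)]
  have h4 := one_add_log h
  have hX : (0 : ℝ) ≤ X := Nat.cast_nonneg _
  calc 400 * X * (1 + Real.log X) ≤ 400 * X * (2 * Real.exp (eL X)) := by gcongr
    _ ≤ 400 * X * (2 * Real.exp (4 * eL X)) := by gcongr
    _ = X * (800 * Real.exp (-eL X)) * Real.exp (5 * eL X) := by rw [← h2]; ring
    _ ≤ X * (800 * Real.exp (-eL X)) * 2 ^ pK X := by gcongr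

theorem t2 : 6 * X * Real.sqrt (pK X / pH X) + 12 * Real.sqrt X ≤
    X * (36 * Real.exp (-(eL X / 2))) := by
  have hX : (1 : ℝ) ≤ X := by exact_mod_cast X_pos h
  have hK := pK_le h
  have hH := pH_ge h
  have hH0 : (0 : ℝ) < pH X := by exact_mod_cast pH_pos h
  have h1 : (pK X : ℝ) / pH X ≤ 16 * Real.exp (-eL X) := by
    rw [div_le_iff₀ hH0]
    have h2 : eL X ≤ Real.exp (3 * eL X) := by
      have := Real.add_one_le_exp (3 * eL X)
      linarith
    have h3 : Real.exp (-eL X) * Real.exp (4 * eL X) = Real.exp (3 * eL X) := by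
      rw [← Real.exp_add]
      congr 1
      ring
    calc (pK X : ℝ) ≤ 16 * Real.exp (3 * eL X) := by
          have := Real.exp_pos (3 * eL X)
          linarith
      _ = 16 * Real.exp (-eL X) * Real.exp (4 * eL X) := by rw [← h3]; ring
      _ ≤ _ := by gcongr
  have h2 : Real.sqrt (pK X / pH X) ≤ 4 * Real.exp (-(eL X / 2)) := by
    refine (Real.sqrt_le_sqrt h1).trans (le_of_eq ?_)
    have : 16 * Real.exp (-eL X) = (4 * Real.exp (-(eL X / 2))) ^ 2 := by
      rw [mul_pow, ← Real.exp_nat_mul]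
      norm_num
      ring_nf
    rw [this, Real.sqrt_sq (by positivity)]
  have h3 : Real.sqrt X ≤ X * Real.exp (-(eL X / 2)) := by
    apply Real.sqrt_le_iff.2
    refine ⟨by positivity, ?_⟩
    have e1 : (X * Real.exp (-(eL X / 2))) ^ 2 = X * (X * Real.exp (-eL X)) := by
      rw [mul_pow, ← Real.exp_nat_mul]
      have : ((2 : ℕ) : ℝ) * -(eL X / 2) = -eL X := by
        push_cast
        ring
      rw [this]
      ring
    rw [e1]
    have h4 : 1 ≤ X * Real.exp (-eL X) := by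
      rw [Real.exp_neg, ← div_eq_mul_inv, one_le_div (Real.exp_pos _), ← log_eq h]
      have := Real.log_le_sub_one_of_pos (x := X) (by linarith)
      linarith
    nlinarith
  have h4 : 6 * X * Real.sqrt (pK X / pH X) ≤ 6 * X * (4 * Real.exp (-(eL X / 2))) := by gcongr
  nlinarith

theorem t3 : 400 * X * (1 + Real.log X) * (15 / Real.sqrt (pH X) + 40 / Real.sqrt (pz X)) ≤
    X * (44000 * Real.exp (-eL X)) := by
  have hX : (1 : ℝ) ≤ X := by exact_mod_cast X_pos h
  have e2 : Real.exp (2 * eL X) = Real.sqrt (Real.exp (4 * eL X)) := by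
    rw [← Real.exp_half]
    congr 1
    ring
  have h1 : Real.exp (2 * eL X) ≤ Real.sqrt (pH X) := by
    rw [e2]
    exact Real.sqrt_le_sqrt (pH_ge h)
  have h2 : Real.exp (2 * eL X) ≤ Real.sqrt (pz X) := by
    rw [e2]
    apply Real.sqrt_le_sqrt
    refine le_trans (Real.exp_le_exp.2 ?_) (pz_ge h)
    nlinarith [mul_nonneg (show (0 : ℝ) ≤ eL X by linarith) (show (0 : ℝ) ≤ eL X - 4 by linarith),
      sq_nonneg (eL X)]
  have h3 : 15 / Real.sqrt (pH X) + 40 / Real.sqrt (pz X) ≤ 55 * Real.exp (-(2 * eL X)) := by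
    have h4 : 15 / Real.sqrt (pH X) ≤ 15 / Real.exp (2 * eL X) :=
      div_le_div_of_nonneg_left (by norm_num) (Real.exp_pos _) h1
    have h5 : 40 / Real.sqrt (pz X) ≤ 40 / Real.exp (2 * eL X) :=
      div_le_div_of_nonneg_left (by norm_num) (Real.exp_pos _) h2
    rw [Real.exp_neg]
    have h6 : 15 / Real.exp (2 * eL X) + 40 / Real.exp (2 * eL X) =
        55 * (Real.exp (2 * eL X))⁻¹ := by ring
    linarith
  have h4 := one_add_log h
  have h5 : 0 ≤ Real.log X := Real.log_natCast_nonneg X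
  have h6 : Real.exp (eL X) * Real.exp (-(2 * eL X)) = Real.exp (-eL X) := by
    rw [← Real.exp_add]
    congr 1
    ring
  calc 400 * X * (1 + Real.log X) * (15 / Real.sqrt (pH X) + 40 / Real.sqrt (pz X)) ≤
      400 * X * (2 * Real.exp (eL X)) * (55 * Real.exp (-(2 * eL X))) := by gcongr
    _ = X * (44000 * (Real.exp (eL X) * Real.exp (-(2 * eL X)))) := by ring
    _ = _ := by rw [h6]

theorem t6 {C : ℝ} (hC : 1 ≤ C) :
    ((pN X : ℝ) + 1) ^ pK X * ((2 ^ (2 * pK X ^ 2 + pK X) * 10 ^ pK X *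
      (C * Real.exp (-(eL X ^ 3 / 32)))) * (X * (40 * (1 + Real.log X)))) ≤
    X * (80 * C * Real.exp (474 * eL X ^ 2 - eL X ^ 3 / 32)) := by
  have hX : (1 : ℝ) ≤ X := by exact_mod_cast X_pos h
  have hK := pK_le h
  have hK0 : (0 : ℝ) ≤ pK X := Nat.cast_nonneg _
  have hK1 : (1 : ℝ) ≤ pK X := by
    have := pK_ge h
    linarith
  set L := eL X with hL
  have h1 : ((pN X : ℝ) + 1) ^ pK X ≤ Real.exp (77 * L ^ 2) := by
    refine (pow_le_pow_left₀ (by positivity) (pN_le h) _).trans ?_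
    rw [← Real.exp_nat_mul]
    apply Real.exp_le_exp.2
    nlinarith
  have h2 : (2 : ℝ) ^ (2 * pK X ^ 2 + pK X) ≤ Real.exp (363 * L ^ 2) := by
    refine (two_pow_le _).trans (Real.exp_le_exp.2 ?_)
    push_cast
    have h3 : (pK X : ℝ) ^ 2 ≤ (11 * L) ^ 2 := pow_le_pow_left₀ hK0 hK 2
    nlinarith
  have h3 : (10 : ℝ) ^ pK X ≤ Real.exp (33 * L ^ 2) := by
    refine (ten_pow_le _).trans (Real.exp_le_exp.2 ?_)
    nlinarith
  have h4 : 1 + Real.log X ≤ 2 * Real.exp (L ^ 2) := by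
    refine (one_add_log h).trans ?_
    have : Real.exp (eL X) ≤ Real.exp (L ^ 2) := Real.exp_le_exp.2 (by nlinarith)
    linarith
  have h5 : 0 ≤ Real.log X := Real.log_natCast_nonneg X
  have h6 : Real.exp (474 * L ^ 2 - L ^ 3 / 32) = Real.exp (77 * L ^ 2) *
      (Real.exp (363 * L ^ 2) * Real.exp (33 * L ^ 2) * Real.exp (-(L ^ 3 / 32)) *
        Real.exp (L ^ 2)) := by
    rw [← Real.exp_add, ← Real.exp_add, ← Real.exp_add, ← Real.exp_add]
    congr 1
    ring
  calc ((pN X : ℝ) + 1) ^ pK X * ((2 ^ (2 * pK X ^ 2 + pK X) * 10 ^ pK X *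
      (C * Real.exp (-(L ^ 3 / 32)))) * (X * (40 * (1 + Real.log X)))) ≤
      Real.exp (77 * L ^ 2) * ((Real.exp (363 * L ^ 2) * Real.exp (33 * L ^ 2) *
      (C * Real.exp (-(L ^ 3 / 32)))) * (X * (40 * (2 * Real.exp (L ^ 2))))) := by gcongr
    _ = X * (80 * C * (Real.exp (77 * L ^ 2) *
      (Real.exp (363 * L ^ 2) * Real.exp (33 * L ^ 2) * Real.exp (-(L ^ 3 / 32)) *
        Real.exp (L ^ 2)))) := by ring
    _ = _ := by rw [← h6]

end bounds

end Pool.Agent.Helper35K9.TW.PP
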