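import Pool.Agent.Helper35K9.TW.Asy

/-! The positive proportion of nondegenerate sets. -/

set_option autoImplicit false

namespace Pool.Agent.Helper35K9.TW.PP

open Pool.Agent.Y697.PP

open Finset Filter
open Pool.Agent.Y697.MQ (leg OP Pr Pr_prod gA)
open Pool.Agent.Helper35K9.TW
open scoped Classical

section bounds
variable {X : ℕ} (h : 4 ≤ eL X) {D : ℕ} (hD : 2 ≤ D)
include h hD

theorem logD_pos : 0 < Real.log D := Real.log_pos (by exact_mod_cast hD)

theorem pJ_le : (pJ D X : ℝ) ≤ eL X / (2 * Real.log D) :=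
  Nat.floor_le (div_nonneg (by linarith) (by have := logD_pos h hD; linarith))

theorem pJ_ge (h2 : 4 * Real.log D ≤ eL X) : eL X / (4 * Real.log D) ≤ pJ D X := by
  have h1 := Nat.sub_one_lt_floor (eL X / (2 * Real.log D))
  have h0 := logD_pos h hD
  have h3 : 1 ≤ eL X / (4 * Real.log D) := by
    rw [le_div_iff₀ (by linarith)]
    linarith
  have h4 : eL X / (2 * Real.log D) = 2 * (eL X / (4 * Real.log D)) := by
    field_simp
    ring
  unfold pJ
  linarith

theorem t4 (h2 : 4 * Real.log D ≤ eL X) :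
    35840000 * X * (1 + Real.log ((pz X ^ pK X : ℕ) : ℝ)) ^ 3 / 2 ^ pV D X ≤
    X * (35840000 * (23 * eL X ^ 4) ^ 3 * (3 * Real.exp (-(eL X / (16 * D * Real.log D))))) := by
  have hD' : (0 : ℝ) < D := by
    have : 0 < D := by omega
    exact_mod_cast this
  have h0 := logD_pos h hD
  have h1 : 1 + Real.log ((pz X ^ pK X : ℕ) : ℝ) ≤ 23 * eL X ^ 4 := by
    push_cast
    rw [Real.log_pow]
    have h3 := log_pz h
    have h4 := pK_le h
    have h5 : (0 : ℝ) ≤ pK X := Nat.cast_nonneg _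
    have h6 : (0 : ℝ) ≤ 2 * eL X ^ 3 := by positivity
    have h7 : (pK X : ℝ) * Real.log (pz X) ≤ (11 * eL X) * (2 * eL X ^ 3) := by
      calc (pK X : ℝ) * Real.log (pz X) ≤ pK X * (2 * eL X ^ 3) := by gcongr
        _ ≤ _ := by gcongr
    have h8 : (1 : ℝ) ≤ eL X ^ 4 := one_le_pow₀ (by linarith)
    have h9 : (11 * eL X) * (2 * eL X ^ 3) = 22 * eL X ^ 4 := by ring
    linarith
  have h1' : 0 ≤ 1 + Real.log ((pz X ^ pK X : ℕ) : ℝ) := by
    have : 0 ≤ Real.log ((pz X ^ pK X : ℕ) : ℝ) := Real.log_natCast_nonneg _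
    linarith
  have h3 : Real.exp (eL X / (16 * D * Real.log D) - 1) ≤ 2 ^ pV D X := by
    refine le_trans (Real.exp_le_exp.2 ?_) (two_pow_ge _)
    have h4 := Nat.sub_one_lt_floor ((pJ D X : ℝ) / D / 2)
    have h5 := pJ_ge h hD h2
    have h6 : eL X / (4 * Real.log D) / D / 2 ≤ (pJ D X : ℝ) / D / 2 := by gcongr
    have h7 : eL X / (4 * Real.log D) / D / 2 = 2 * (eL X / (16 * D * Real.log D)) := by
      field_simp
      norm_num
    unfold pV
    linarith
  have h4 : Real.exp (eL X / (16 * D * Real.log D) - 1) *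
      Real.exp (-(eL X / (16 * D * Real.log D))) = Real.exp (-1) := by
    rw [← Real.exp_add]
    congr 1
    ring
  have h5 : 1 ≤ 3 * Real.exp (-1) := by
    rw [Real.exp_neg, ← div_eq_mul_inv, one_le_div (Real.exp_pos _)]
    have := Real.exp_one_lt_d9
    linarith
  rw [div_le_iff₀ (by positivity)]
  have hX : (0 : ℝ) ≤ X := Nat.cast_nonneg _
  calc 35840000 * X * (1 + Real.log ((pz X ^ pK X : ℕ) : ℝ)) ^ 3 ≤
      35840000 * X * (23 * eL X ^ 4) ^ 3 := by gcongr
    _ = X * (35840000 * (23 * eL X ^ 4) ^ 3) * 1 := by ring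
    _ ≤ X * (35840000 * (23 * eL X ^ 4) ^ 3) * (3 * Real.exp (-1)) := by gcongr
    _ = X * (35840000 * (23 * eL X ^ 4) ^ 3 * (3 * Real.exp (-(eL X / (16 * D * Real.log D))))) *
        Real.exp (eL X / (16 * D * Real.log D) - 1) := by
        rw [← h4]
        ring
    _ ≤ _ := by gcongr

theorem t5 (h2 : 4 * Real.log D ≤ eL X) (h16 : 16 * eL X ^ 3 ≤ Real.exp (eL X / 2))
    (hm : ((pJ D X : ℕ) : ℝ) / D ≤
      ∑ p ∈ (PO (pz X ^ D ^ pJ D X)).filter (fun p => pz X < nm p), 1 / (nm p : ℝ)) :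
    (((SS X).filter fun S => (la (pz X) S).card < pV D X).card : ℝ) ≤
    X * (160 * D * Real.log D / eL X + 14400 * (4 * D * Real.log D / eL X) ^ 2) := by
  have hD' : (0 : ℝ) < D := by
    have : 0 < D := by omega
    exact_mod_cast this
  have h0 := logD_pos h hD
  have hL : 0 < eL X := by linarith
  set μ : ℝ := (pJ D X : ℝ) / D with hμ
  have hμ1 : eL X / (4 * D * Real.log D) ≤ μ := by
    have h3 := pJ_ge h hD h2
    have h4 : eL X / (4 * Real.log D) / D ≤ μ := by
      rw [hμ]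
      gcongr
    have h5 : eL X / (4 * Real.log D) / D = eL X / (4 * D * Real.log D) := by
      field_simp
    linarith
  have hμ0 : 0 < μ := lt_of_lt_of_le (by positivity) hμ1
  set Y : ℕ := pz X ^ D ^ pJ D X with hY
  have hz1 := pz_pos h
  have hY1 : 1 ≤ Y := Nat.one_le_pow _ _ hz1
  have hX1 := X_pos h
  have hYX : Y ^ 8 ≤ X := by
    have h3 : ((Y ^ 8 : ℕ) : ℝ) ≤ X := by
      have hYpos : (0 : ℝ) < ((Y ^ 8 : ℕ) : ℝ) := by
        exact_mod_cast Nat.one_le_pow _ _ hY1
      rw [← Real.log_le_log_iff hYpos (by exact_mod_cast hX1), hY, log_eq h]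
      push_cast
      rw [Real.log_pow, Real.log_pow]
      push_cast
      have h4 : (D : ℝ) ^ pJ D X ≤ Real.exp (eL X / 2) := by
        have h5 : (D : ℝ) ^ pJ D X = Real.exp (pJ D X * Real.log D) := by
          rw [Real.exp_nat_mul, Real.exp_log hD']
        rw [h5]
        apply Real.exp_le_exp.2
        have h6 := pJ_le h hD
        have h7 := mul_le_mul_of_nonneg_right h6 h0.le
        have h8 : eL X / (2 * Real.log D) * Real.log D = eL X / 2 := by field_simp
        linarith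
      have h5 := log_pz h
      have h6 : Real.exp (eL X) = Real.exp (eL X / 2) * Real.exp (eL X / 2) := by
        rw [← Real.exp_add]
        congr 1
        ring
      have h7 : (0 : ℝ) ≤ 2 * eL X ^ 3 := by positivity
      calc 8 * ((D : ℝ) ^ pJ D X * Real.log (pz X)) ≤
          8 * (Real.exp (eL X / 2) * (2 * eL X ^ 3)) := by
            have : 0 ≤ Real.log (pz X) := Real.log_natCast_nonneg _
            gcongr
        _ = Real.exp (eL X / 2) * (16 * eL X ^ 3) := by ring
        _ ≤ Real.exp (eL X / 2) * Real.exp (eL X / 2) := by gcongr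
        _ = Real.exp (eL X) := h6.symm
    exact_mod_cast h3
  have h3 := few hY1 hYX (P := (PO Y).filter (fun p => pz X < nm p))
    (fun p hp => (mem_PO.1 (Finset.mem_filter.1 hp).1).2)
    (fun p hp => (mem_PO.1 (Finset.mem_filter.1 hp).1).1) hμ0 hm
  have h4 : (SS X).filter (fun S => (la (pz X) S).card < pV D X) ⊆
      (SS X).filter (fun S => ((S ∩ (PO Y).filter (fun p => pz X < nm p)).card : ℝ) ≤ μ / 2) := by
    intro S hS
    rw [Finset.mem_filter] at hS ⊢
    refine ⟨hS.1, ?_⟩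
    have h5 : (S ∩ (PO Y).filter (fun p => pz X < nm p)).card ≤ (la (pz X) S).card := by
      apply Finset.card_le_card
      intro p hp
      rw [Finset.mem_inter, Finset.mem_filter] at hp
      exact Finset.mem_filter.2 ⟨hp.1, not_le.2 hp.2.2⟩
    have h6 : ((S ∩ (PO Y).filter (fun p => pz X < nm p)).card : ℝ) ≤ pV D X := by
      exact_mod_cast h5.trans hS.2.le
    have h7 : (pV D X : ℝ) ≤ μ / 2 := Nat.floor_le (by positivity)
    exact h6.trans h7
  have h5 : (((SS X).filter fun S => (la (pz X) S).card < pV D X).card : ℝ) ≤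
      40 * X / μ + 14400 * X / (Y * μ ^ 2) := by
    refine le_trans ?_ h3
    exact_mod_cast Finset.card_le_card h4
  refine h5.trans ?_
  have hX : (0 : ℝ) ≤ X := Nat.cast_nonneg _
  have hY' : (1 : ℝ) ≤ Y := by exact_mod_cast hY1
  have h6 : 1 / μ ≤ 4 * D * Real.log D / eL X := by
    rw [div_le_div_iff₀ hμ0 hL, one_mul]
    rw [div_le_iff₀ (by positivity)] at hμ1
    linarith
  have h7 : (1 / μ) ^ 2 ≤ (4 * D * Real.log D / eL X) ^ 2 :=
    pow_le_pow_left₀ (by positivity) h6 2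
  have h8 : 40 * X / μ + 14400 * X / (Y * μ ^ 2) ≤ X * (40 * (1 / μ) + 14400 * (1 / μ) ^ 2) := by
    have h9 : 14400 * X / (Y * μ ^ 2) ≤ 14400 * X / (1 * μ ^ 2) := by gcongr
    have h10 : 40 * X / μ + 14400 * X / (1 * μ ^ 2) = X * (40 * (1 / μ) + 14400 * (1 / μ) ^ 2) := by
      field_simp
    linarith
  refine h8.trans ?_
  have h9 : 160 * D * Real.log D / eL X = 40 * (4 * D * Real.log D / eL X) := by ring
  rw [h9]
  gcongr

end bounds

/-- the total error -/
noncomputable def TE (C : ℝ) (D : ℕ) (L : ℝ) : ℝ :=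
  800 * Real.exp (-L) + 36 * Real.exp (-(L / 2)) + 44000 * Real.exp (-L) +
  35840000 * (23 * L ^ 4) ^ 3 * (3 * Real.exp (-(L / (16 * D * Real.log D)))) +
  (160 * D * Real.log D / L + 14400 * (4 * D * Real.log D / L) ^ 2) +
  80 * C * Real.exp (474 * L ^ 2 - L ^ 3 / 32)

theorem TE_tendsto (C : ℝ) {D : ℕ} (hD : 2 ≤ D) : Tendsto (TE C D) atTop (nhds 0) := by
  have hD' : (0 : ℝ) < D := by
    have : 0 < D := by omega
    exact_mod_cast this
  have h0 : 0 < Real.log D := Real.log_pos (by exact_mod_cast hD)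
  have e1 : Tendsto (fun L : ℝ => Real.exp (-L)) atTop (nhds 0) :=
    Real.tendsto_exp_neg_atTop_nhds_zero
  have e2 : Tendsto (fun L : ℝ => Real.exp (-(L / 2))) atTop (nhds 0) :=
    e1.comp (tendsto_id.atTop_div_const (by norm_num))
  have e4 : Tendsto (fun L : ℝ => L ^ 12 * Real.exp (-(L / (16 * D * Real.log D))))
      atTop (nhds 0) := by
    have h1 := (Real.tendsto_pow_mul_exp_neg_atTop_nhds_zero 12).comp
      (tendsto_id.atTop_div_const (show (0 : ℝ) < 16 * D * Real.log D by positivity))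
    have h2 := h1.const_mul ((16 * D * Real.log D) ^ 12)
    rw [mul_zero] at h2
    refine h2.congr fun L => ?_
    simp only [Function.comp, id]
    rw [div_pow, ← mul_assoc, mul_div_cancel₀ _ (by positivity)]
  have e5 : Tendsto (fun L : ℝ => (D * Real.log D) / L) atTop (nhds 0) :=
    tendsto_const_nhds.div_atTop tendsto_id
  have e6 : Tendsto (fun L : ℝ => Real.exp (474 * L ^ 2 - L ^ 3 / 32)) atTop (nhds 0) := by
    refine squeeze_zero' (Eventually.of_forall fun L => (Real.exp_pos _).le) ?_ e1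
    filter_upwards [eventually_ge_atTop 22400] with L hL
    apply Real.exp_le_exp.2
    have h1 : L ^ 3 = L * L ^ 2 := by ring
    have h2 : 0 ≤ L ^ 2 := by positivity
    nlinarith
  have h1 := ((((e1.const_mul 800).add (e2.const_mul 36)).add (e1.const_mul 44000)).add
    (e4.const_mul (35840000 * 23 ^ 3 * 3))).add
    (((e5.const_mul 160).add ((e5.const_mul 4).pow 2 |>.const_mul 14400)))
  have h2 := h1.add (e6.const_mul (80 * C))
  simp only [mul_zero, add_zero] at h2
  rw [show (0 : ℝ) ^ 2 = 0 by norm_num, mul_zero, add_zero] at h2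
  rw [add_zero] at h2
  refine h2.congr fun L => ?_
  unfold TE
  ring

/-- **At least 41.9 per cent of the products of distinct primary primes are nondegenerate.** -/
theorem many_Dt : ∀ᶠ X : ℕ in atTop,
    0.419 * ((SS X).card : ℝ) ≤ (((SS X).filter fun S => Dt S).card : ℝ) := by
  obtain ⟨C, hC, hbil⟩ := bil
  obtain ⟨D, hD, Z₀, hZ₀, hmer⟩ := mertens
  have hT := (TE_tendsto C hD).comp eL_tendsto
  have h1 : ∀ᶠ X : ℕ in atTop, TE C D (eL X) < 1 / 10 ^ 12 :=
    (hT.eventually (gt_mem_nhds (by norm_num)))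
  have h2 : ∀ᶠ X : ℕ in atTop, 4 ≤ eL X := eL_tendsto.eventually_ge_atTop 4
  have h3 : ∀ᶠ X : ℕ in atTop, 4 * Real.log D ≤ eL X := eL_tendsto.eventually_ge_atTop _
  have h4 : ∀ᶠ X : ℕ in atTop, 16 * eL X ^ 3 ≤ Real.exp (eL X / 2) := by
    have e1 : Tendsto (fun L : ℝ => L ^ 3 * Real.exp (-(L / 2))) atTop (nhds 0) := by
      have h1 := (Real.tendsto_pow_mul_exp_neg_atTop_nhds_zero 3).comp
        (tendsto_id.atTop_div_const (show (0 : ℝ) < 2 by norm_num))
      have h2 := h1.const_mul (2 ^ 3)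
      rw [mul_zero] at h2
      refine h2.congr fun L => ?_
      simp only [Function.comp, id]
      ring
    have e2 : ∀ᶠ L : ℝ in atTop, L ^ 3 * Real.exp (-(L / 2)) < 1 / 16 :=
      e1.eventually (gt_mem_nhds (by norm_num))
    have e3 : ∀ᶠ L : ℝ in atTop, 16 * L ^ 3 ≤ Real.exp (L / 2) := by
      refine e2.mono fun L hL => ?_
      rw [Real.exp_neg, ← div_eq_mul_inv, div_lt_iff₀ (Real.exp_pos _)] at hL
      linarith
    exact eL_tendsto.eventually e3
  have h5 : ∀ᶠ X : ℕ in atTop, (Z₀ : ℝ) ≤ eL X := eL_tendsto.eventually_ge_atTop _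
  filter_upwards [h1, h2, h3, h4, h5, eventually_ge_atTop 72] with X g1 g2 g3 g4 g5 g6
  have hz0 : Z₀ ≤ pz X := by
    have e1 : (Z₀ : ℝ) ≤ pz X := by
      refine g5.trans (le_trans ?_ (pz_ge g2))
      have e2 := Real.add_one_le_exp (eL X ^ 3)
      have e3 : eL X ≤ eL X ^ 3 := le_self_pow₀ (by linarith) (by norm_num)
      linarith
    exact_mod_cast e1
  have hκ : C ≤ (C * Real.exp (-(eL X ^ 3 / 32))) ^ 32 * pz X := by
    have e1 : (C * Real.exp (-(eL X ^ 3 / 32))) ^ 32 = C ^ 32 * Real.exp (-(eL X ^ 3)) := by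
      rw [mul_pow, ← Real.exp_nat_mul]
      congr 2
      push_cast
      ring
    rw [e1]
    have e2 : 1 ≤ Real.exp (-(eL X ^ 3)) * pz X := by
      rw [Real.exp_neg, ← div_eq_inv_mul, one_le_div (Real.exp_pos _)]
      exact pz_ge g2
    have e3 : C ≤ C ^ 32 := le_self_pow₀ hC (by norm_num)
    calc C ≤ C ^ 32 * 1 := by linarith
      _ ≤ C ^ 32 * (Real.exp (-(eL X ^ 3)) * pz X) := by gcongr
      _ = _ := by ring
  have hm := master hC hbil (K := pK X) (pV D X) (X_pos g2) (pH_pos g2) (pz_pos g2)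
    (κ := C * Real.exp (-(eL X ^ 3 / 32))) (by positivity) hκ (pN_gt g2)
  have b1 := t1 g2
  have b2 := t2 g2
  have b3 := t3 g2
  have b4 := t4 g2 hD g3
  have b5 := t5 g2 hD g3 g4 (hmer _ hz0 _)
  have b6 := t6 g2 hC
  have hX : (0 : ℝ) ≤ X := Nat.cast_nonneg _
  have b7 : (X : ℝ) * TE C D (eL X) ≤ X * (1 / 10 ^ 12) := mul_le_mul_of_nonneg_left g1.le hX
  unfold TE at b7
  have b8 := SS_ge g6
  have b9 : (X : ℝ) * (1 / 10 ^ 12) ≤ 0.0002 * (SS X).card := by
    have : (X : ℝ) * (1 / 10 ^ 12) ≤ 0.0002 * (X / 65536000) := by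
      have : (1 : ℝ) / 10 ^ 12 ≤ 0.0002 / 65536000 := by norm_num
      nlinarith
    linarith
  have c1 := hm.trans (add_le_add_right (add_le_add (add_le_add (add_le_add (add_le_add
    (add_le_add b1 b2) b3) b4) b5) b6) _)
  linarith

end Pool.Agent.Helper35K9.TW.PP
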