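import Pool.Agent.Helper35K9.TW.Mstp

/-! The positive proportion of the sets all of whose unions with the subsets of a given set are
nondegenerate. -/

set_option autoImplicit false

namespace Pool.Agent.Helper35K9.TW.PQ

open Pool.Agent.Y697.PQ

open Finset Filter
open Pool.Agent.Y697.MQ (leg OP Pr Pr_prod gA)
open Pool.Agent.Helper35K9.TW
open Pool.Agent.Y697.PP
open Pool.Agent.Helper35K9.TW.PP
open scoped Classical

noncomputable def pB (X : ℕ) : ℕ := ⌊Real.sqrt (Real.sqrt (eL X))⌋₊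

section bounds
variable {X : ℕ} (h : 4 ≤ eL X)
include h

theorem lz_le : 1 + Real.log ((pz X ^ pK X : ℕ) : ℝ) ≤ 23 * eL X ^ 4 := by
  push_cast
  rw [Real.log_pow]
  have h3 := log_pz h
  have h4 := pK_le h
  have h5 : (0 : ℝ) ≤ pK X := Nat.cast_nonneg _
  have h6 : (0 : ℝ) ≤ 2 * eL X ^ 3 := by positivity
  have h7 : (pK X : ℝ) * Real.log (pz X) ≤ (11 * eL X) * (2 * eL X ^ 3) := by
    calc (pK X : ℝ) * Real.log (pz X) ≤ pK X * (2 * eL X ^ 3) := by gcongr
      _ ≤ _ := by gcongr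
  have h8 : (1 : ℝ) ≤ eL X ^ 4 := one_le_pow₀ (by linarith)
  have h9 : (11 * eL X) * (2 * eL X ^ 3) = 22 * eL X ^ 4 := by ring
  linarith

omit h in
theorem lz_nonneg : 0 ≤ 1 + Real.log ((pz X ^ pK X : ℕ) : ℝ) := by
  have : 0 ≤ Real.log ((pz X ^ pK X : ℕ) : ℝ) := Real.log_natCast_nonneg _
  linarith

theorem pV_ge {D : ℕ} (hD : 2 ≤ D) (h2 : 4 * Real.log D ≤ eL X) :
    Real.exp (eL X / (16 * D * Real.log D) - 1) ≤ 2 ^ pV D X := by
  have hD' : (0 : ℝ) < D := by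
    have : 0 < D := by omega
    exact_mod_cast this
  have h0 := logD_pos h hD
  refine le_trans (Real.exp_le_exp.2 ?_) (two_pow_ge _)
  have h4 := Nat.sub_one_lt_floor ((pJ D X : ℝ) / D / 2)
  have h5 := pJ_ge h hD h2
  have h6 : eL X / (4 * Real.log D) / D / 2 ≤ (pJ D X : ℝ) / D / 2 := by gcongr
  have h7 : eL X / (4 * Real.log D) / D / 2 = 2 * (eL X / (16 * D * Real.log D)) := by
    field_simp
    norm_num
  unfold pV
  linarith

theorem sq_one : 1 ≤ Real.sqrt (Real.sqrt (eL X)) :=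
  Real.one_le_sqrt.2 (Real.one_le_sqrt.2 (by linarith))

theorem t9 {D : ℕ} (hD : 2 ≤ D) (h2 : 4 * Real.log D ≤ eL X) {c₀ : ℝ} (hc₀ : 0 ≤ c₀) (r : ℕ) :
    c₀ * (448000 * X * (1 + Real.log ((pz X ^ pK X : ℕ) : ℝ)) *
        (2 * (1 + lp X)) ^ (r + 2 * pB X)) / 2 ^ pV D X ≤
    X * (c₀ * 448000 * (23 * eL X ^ 4) *
      Real.exp ((r + 2 * Real.sqrt (Real.sqrt (eL X))) * (50 * Real.sqrt (eL X))) *
      (3 * Real.exp (-(eL X / (16 * D * Real.log D))))) := by
  have hL : 0 < eL X := by linarith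
  have h3 := pV_ge h hD h2
  have h1 := lz_le h
  have h1' := lz_nonneg (X := X)
  have h5 : 1 ≤ 3 * Real.exp (-1) := by
    rw [Real.exp_neg, ← div_eq_mul_inv, one_le_div (Real.exp_pos _)]
    have := Real.exp_one_lt_d9
    linarith
  have h4 : Real.exp (eL X / (16 * D * Real.log D) - 1) *
      Real.exp (-(eL X / (16 * D * Real.log D))) = Real.exp (-1) := by
    rw [← Real.exp_add]
    congr 1
    ring
  have hlp := lp_le h
  have hlp0 := lp_nonneg X
  set u := Real.sqrt (Real.sqrt (eL X)) with hu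
  have hu1 : 1 ≤ u := sq_one h
  have hu2 : u ^ 2 = Real.sqrt (eL X) := Real.sq_sqrt (Real.sqrt_nonneg _)
  have hu4 : u ^ 4 = eL X := by
    rw [show u ^ 4 = (u ^ 2) ^ 2 by ring, hu2, Real.sq_sqrt hL.le]
  have hpB : (pB X : ℝ) ≤ u := Nat.floor_le (by linarith)
  have h6 : (2 * (1 + lp X)) ^ (r + 2 * pB X) ≤
      Real.exp ((r + 2 * u) * (50 * Real.sqrt (eL X))) := by
    have e1 : 2 * (1 + lp X) ≤ (25 * u ^ 2) ^ 2 := by
      have e2 : (1 : ℝ) ≤ u ^ 4 := one_le_pow₀ hu1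
      have e3 : (25 * u ^ 2) ^ 2 = 625 * u ^ 4 := by ring
      rw [e3]
      rw [← hu4] at hlp
      linarith
    have e2 : 2 * (1 + lp X) ≤ Real.exp (50 * Real.sqrt (eL X)) := by
      rw [← hu2]
      refine e1.trans ?_
      have e3 : Real.exp (50 * u ^ 2) = Real.exp (25 * u ^ 2) ^ 2 := by
        rw [← Real.exp_nat_mul]
        congr 1
        push_cast
        ring
      rw [e3]
      apply pow_le_pow_left₀ (by positivity)
      have := Real.add_one_le_exp (25 * u ^ 2)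
      linarith
    calc (2 * (1 + lp X)) ^ (r + 2 * pB X) ≤
        Real.exp (50 * Real.sqrt (eL X)) ^ (r + 2 * pB X) := by
          apply pow_le_pow_left₀ (by positivity) e2
      _ = Real.exp ((r + 2 * pB X : ℕ) * (50 * Real.sqrt (eL X))) := by rw [Real.exp_nat_mul]
      _ ≤ _ := by
          apply Real.exp_le_exp.2
          apply mul_le_mul_of_nonneg_right _ (by positivity)
          push_cast
          linarith
  rw [div_le_iff₀ (by positivity)]
  have hX : (0 : ℝ) ≤ X := Nat.cast_nonneg _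
  set W : ℝ := Real.exp ((r + 2 * u) * (50 * Real.sqrt (eL X))) with hW
  have hW0 : 0 ≤ W := (Real.exp_pos _).le
  calc c₀ * (448000 * X * (1 + Real.log ((pz X ^ pK X : ℕ) : ℝ)) *
        (2 * (1 + lp X)) ^ (r + 2 * pB X)) ≤
      c₀ * (448000 * X * (23 * eL X ^ 4) * W) := by gcongr
    _ = X * (c₀ * 448000 * (23 * eL X ^ 4) * W) * 1 := by ring
    _ ≤ X * (c₀ * 448000 * (23 * eL X ^ 4) * W) * (3 * Real.exp (-1)) := by gcongr
    _ = X * (c₀ * 448000 * (23 * eL X ^ 4) * W *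
        (3 * Real.exp (-(eL X / (16 * D * Real.log D))))) *
        Real.exp (eL X / (16 * D * Real.log D) - 1) := by
        rw [← h4]
        ring
    _ ≤ _ := by gcongr

theorem t10 : 16000 * X * (1 + Real.log ((pz X ^ pK X : ℕ) : ℝ)) ^ 2 / 2 ^ pB X ≤
    X * (16000 * (23 * eL X ^ 4) ^ 2 *
      (2 * Real.exp (-(Real.sqrt (Real.sqrt (eL X)) / 2)))) := by
  have h1 := lz_le h
  have h1' := lz_nonneg (X := X)
  set u := Real.sqrt (Real.sqrt (eL X)) with hu
  have hu1 : 1 ≤ u := sq_one h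
  have h3 : Real.exp (u / 2 - 1 / 2) ≤ 2 ^ pB X := by
    refine le_trans (Real.exp_le_exp.2 ?_) (two_pow_ge _)
    have := Nat.sub_one_lt_floor u
    unfold pB
    rw [← hu]
    linarith
  have h4 : Real.exp (u / 2 - 1 / 2) * Real.exp (-(u / 2)) = Real.exp (-(1 / 2)) := by
    rw [← Real.exp_add]
    congr 1
    ring
  have h5 : 1 ≤ 2 * Real.exp (-(1 / 2)) := by
    have := Real.add_one_le_exp (-(1 / 2) : ℝ)
    linarith
  rw [div_le_iff₀ (by positivity)]
  have hX : (0 : ℝ) ≤ X := Nat.cast_nonneg _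
  calc 16000 * X * (1 + Real.log ((pz X ^ pK X : ℕ) : ℝ)) ^ 2 ≤
      16000 * X * (23 * eL X ^ 4) ^ 2 := by gcongr
    _ = X * (16000 * (23 * eL X ^ 4) ^ 2) * 1 := by ring
    _ ≤ X * (16000 * (23 * eL X ^ 4) ^ 2) * (2 * Real.exp (-(1 / 2))) := by gcongr
    _ = X * (16000 * (23 * eL X ^ 4) ^ 2 * (2 * Real.exp (-(u / 2)))) *
        Real.exp (u / 2 - 1 / 2) := by
        rw [← h4]
        ring
    _ ≤ _ := by gcongr

theorem t6' {C : ℝ} (hC : 1 ≤ C) :
    ((pN X : ℝ) + 1) ^ pK X * ((2 ^ (3 * pK X ^ 2 + pK X) * 10 ^ pK X *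
      (C * Real.exp (-(eL X ^ 3 / 32)))) * (X * (40 * (1 + Real.log X)))) ≤
    X * (80 * C * Real.exp (485 * eL X ^ 2 - eL X ^ 3 / 32)) := by
  have hX : (1 : ℝ) ≤ X := by exact_mod_cast X_pos h
  have hK := pK_le h
  have hK0 : (0 : ℝ) ≤ pK X := Nat.cast_nonneg _
  have hK1 : (1 : ℝ) ≤ pK X := by
    have := pK_ge h
    linarith
  set L := eL X with hL
  have h1 : ((pN X : ℝ) + 1) ^ pK X ≤ Real.exp (77 * L ^ 2) := by
    refine (pow_le_pow_left₀ (by positivity) (pN_le h) _).trans ?_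
    rw [← Real.exp_nat_mul]
    apply Real.exp_le_exp.2
    nlinarith
  have h2 : (2 : ℝ) ^ (3 * pK X ^ 2 + pK X) ≤ Real.exp (374 * L ^ 2) := by
    refine (two_pow_le _).trans (Real.exp_le_exp.2 ?_)
    push_cast
    have h3 : (pK X : ℝ) ^ 2 ≤ (11 * L) ^ 2 := pow_le_pow_left₀ hK0 hK 2
    nlinarith
  have h3 : (10 : ℝ) ^ pK X ≤ Real.exp (33 * L ^ 2) := by
    refine (ten_pow_le _).trans (Real.exp_le_exp.2 ?_)
    nlinarith
  have h4 : 1 + Real.log X ≤ 2 * Real.exp (L ^ 2) := by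
    refine (one_add_log h).trans ?_
    have : Real.exp (eL X) ≤ Real.exp (L ^ 2) := Real.exp_le_exp.2 (by nlinarith)
    linarith
  have h5 : 0 ≤ Real.log X := Real.log_natCast_nonneg X
  have h6 : Real.exp (485 * L ^ 2 - L ^ 3 / 32) = Real.exp (77 * L ^ 2) *
      (Real.exp (374 * L ^ 2) * Real.exp (33 * L ^ 2) * Real.exp (-(L ^ 3 / 32)) *
        Real.exp (L ^ 2)) := by
    rw [← Real.exp_add, ← Real.exp_add, ← Real.exp_add, ← Real.exp_add]
    congr 1
    ring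
  calc ((pN X : ℝ) + 1) ^ pK X * ((2 ^ (3 * pK X ^ 2 + pK X) * 10 ^ pK X *
      (C * Real.exp (-(L ^ 3 / 32)))) * (X * (40 * (1 + Real.log X)))) ≤
      Real.exp (77 * L ^ 2) * ((Real.exp (374 * L ^ 2) * Real.exp (33 * L ^ 2) *
      (C * Real.exp (-(L ^ 3 / 32)))) * (X * (40 * (2 * Real.exp (L ^ 2))))) := by gcongr
    _ = X * (80 * C * (Real.exp (77 * L ^ 2) *
      (Real.exp (374 * L ^ 2) * Real.exp (33 * L ^ 2) * Real.exp (-(L ^ 3 / 32)) *
        Real.exp (L ^ 2)))) := by ring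
    _ = _ := by rw [← h6]

end bounds

theorem e1_tendsto : Tendsto (fun L : ℝ => Real.exp (-L)) atTop (nhds 0) :=
  Real.tendsto_exp_neg_atTop_nhds_zero

theorem pow_exp_tendsto (k : ℕ) {a : ℝ} (ha : 0 < a) :
    Tendsto (fun L : ℝ => L ^ k * Real.exp (-(L / a))) atTop (nhds 0) := by
  have h1 := (Real.tendsto_pow_mul_exp_neg_atTop_nhds_zero k).comp
    (tendsto_id.atTop_div_const ha)
  have h2 := h1.const_mul (a ^ k)
  rw [mul_zero] at h2
  refine h2.congr fun L => ?_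
  simp only [Function.comp, id]
  rw [div_pow, ← mul_assoc, mul_div_cancel₀ _ (by positivity)]

theorem sqs_tendsto : Tendsto (fun L : ℝ => Real.sqrt (Real.sqrt L)) atTop atTop :=
  Real.tendsto_sqrt_atTop.comp Real.tendsto_sqrt_atTop

theorem T9_tendsto (c₀ : ℝ) (r : ℕ) {a : ℝ} (ha : 0 < a) : Tendsto (fun L : ℝ =>
    c₀ * 448000 * (23 * L ^ 4) * Real.exp ((r + 2 * Real.sqrt (Real.sqrt L)) *
      (50 * Real.sqrt L)) * (3 * Real.exp (-(L / a)))) atTop (nhds 0) := by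
  have h1 := (pow_exp_tendsto 4 (show 0 < 2 * a by linarith)).const_mul (448000 * 23 * 3 * |c₀|)
  rw [mul_zero] at h1
  refine squeeze_zero_norm' ?_ h1
  have h2 : ∀ᶠ L : ℝ in atTop, 1 ≤ Real.sqrt (Real.sqrt L) := sqs_tendsto.eventually_ge_atTop 1
  have h3 : ∀ᶠ L : ℝ in atTop, 100 * a * (r + 2) ≤ Real.sqrt (Real.sqrt L) :=
    sqs_tendsto.eventually_ge_atTop _
  filter_upwards [h2, h3, eventually_ge_atTop 0] with L g2 g3 g4
  set u := Real.sqrt (Real.sqrt L) with hu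
  have hu2 : u ^ 2 = Real.sqrt L := Real.sq_sqrt (Real.sqrt_nonneg _)
  have hu4 : u ^ 4 = L := by
    rw [show u ^ 4 = (u ^ 2) ^ 2 by ring, hu2, Real.sq_sqrt g4]
  have h4 : (r + 2 * u) * (50 * Real.sqrt L) ≤ L / (2 * a) := by
    rw [← hu2, le_div_iff₀ (by linarith), ← hu4]
    have hr : (0 : ℝ) ≤ r := Nat.cast_nonneg _
    have e1 : (r : ℝ) + 2 * u ≤ (r + 2) * u := by nlinarith
    have e2 : 0 ≤ u := by linarith
    calc (r + 2 * u) * (50 * u ^ 2) * (2 * a) ≤ ((r + 2) * u) * (50 * u ^ 2) * (2 * a) := by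
          gcongr
      _ = (100 * a * (r + 2)) * u ^ 3 := by ring
      _ ≤ u * u ^ 3 := by gcongr
      _ = u ^ 4 := by ring
  rw [Real.norm_eq_abs, abs_mul, abs_mul, abs_mul, abs_mul, abs_of_nonneg (by positivity :
    (0 : ℝ) ≤ 448000), abs_of_nonneg (by positivity : (0 : ℝ) ≤ 23 * L ^ 4),
    abs_of_pos (Real.exp_pos _), abs_of_nonneg (by positivity : (0 : ℝ) ≤
      3 * Real.exp (-(L / a)))]
  have h5 : Real.exp ((r + 2 * u) * (50 * Real.sqrt L)) * Real.exp (-(L / a)) ≤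
      Real.exp (-(L / (2 * a))) := by
    rw [← Real.exp_add]
    apply Real.exp_le_exp.2
    have : L / a = 2 * (L / (2 * a)) := by
      field_simp
    linarith
  have hc : 0 ≤ |c₀| := abs_nonneg _
  calc |c₀| * 448000 * (23 * L ^ 4) * Real.exp ((r + 2 * u) * (50 * Real.sqrt L)) *
      (3 * Real.exp (-(L / a))) = (448000 * 23 * 3 * |c₀|) * (L ^ 4 *
        (Real.exp ((r + 2 * u) * (50 * Real.sqrt L)) * Real.exp (-(L / a)))) := by ring
    _ ≤ (448000 * 23 * 3 * |c₀|) * (L ^ 4 * Real.exp (-(L / (2 * a)))) := by gcongr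

theorem T10_tendsto : Tendsto (fun L : ℝ => 16000 * (23 * L ^ 4) ^ 2 *
    (2 * Real.exp (-(Real.sqrt (Real.sqrt L) / 2)))) atTop (nhds 0) := by
  have h1 := ((pow_exp_tendsto 32 (show (0 : ℝ) < 2 by norm_num)).comp sqs_tendsto).const_mul
    (16000 * 23 ^ 2 * 2)
  rw [mul_zero] at h1
  refine h1.congr' ?_
  filter_upwards [eventually_ge_atTop 0] with L g4
  simp only [Function.comp]
  have hu4 : Real.sqrt (Real.sqrt L) ^ 32 = L ^ 8 := by
    rw [show Real.sqrt (Real.sqrt L) ^ 32 = ((Real.sqrt (Real.sqrt L) ^ 2) ^ 2) ^ 8 by ring,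
      Real.sq_sqrt (Real.sqrt_nonneg _), Real.sq_sqrt g4]
  rw [hu4]
  ring

theorem T6_tendsto (C : ℝ) : Tendsto (fun L : ℝ =>
    80 * C * Real.exp (485 * L ^ 2 - L ^ 3 / 32)) atTop (nhds 0) := by
  have e6 : Tendsto (fun L : ℝ => Real.exp (485 * L ^ 2 - L ^ 3 / 32)) atTop (nhds 0) := by
    refine squeeze_zero' (Eventually.of_forall fun L => (Real.exp_pos _).le) ?_ e1_tendsto
    filter_upwards [eventually_ge_atTop 15600] with L hL
    apply Real.exp_le_exp.2
    have h1 : L ^ 3 = L * L ^ 2 := by ring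
    have h2 : 0 ≤ L ^ 2 := by positivity
    nlinarith
  have := e6.const_mul (80 * C)
  rw [mul_zero] at this
  exact this

/-- the total error -/
noncomputable def TP (c₀ C : ℝ) (D r : ℕ) (L : ℝ) : ℝ :=
  (1 + c₀) * TE C D L + (c₀ * 448000 * (23 * L ^ 4) *
      Real.exp ((r + 2 * Real.sqrt (Real.sqrt L)) * (50 * Real.sqrt L)) *
      (3 * Real.exp (-(L / (16 * D * Real.log D)))) +
    16000 * (23 * L ^ 4) ^ 2 * (2 * Real.exp (-(Real.sqrt (Real.sqrt L) / 2))) +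
    80 * C * Real.exp (485 * L ^ 2 - L ^ 3 / 32))

theorem TP_tendsto (c₀ C : ℝ) {D : ℕ} (hD : 2 ≤ D) (r : ℕ) :
    Tendsto (TP c₀ C D r) atTop (nhds 0) := by
  have hD' : (0 : ℝ) < D := by
    have : 0 < D := by omega
    exact_mod_cast this
  have h0 : 0 < Real.log D := Real.log_pos (by exact_mod_cast hD)
  have h1 := ((TE_tendsto C hD).const_mul (1 + c₀)).add (((T9_tendsto c₀ r
    (show (0 : ℝ) < 16 * D * Real.log D by positivity)).add T10_tendsto).add (T6_tendsto C))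
  rw [mul_zero, add_zero, add_zero, add_zero] at h1
  exact h1

/-- the number of the sets which are disjoint to a given set -/
theorem disj_ge {P : Finset GaussianInt} (X : ℕ) :
    ((SS X).card : ℝ) ≤ 2 ^ P.card * (((SS X).filter fun S => Disjoint S P).card : ℝ) := by
  have h1 : (SS X).card ≤ ((SS X).filter (fun S => Disjoint S P) ×ˢ P.powerset).card := by
    apply Finset.card_le_card_of_injOn (fun S => (S \ P, S ∩ P))
    · intro S hS
      rw [Finset.mem_coe] at hS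
      rw [Finset.mem_coe, Finset.mem_product, Finset.mem_filter, Finset.mem_powerset]
      exact ⟨⟨SS_sub hS Finset.sdiff_subset, Finset.sdiff_disjoint⟩, Finset.inter_subset_right⟩
    · intro S _ T _ h
      rw [Prod.mk.injEq] at h
      rw [← Finset.sdiff_union_inter S P, h.1, h.2, Finset.sdiff_union_inter]
  rw [Finset.card_product, Finset.card_powerset, mul_comm] at h1
  exact_mod_cast h1

/-- **The positive proportion.** -/
theorem many_Dj {P : Finset GaussianInt} (hPO : ∀ p ∈ P, OP p) : ∀ᶠ X : ℕ in atTop,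
    0.419 ^ (2 ^ P.card) * (((SS X).filter fun S => Disjoint S P).card : ℝ) ≤
      (((SS X).filter fun S => Dj P S).card : ℝ) := by
  set M : ℕ := 2 ^ P.card with hM
  have hM1 : M ≠ 0 := by rw [hM]; positivity
  have hlt : (0.419 : ℝ) ^ M < gi ^ M :=
    pow_lt_pow_left₀ (lt_of_lt_of_le (by norm_num) gi_ge) (by norm_num) hM1
  set δ : ℝ := (gi ^ M - 0.419 ^ M) / 2 with hδ
  have hδ0 : 0 < δ := by rw [hδ]; linarith
  have hgi0 : 0 ≤ gi := le_trans (by norm_num) gi_ge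
  have hgM : gi ^ M ≤ 1 := pow_le_one₀ hgi0 gi_le
  have h419 : (0 : ℝ) ≤ 0.419 ^ M := by positivity
  obtain ⟨R, hR⟩ := exists_HJ M hδ0
  set c₁ : ℝ := gi ^ M - δ with hc₁
  have hc0 : 0 ≤ c₁ := by rw [hc₁, hδ]; linarith
  have hc1 : c₁ ≤ 1 := by rw [hc₁]; linarith
  obtain ⟨C, hC, hbil⟩ := bil
  obtain ⟨D, hD, Z₀, hZ₀, hmer⟩ := mertens
  have hNP : 0 < NS P := NS_pos hPO
  have hlP : 0 ≤ Real.log (NS P) := Real.log_nonneg (by exact_mod_cast hNP)
  set c₀ : ℝ := 2 ^ P.card * (1 + Real.log (NS P)) with hc₀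
  have hc₀0 : 0 ≤ c₀ := by positivity
  set r : ℕ := R + 2 + 2 * P.card with hr
  have hT := (TP_tendsto c₀ C hD r).comp eL_tendsto
  set η : ℝ := δ / (2 ^ P.card * 65536000) with hη
  have hη0 : 0 < η := by positivity
  have h1 : ∀ᶠ X : ℕ in atTop, TP c₀ C D r (eL X) < η := hT.eventually (gt_mem_nhds hη0)
  have h2 : ∀ᶠ X : ℕ in atTop, 4 ≤ eL X := eL_tendsto.eventually_ge_atTop 4
  have h3 : ∀ᶠ X : ℕ in atTop, 4 * Real.log D ≤ eL X := eL_tendsto.eventually_ge_atTop _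
  have h4 : ∀ᶠ X : ℕ in atTop, 16 * eL X ^ 3 ≤ Real.exp (eL X / 2) := by
    have e1 : Tendsto (fun L : ℝ => L ^ 3 * Real.exp (-(L / 2))) atTop (nhds 0) :=
      pow_exp_tendsto 3 (by norm_num)
    have e2 : ∀ᶠ L : ℝ in atTop, L ^ 3 * Real.exp (-(L / 2)) < 1 / 16 :=
      e1.eventually (gt_mem_nhds (by norm_num))
    have e3 : ∀ᶠ L : ℝ in atTop, 16 * L ^ 3 ≤ Real.exp (L / 2) := by
      refine e2.mono fun L hL => ?_
      rw [Real.exp_neg, ← div_eq_mul_inv, div_lt_iff₀ (Real.exp_pos _)] at hL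
      linarith
    exact eL_tendsto.eventually e3
  have h5 : ∀ᶠ X : ℕ in atTop, ((Z₀ : ℝ) + NS P + P.card) ≤ eL X :=
    eL_tendsto.eventually_ge_atTop _
  have h7 : ∀ᶠ X : ℕ in atTop, r + 2 * pB X ≤ pV D X := by
    have hD' : (0 : ℝ) < D := by
      have : 0 < D := by omega
      exact_mod_cast this
    have h0 : 0 < Real.log D := Real.log_pos (by exact_mod_cast hD)
    have e1 : ∀ᶠ X : ℕ in atTop, 8 * D * Real.log D * (r + 4) ≤
        Real.sqrt (Real.sqrt (eL X)) :=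
      (sqs_tendsto.comp eL_tendsto).eventually_ge_atTop _
    filter_upwards [e1, h2, h3] with X g1 g2 g3
    set u := Real.sqrt (Real.sqrt (eL X)) with hu
    have hu1 : 1 ≤ u := sq_one g2
    have hu4 : u ^ 4 = eL X := by
      rw [show u ^ 4 = (u ^ 2) ^ 2 by ring, Real.sq_sqrt (Real.sqrt_nonneg _),
        Real.sq_sqrt (by linarith)]
    have hpB : (pB X : ℝ) ≤ u := Nat.floor_le (by linarith)
    have h5 := pJ_ge g2 hD g3
    have h6 : eL X / (4 * Real.log D) / D / 2 ≤ (pJ D X : ℝ) / D / 2 := by gcongr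
    have h7 : eL X / (4 * Real.log D) / D / 2 = eL X / (8 * D * Real.log D) := by
      field_simp
      norm_num
    have h8 := Nat.sub_one_lt_floor ((pJ D X : ℝ) / D / 2)
    have h9 : (r + 4) * u ≤ eL X / (8 * D * Real.log D) := by
      rw [le_div_iff₀ (by positivity), ← hu4]
      have e2 : u ^ 2 ≤ u ^ 4 := pow_le_pow_right₀ hu1 (by norm_num)
      calc (r + 4) * u * (8 * D * Real.log D) = (8 * D * Real.log D * (r + 4)) * u := by ring
        _ ≤ u * u := by gcongr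
        _ = u ^ 2 := by ring
        _ ≤ _ := e2
    have h10 : (r : ℝ) + 2 * pB X ≤ pV D X := by
      have hr0 : (0 : ℝ) ≤ r := Nat.cast_nonneg _
      have e3 : (r : ℝ) + 2 * u + 1 ≤ (r + 4) * u := by nlinarith
      unfold pV
      linarith
    exact_mod_cast h10
  filter_upwards [h1, h2, h3, h4, h5, h7, eventually_ge_atTop 72] with X g1 g2 g3 g4 g5 g7 g6
  have hpz : eL X ≤ pz X := by
    refine le_trans ?_ (pz_ge g2)
    have e2 := Real.add_one_le_exp (eL X ^ 3)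
    have e3 : eL X ≤ eL X ^ 3 := le_self_pow₀ (by linarith) (by norm_num)
    linarith
  have hz0 : Z₀ ≤ pz X := by
    have e1 : (Z₀ : ℝ) ≤ pz X := by
      have e2 : (0 : ℝ) ≤ NS P := Nat.cast_nonneg _
      have e3 : (0 : ℝ) ≤ P.card := Nat.cast_nonneg _
      linarith
    exact_mod_cast e1
  have hPz : ∀ p ∈ P, nm p ≤ pz X := by
    intro p hp
    have e1 := NS_mono hPO (Finset.singleton_subset_iff.2 hp)
    have e2 : NS {p} = nm p := by
      unfold NS
      rw [Finset.prod_singleton]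
    rw [e2] at e1
    have e3 : (NS P : ℝ) ≤ pz X := by
      have e4 : (0 : ℝ) ≤ Z₀ := Nat.cast_nonneg _
      have e5 : (0 : ℝ) ≤ P.card := Nat.cast_nonneg _
      linarith
    have e4 : NS P ≤ pz X := by exact_mod_cast e3
    exact e1.trans e4
  have hPK : P.card ≤ pK X := by
    have e1 : (P.card : ℝ) ≤ pK X := by
      have e2 : (0 : ℝ) ≤ NS P := Nat.cast_nonneg _
      have e3 : (0 : ℝ) ≤ Z₀ := Nat.cast_nonneg _
      have e4 := pK_ge g2
      linarith
    exact_mod_cast e1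
  have hκ : C ≤ (C * Real.exp (-(eL X ^ 3 / 32))) ^ 32 * pz X := by
    have e1 : (C * Real.exp (-(eL X ^ 3 / 32))) ^ 32 = C ^ 32 * Real.exp (-(eL X ^ 3)) := by
      rw [mul_pow, ← Real.exp_nat_mul]
      congr 2
      push_cast
      ring
    rw [e1]
    have e2 : 1 ≤ Real.exp (-(eL X ^ 3)) * pz X := by
      rw [Real.exp_neg, ← div_eq_inv_mul, one_le_div (Real.exp_pos _)]
      exact pz_ge g2
    have e3 : C ≤ C ^ 32 := le_self_pow₀ hC (by norm_num)
    calc C ≤ C ^ 32 * 1 := by linarith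
      _ ≤ C ^ 32 * (Real.exp (-(eL X ^ 3)) * pz X) := by gcongr
      _ = _ := by ring
  have hm := masterP hPO hR hC hbil (K := pK X) (pV D X) (X_pos g2) (pH_pos g2) (pz_pos g2) hPz hPK
    (κ := C * Real.exp (-(eL X ^ 3 / 32))) (by positivity) hκ (A₀ := r + 2 * pB X) (B₀ := pB X)
    (by omega) g7 hc₁ hc0 hc1 (pN_gt g2)
  have b1 := t1 g2
  have b2 := t2 g2
  have b3 := t3 g2
  have b4 := mul_le_mul_of_nonneg_left (t4 g2 hD g3) hc₀0
  have b5 := t5 g2 hD g3 g4 (hmer _ hz0 _)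
  have b6 := t6' g2 hC
  have b9 := t9 g2 hD g3 hc₀0 r
  have b10 := t10 g2
  have hX : (0 : ℝ) ≤ X := Nat.cast_nonneg _
  have b7 : (X : ℝ) * TP c₀ C D r (eL X) ≤ X * η := mul_le_mul_of_nonneg_left g1.le hX
  have b8 := SS_ge g6
  have b11 := disj_ge (P := P) X
  set n0 : ℝ := (((SS X).filter fun S => Disjoint S P).card : ℝ) with hn0
  have b12 : (X : ℝ) * η ≤ δ * n0 := by
    have e1 : (X : ℝ) / 65536000 ≤ 2 ^ P.card * n0 := b8.trans b11
    have e2 : (X : ℝ) ≤ 65536000 * (2 ^ P.card * n0) := by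
      rw [div_le_iff₀ (by norm_num)] at e1
      linarith
    rw [hη, mul_div_assoc', div_le_iff₀ (by positivity)]
    nlinarith
  have hL0 : 0 ≤ eL X := by linarith
  have hDr : (0 : ℝ) ≤ D := Nat.cast_nonneg _
  have hlD : 0 ≤ Real.log D := Real.log_natCast_nonneg _
  have hC0 : 0 ≤ C := by linarith
  -- comparison with the total error
  have b13 : 800 * Real.exp (-eL X) + 36 * Real.exp (-(eL X / 2)) + 44000 * Real.exp (-eL X) +
      c₀ * (35840000 * (23 * eL X ^ 4) ^ 3 * (3 * Real.exp (-(eL X / (16 * D * Real.log D))))) +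
      (160 * D * Real.log D / eL X + 14400 * (4 * D * Real.log D / eL X) ^ 2) ≤
      (1 + c₀) * TE C D (eL X) := by
    unfold TE
    have q1 : 0 ≤ 800 * Real.exp (-eL X) := by positivity
    have q2 : 0 ≤ 36 * Real.exp (-(eL X / 2)) := by positivity
    have q3 : 0 ≤ 44000 * Real.exp (-eL X) := by positivity
    have q4 : 0 ≤ 35840000 * (23 * eL X ^ 4) ^ 3 *
      (3 * Real.exp (-(eL X / (16 * D * Real.log D)))) := by positivity
    have q5 : 0 ≤ 160 * D * Real.log D / eL X + 14400 * (4 * D * Real.log D / eL X) ^ 2 := by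
      positivity
    have q6 : 0 ≤ 80 * C * Real.exp (474 * eL X ^ 2 - eL X ^ 3 / 32) := by positivity
    set a1 := 800 * Real.exp (-eL X)
    set a2 := 36 * Real.exp (-(eL X / 2))
    set a3 := 44000 * Real.exp (-eL X)
    set a4 := 35840000 * (23 * eL X ^ 4) ^ 3 *
      (3 * Real.exp (-(eL X / (16 * D * Real.log D))))
    set a5 := 160 * D * Real.log D / eL X + 14400 * (4 * D * Real.log D / eL X) ^ 2
    set a6 := 80 * C * Real.exp (474 * eL X ^ 2 - eL X ^ 3 / 32)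
    have q7 : 0 ≤ c₀ * (a1 + a2 + a3 + a5 + a6) := by positivity
    nlinarith
  have b14 := mul_le_mul_of_nonneg_left b13 hX
  unfold TP at b7
  rw [← hc₀] at hm
  set E1 := 400 * X * (1 + Real.log X) / 2 ^ pK X
  set E2 := 6 * X * Real.sqrt (pK X / pH X) + 12 * Real.sqrt X
  set E3 := 400 * X * (1 + Real.log X) * (15 / Real.sqrt (pH X) + 40 / Real.sqrt (pz X))
  set E4 := c₀ * (35840000 * X * (1 + Real.log ((pz X ^ pK X : ℕ) : ℝ)) ^ 3 / 2 ^ pV D X)
  set E5 := (((SS X).filter fun S => (la (pz X) S).card < pV D X).card : ℝ)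
  set E9 := c₀ * (448000 * X * (1 + Real.log ((pz X ^ pK X : ℕ) : ℝ)) *
        (2 * (1 + lp X)) ^ (r + 2 * pB X)) / 2 ^ pV D X
  set E10 := 16000 * X * (1 + Real.log ((pz X ^ pK X : ℕ) : ℝ)) ^ 2 / 2 ^ pB X
  have hfin : c₁ * n0 ≤ (((SS X).filter fun S => Dj P S).card : ℝ) + δ * n0 := by
    refine hm.trans (add_le_add_right ?_ _)
    refine le_trans ?_ b12
    refine le_trans ?_ b7
    have c1 := add_le_add (add_le_add (add_le_add (add_le_add (add_le_add (add_le_add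
      (add_le_add b1 b2) b3) b4) b5) b9) b10) b6
    refine c1.trans ?_
    nlinarith
  have hc2 : c₁ - δ = 0.419 ^ M := by
    rw [hc₁, hδ]
    ring
  have : 0.419 ^ M * n0 = c₁ * n0 - δ * n0 := by rw [← hc2]; ring
  rw [this]
  linarith

end Pool.Agent.Helper35K9.TW.PQ
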