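import Pool.Agent.Helper35K9.TW.Cl
import Pool.Agent.Helper35K9.TW.Hyp
import Pool.Agent.Y697.MQ.Lm

/-! Few products have degenerate labels. -/

set_option autoImplicit false

namespace Pool.Agent.Helper35K9.TW.PP

open Pool.Agent.Y697.PP

open Finset
open Pool.Agent.Y697.MQ (leg OP Pr Pr_prod Reps Pr_iff Pr_one leg_mul leg_congr leg_eq_zero exists_op leg_cases gA recip leg_ne)
open Pool.Agent.Helper35K9.TW
open scoped Classical

/-- the labels of the primes in `S₁` with respect to `S₀` span -/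
def LgS (S₀ S₁ : Finset GaussianInt) : Prop :=
  ∀ (c : ZMod 2) (ε : S₀ → ZMod 2), (∀ q ∈ S₁, c * gL q + ∑ v : S₀, ε v * gA v q = 0) →
    c = 0 ∧ ∀ v, ε v = 0

/-- the sign -/
def sz (x : ZMod 2) : ℤ := if x = 0 then 1 else -1

theorem sz_add (x y : ZMod 2) : sz (x + y) = sz x * sz y := by
  revert x y
  decide

theorem sz_sum {ι : Type} (s : Finset ι) (f : ι → ZMod 2) :
    sz (∑ i ∈ s, f i) = ∏ i ∈ s, sz (f i) := by
  induction s using Finset.induction_on with
  | empty => rfl
  | insert i s hi ih => rw [Finset.sum_insert hi, Finset.prod_insert hi, sz_add, ih]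

theorem not_Lg {S₀ S₁ : Finset GaussianInt} (h₀ : ∀ p ∈ S₀, OP p) (h₁ : ∀ p ∈ S₁, OP p)
    (hd : Disjoint S₀ S₁) (h : ¬ LgS S₀ S₁) : ∃ b : Bool, ∃ e, e ⊆ S₀ ∧ (b = true ∨ e.Nonempty) ∧
      ∀ q ∈ S₁, psi b e q = 1 := by
  unfold LgS at h
  push Not at h
  obtain ⟨c, ε, h2, h3⟩ := h
  refine ⟨decide (c ≠ 0), (Finset.univ.filter fun v => ε v ≠ 0).image Subtype.val, ?_, ?_, ?_⟩
  · intro v hv
    rw [Finset.mem_image] at hv
    obtain ⟨w, -, rfl⟩ := hv
    exact w.2
  · by_cases hc : c = 0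
    · right
      obtain ⟨v, hv⟩ := h3 hc
      exact ⟨v, Finset.mem_image_of_mem _ (Finset.mem_filter.2 ⟨Finset.mem_univ _, hv⟩)⟩
    · left
      simp [hc]
  · intro q hq
    have hqO := h₁ q hq
    have h4 := congrArg sz (h2 q hq)
    rw [sz_add, sz_sum] at h4
    have h5 : sz 0 = 1 := rfl
    rw [h5] at h4
    refine Eq.trans ?_ h4
    unfold psi
    congr 1
    · by_cases hc : c = 0
      · rw [hc, zero_mul]
        simp only [ne_eq, not_true_eq_false, decide_false, Bool.false_eq_true, if_false]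
        rw [cl_sq hqO.pm]
        rfl
      · have hc1 : c = 1 := by
          have : ∀ x : ZMod 2, x ≠ 0 → x = 1 := by decide
          exact this _ hc
        rw [hc1, one_mul]
        simp only [ne_eq, one_ne_zero, not_false_eq_true, decide_true, if_true]
        unfold gL
        rcases cl_ne hqO.pm with h6 | h6 <;> rw [h6] <;> decide
    · rw [Finset.prod_image (fun a _ b _ hab => Subtype.ext hab), Finset.prod_filter]
      refine Finset.prod_congr rfl fun v _ => ?_
      by_cases hv : ε v = 0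
      · rw [hv, zero_mul]
        simp [sz]
      · have hv1 : ε v = 1 := by
          have : ∀ x : ZMod 2, x ≠ 0 → x = 1 := by decide
          exact this _ hv
        rw [if_pos hv, hv1, one_mul]
        have hvO := h₀ v v.2
        have hne : (v : GaussianInt) ≠ q := by
          intro h6
          exact (Finset.disjoint_left.1 hd v.2) (h6 ▸ hq)
        rw [recip hvO hqO hne]
        unfold gA
        have h7 : ¬ q ∣ (v : GaussianInt) := fun h6 => hne (hqO.dvd hvO h6).symm
        rcases leg_ne h7 with h6 | h6 <;> rw [h6] <;> decide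

/-- the small part -/
noncomputable def sm (z : ℕ) (S : Finset GaussianInt) : Finset GaussianInt :=
  S.filter fun p => nm p ≤ z

/-- the large part -/
noncomputable def la (z : ℕ) (S : Finset GaussianInt) : Finset GaussianInt :=
  S.filter fun p => ¬ nm p ≤ z

theorem sm_union (z : ℕ) (S : Finset GaussianInt) : sm z S ∪ la z S = S :=
  Finset.filter_union_filter_not_eq _ _

theorem sm_disj (z : ℕ) (S : Finset GaussianInt) : Disjoint (sm z S) (la z S) :=
  Finset.disjoint_filter_filter_not _ _ _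

theorem NS_sm (z : ℕ) (S : Finset GaussianInt) : NS (sm z S) * NS (la z S) = NS S := by
  rw [NS_eq, NS_eq, NS_eq]
  exact Finset.prod_filter_mul_prod_filter_not _ _ _

theorem bad_count {X z Z V : ℕ} (hZ : 1 ≤ Z) :
    ((((SS X).filter fun S => ¬ LgS (sm z S) (la z S) ∧ NS (sm z S) ≤ Z ∧
      V ≤ (la z S).card).card : ℕ) : ℝ) * 2 ^ V ≤ 35840000 * X * (1 + Real.log Z) ^ 3 := by
  have hZ' : (1 : ℝ) ≤ Z := by exact_mod_cast hZ
  have hlZ : 0 ≤ Real.log Z := Real.log_nonneg hZ'
  set B := (SS X).filter fun S => ¬ LgS (sm z S) (la z S) ∧ NS (sm z S) ≤ Z ∧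
      V ≤ (la z S).card with hB
  have h1 : (B.card : ℝ) * 2 ^ V ≤ ∑ S₀ ∈ SS Z, ((B.filter fun S => sm z S = S₀).card : ℝ) * 2 ^ V := by
    have h2 : B.card = ∑ S₀ ∈ SS Z, (B.filter fun S => sm z S = S₀).card := by
      apply Finset.card_eq_sum_card_fiberwise
      intro S hS
      rw [Finset.mem_coe, hB, Finset.mem_filter, mem_SS] at hS
      rw [Finset.mem_coe, mem_SS]
      exact ⟨fun p hp => hS.1.1 p (Finset.mem_filter.1 hp).1, hS.2.2.1⟩
    rw [h2]
    push_cast
    rw [Finset.sum_mul]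
  refine h1.trans ?_
  have h2 : ∀ S₀ ∈ SS Z, ((B.filter fun S => sm z S = S₀).card : ℝ) * 2 ^ V ≤
      22400 * X * (1 + Real.log Z) * (2 ^ S₀.card / NS S₀) := by
    intro S₀ hS₀
    rw [mem_SS] at hS₀
    have hN0 := NS_pos hS₀.1
    have hN0' : (0 : ℝ) < NS S₀ := by exact_mod_cast hN0
    set Q := ((Finset.univ : Finset Bool) ×ˢ S₀.powerset).filter
      (fun t => t.1 = true ∨ t.2.Nonempty) with hQ
    have h3 : (B.filter fun S => sm z S = S₀).card ≤ ∑ t ∈ Q,
        ((SS (X / NS S₀)).filter fun S => V ≤ S.card ∧ ∀ p ∈ S, psi t.1 t.2 p = 1).card := by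
      refine le_trans ?_ Finset.card_biUnion_le
      apply Finset.card_le_card_of_injOn (fun S => la z S)
      · intro S hS
        rw [Finset.mem_coe, Finset.mem_filter, hB, Finset.mem_filter, mem_SS] at hS
        obtain ⟨⟨⟨hS1, hS2⟩, hS3, hS4, hS5⟩, hS6⟩ := hS
        have hlO : ∀ p ∈ la z S, OP p := fun p hp => hS1 p (Finset.mem_filter.1 hp).1
        have hsO : ∀ p ∈ sm z S, OP p := fun p hp => hS1 p (Finset.mem_filter.1 hp).1
        obtain ⟨b, e, he, hbe, hpsi⟩ := not_Lg hsO hlO (sm_disj z S) hS3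
        rw [Finset.mem_coe, Finset.mem_biUnion]
        refine ⟨(b, e), ?_, ?_⟩
        · rw [hQ, Finset.mem_filter, Finset.mem_product, Finset.mem_powerset, ← hS6]
          exact ⟨⟨Finset.mem_univ _, he⟩, hbe⟩
        · rw [Finset.mem_filter, mem_SS]
          refine ⟨⟨hlO, ?_⟩, hS5, hpsi⟩
          rw [Nat.le_div_iff_mul_le hN0, mul_comm, ← hS6, NS_sm]
          exact hS2
      · intro S hS T hT h
        rw [Finset.mem_coe, Finset.mem_filter] at hS hT
        simp only at h
        rw [← sm_union z S, ← sm_union z T, hS.2, hT.2, h]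
    have h4 : ∀ t ∈ Q, ((((SS (X / NS S₀)).filter fun S =>
        V ≤ S.card ∧ ∀ p ∈ S, psi t.1 t.2 p = 1).card : ℕ) : ℝ) * 2 ^ V ≤
        11200 * (X / NS S₀) * (1 + Real.log Z) := by
      rintro ⟨b, e⟩ ht
      rw [hQ, Finset.mem_filter, Finset.mem_product, Finset.mem_powerset] at ht
      have he : ∀ p ∈ e, OP p := fun p hp => hS₀.1 p (ht.1.2 hp)
      refine (count_psi he ht.2 (X / NS S₀) V).trans ?_
      have h5 : NS e ≤ Z := (NS_mono hS₀.1 ht.1.2).trans hS₀.2
      have h6 : Real.log (NS e) ≤ Real.log Z :=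
        Real.log_le_log (by exact_mod_cast NS_pos he) (by exact_mod_cast h5)
      have h7 : ((X / NS S₀ : ℕ) : ℝ) ≤ (X : ℝ) / NS S₀ := Nat.cast_div_le
      have h8 : 0 ≤ Real.log (NS e) := Real.log_nonneg (by exact_mod_cast NS_pos he)
      gcongr
    have h5 : (Q.card : ℝ) ≤ 2 * 2 ^ S₀.card := by
      have : Q.card ≤ 2 * 2 ^ S₀.card := by
        refine (Finset.card_filter_le _ _).trans ?_
        rw [Finset.card_product, Finset.card_powerset]
        rfl
      exact_mod_cast this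
    calc ((B.filter fun S => sm z S = S₀).card : ℝ) * 2 ^ V ≤ (∑ t ∈ Q,
        ((((SS (X / NS S₀)).filter fun S => V ≤ S.card ∧ ∀ p ∈ S, psi t.1 t.2 p = 1).card : ℕ) : ℝ)) *
          2 ^ V := by
          refine mul_le_mul_of_nonneg_right ?_ (by positivity)
          exact_mod_cast h3
      _ = ∑ t ∈ Q, ((((SS (X / NS S₀)).filter fun S =>
          V ≤ S.card ∧ ∀ p ∈ S, psi t.1 t.2 p = 1).card : ℕ) : ℝ) * 2 ^ V := Finset.sum_mul _ _ _
      _ ≤ ∑ t ∈ Q, 11200 * (X / NS S₀) * (1 + Real.log Z) := Finset.sum_le_sum h4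
      _ = Q.card * (11200 * (X / NS S₀) * (1 + Real.log Z)) := by
          rw [Finset.sum_const, nsmul_eq_mul]
      _ ≤ (2 * 2 ^ S₀.card) * (11200 * (X / NS S₀) * (1 + Real.log Z)) := by
          refine mul_le_mul_of_nonneg_right h5 (by positivity)
      _ = _ := by ring
  refine (Finset.sum_le_sum h2).trans ?_
  rw [← Finset.mul_sum]
  have h3 := sum_two_pow_div hZ
  have h4 : (0 : ℝ) ≤ 22400 * X * (1 + Real.log Z) := by positivity
  refine (mul_le_mul_of_nonneg_left h3 h4).trans (le_of_eq ?_)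
  ring

end Pool.Agent.Helper35K9.TW.PP
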