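import Pool.Agent.Helper35K9.TW.Kyp

/-! Few sets have bad labels. -/

set_option autoImplicit false

namespace Pool.Agent.Helper35K9.TW.PQ

open Pool.Agent.Y697.PQ

open Finset Module
open Pool.Agent.Y697.MQ (leg OP Pr Pr_prod gA recip leg_ne leg_cases)
open Pool.Agent.Helper35K9.TW
open Pool.Agent.Y697.PP
open Pool.Agent.Helper35K9.TW.PP
open scoped Classical

theorem sz_gA {v q : GaussianInt} (hv : OP v) (hq : OP q) (hne : v ≠ q) : sz (gA v q) = leg v q := by
  rw [recip hv hq hne]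
  unfold gA
  have h7 : ¬ q ∣ v := fun h6 => hne (hq.dvd hv h6).symm
  rcases leg_ne h7 with h6 | h6 <;> rw [h6] <;> decide

theorem psi_false {e : Finset GaussianInt} (he : ∀ v ∈ e, OP v) {q : GaussianInt} (hq : OP q)
    (hqe : q ∉ e) : psi false e q = sz (∑ v ∈ e, gA v q) := by
  unfold psi
  rw [sz_sum]
  simp only [Bool.false_eq_true, if_false]
  rw [cl_sq hq.pm, one_mul]
  refine Finset.prod_congr rfl fun v hv => ?_
  exact (sz_gA (he v hv) hq (fun h => hqe (h ▸ hv))).symm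

theorem psi_one {e : Finset GaussianInt} (he : ∀ v ∈ e, OP v) {q : GaussianInt} (hq : OP q)
    (hqe : q ∉ e) (h : ¬ ∑ v ∈ e, gA v q = 1) : psi false e q = 1 := by
  rw [psi_false he hq hqe, (z2 _).resolve_right h]
  rfl

/-- sums over the small sets -/
theorem sum_small (Q : Finset GaussianInt) (w : GaussianInt → ℝ) (hw : ∀ q, 0 ≤ w q) (A : ℕ) :
    ∑ J ∈ Q.powerset.filter (fun J => J.card ≤ A), ∏ q ∈ J, w q ≤ (1 + ∑ q ∈ Q, w q) ^ A := by
  have hP : ∀ J : Finset GaussianInt, 0 ≤ ∏ q ∈ J, w q := fun J =>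
    Finset.prod_nonneg fun q _ => hw q
  have hs : 0 ≤ ∑ q ∈ Q, w q := Finset.sum_nonneg fun q _ => hw q
  induction A with
  | zero =>
    have : Q.powerset.filter (fun J => J.card ≤ 0) = {∅} := by
      ext J
      rw [Finset.mem_filter, Finset.mem_powerset, Nat.le_zero, Finset.card_eq_zero,
        Finset.mem_singleton]
      constructor
      · exact fun h => h.2
      · rintro rfl
        exact ⟨Finset.empty_subset _, rfl⟩
    rw [this, Finset.sum_singleton, Finset.prod_empty, pow_zero]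
  | succ A ih =>
    set T := Q.powerset.filter (fun J => J.card ≤ A) with hT
    set U := Q.powerset.filter (fun J => J.card = A + 1) with hU
    have h1 : ∑ J ∈ Q.powerset.filter (fun J => J.card ≤ A + 1), ∏ q ∈ J, w q ≤
        ∑ J ∈ T, ∏ q ∈ J, w q + ∑ J ∈ U, ∏ q ∈ J, w q := by
      have h2 : Q.powerset.filter (fun J => J.card ≤ A + 1) = T ∪ U := by
        ext J
        rw [hT, hU, Finset.mem_union, Finset.mem_filter, Finset.mem_filter, Finset.mem_filter]
        constructor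
        · rintro ⟨h3, h4⟩
          rcases Nat.lt_or_ge A J.card with h5 | h5
          · exact Or.inr ⟨h3, by omega⟩
          · exact Or.inl ⟨h3, h5⟩
        · rintro (⟨h3, h4⟩ | ⟨h3, h4⟩)
          · exact ⟨h3, by omega⟩
          · exact ⟨h3, by omega⟩
      rw [h2, Finset.sum_union]
      rw [Finset.disjoint_left]
      intro J hJ hJ'
      have := (Finset.mem_filter.1 hJ).2
      have := (Finset.mem_filter.1 hJ').2
      omega
    have hch : ∀ J : Finset GaussianInt, ∃ q, J.card = A + 1 → q ∈ J := by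
      intro J
      rcases J.eq_empty_or_nonempty with h | ⟨x, hx⟩
      · exact ⟨0, fun h' => by rw [h, Finset.card_empty] at h'; omega⟩
      · exact ⟨x, fun _ => hx⟩
    choose c hc using hch
    have h2 : ∑ J ∈ U, ∏ q ∈ J, w q ≤ (∑ q ∈ Q, w q) * ∑ J ∈ T, ∏ q ∈ J, w q := by
      have h3 : ∀ J ∈ U, ∏ q ∈ J, w q = w (c J) * ∏ q ∈ J.erase (c J), w q := by
        intro J hJ
        exact (Finset.mul_prod_erase J w (hc J (Finset.mem_filter.1 hJ).2)).symm
      rw [Finset.sum_congr rfl h3]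
      have h4 : Set.InjOn (fun J : Finset GaussianInt => (c J, J.erase (c J))) U := by
        intro J hJ J' hJ' h
        rw [Prod.mk.injEq] at h
        rw [Finset.mem_coe] at hJ hJ'
        rw [← Finset.insert_erase (hc J (Finset.mem_filter.1 hJ).2), h.2, h.1,
          Finset.insert_erase (hc J' (Finset.mem_filter.1 hJ').2)]
      have h5 : ∑ J ∈ U, w (c J) * ∏ q ∈ J.erase (c J), w q =
          ∑ x ∈ U.image (fun J : Finset GaussianInt => (c J, J.erase (c J))),
            w x.1 * ∏ q ∈ x.2, w q := (Finset.sum_image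
              (f := fun x : GaussianInt × Finset GaussianInt => w x.1 * ∏ q ∈ x.2, w q) h4).symm
      rw [h5, Finset.sum_mul_sum, ← Finset.sum_product']
      refine Finset.sum_le_sum_of_subset_of_nonneg ?_ fun x _ _ => mul_nonneg (hw _) (hP _)
      intro x hx
      rw [Finset.mem_image] at hx
      obtain ⟨J, hJ, rfl⟩ := hx
      rw [hU, Finset.mem_filter, Finset.mem_powerset] at hJ
      rw [Finset.mem_product, hT, Finset.mem_filter, Finset.mem_powerset]
      refine ⟨hJ.1 (hc J hJ.2), (Finset.erase_subset _ _).trans hJ.1, ?_⟩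
      rw [Finset.card_erase_of_mem (hc J hJ.2)]
      omega
    refine h1.trans ?_
    have h3 : ∑ J ∈ T, ∏ q ∈ J, w q + ∑ J ∈ U, ∏ q ∈ J, w q ≤
        (∑ J ∈ T, ∏ q ∈ J, w q) * (1 + ∑ q ∈ Q, w q) := by
      linarith
    refine h3.trans ?_
    rw [pow_succ]
    exact mul_le_mul_of_nonneg_right ih (by linarith)

/-- the sum of the inverses of the norms of the primes -/
noncomputable def lp (X : ℕ) : ℝ := ∑ q ∈ PO X, 1 / (nm q : ℝ)

theorem lp_nonneg (X : ℕ) : 0 ≤ lp X := Finset.sum_nonneg fun _ _ => by positivity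

theorem sum_small_NS (X A : ℕ) :
    ∑ J ∈ (PO X).powerset.filter (fun J => J.card ≤ A), (1 : ℝ) / NS J ≤ (1 + lp X) ^ A := by
  have h1 := sum_small (PO X) (fun q => 1 / (nm q : ℝ)) (fun q => by positivity) A
  refine le_trans (le_of_eq ?_) h1
  refine Finset.sum_congr rfl fun J _ => ?_
  rw [NS_eq]
  push_cast
  rw [Finset.prod_div_distrib, Finset.prod_const_one]

section cnt
variable {P : Finset GaussianInt} (hPO : ∀ p ∈ P, OP p)
include hPO

/-- few sets have linearly dependent labels -/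
theorem bad_countP {X z Z V : ℕ} (hZ : 1 ≤ Z) (hPz : ∀ p ∈ P, nm p ≤ z) :
    ((((SS X).filter fun S => Disjoint S P ∧ ¬ LgS (sm z S ∪ P) (la z S) ∧ NS (sm z S) ≤ Z ∧
      V ≤ (la z S).card).card : ℕ) : ℝ) * 2 ^ V ≤
      2 ^ P.card * (1 + Real.log (NS P)) * (35840000 * X * (1 + Real.log Z) ^ 3) := by
  have hZ' : (1 : ℝ) ≤ Z := by exact_mod_cast hZ
  have hlZ : 0 ≤ Real.log Z := Real.log_nonneg hZ'
  have hNP : 0 < NS P := NS_pos hPO
  have hlP : 0 ≤ Real.log (NS P) := Real.log_nonneg (by exact_mod_cast hNP)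
  set B := (SS X).filter fun S => Disjoint S P ∧ ¬ LgS (sm z S ∪ P) (la z S) ∧
      NS (sm z S) ≤ Z ∧ V ≤ (la z S).card with hB
  have h1 : (B.card : ℝ) * 2 ^ V ≤ ∑ S₀ ∈ SS Z, ((B.filter fun S => sm z S = S₀).card : ℝ) * 2 ^ V := by
    have h2 : B.card = ∑ S₀ ∈ SS Z, (B.filter fun S => sm z S = S₀).card := by
      apply Finset.card_eq_sum_card_fiberwise
      intro S hS
      rw [Finset.mem_coe, hB, Finset.mem_filter, mem_SS] at hS
      rw [Finset.mem_coe, mem_SS]
      exact ⟨fun p hp => hS.1.1 p (Finset.mem_filter.1 hp).1, hS.2.2.2.1⟩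
    rw [h2]
    push_cast
    rw [Finset.sum_mul]
  refine h1.trans ?_
  have h2 : ∀ S₀ ∈ SS Z, ((B.filter fun S => sm z S = S₀).card : ℝ) * 2 ^ V ≤
      22400 * X * (2 ^ P.card * (1 + Real.log (NS P)) * (1 + Real.log Z)) *
        (2 ^ S₀.card / NS S₀) := by
    intro S₀ hS₀
    rw [mem_SS] at hS₀
    have hN0 := NS_pos hS₀.1
    have hN0' : (0 : ℝ) < NS S₀ := by exact_mod_cast hN0
    have hUO : ∀ p ∈ S₀ ∪ P, OP p := by
      intro p hp
      rw [Finset.mem_union] at hp
      rcases hp with h | h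
      · exact hS₀.1 p h
      · exact hPO p h
    set Q := ((Finset.univ : Finset Bool) ×ˢ (S₀ ∪ P).powerset).filter
      (fun t => t.1 = true ∨ t.2.Nonempty) with hQ
    have h3 : (B.filter fun S => sm z S = S₀).card ≤ ∑ t ∈ Q,
        ((SS (X / NS S₀)).filter fun S => V ≤ S.card ∧ ∀ p ∈ S, psi t.1 t.2 p = 1).card := by
      refine le_trans ?_ Finset.card_biUnion_le
      apply Finset.card_le_card_of_injOn (fun S => la z S)
      · intro S hS
        rw [Finset.mem_coe, Finset.mem_filter, hB, Finset.mem_filter, mem_SS] at hS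
        obtain ⟨⟨⟨hS1, hS2⟩, hSd, hS3, hS4, hS5⟩, hS6⟩ := hS
        have hlO : ∀ p ∈ la z S, OP p := fun p hp => hS1 p (Finset.mem_filter.1 hp).1
        have hdis : Disjoint (sm z S ∪ P) (la z S) := by
          rw [Finset.disjoint_union_left]
          refine ⟨sm_disj z S, ?_⟩
          rw [Finset.disjoint_left]
          intro p hp hp'
          exact (Finset.mem_filter.1 hp').2 (hPz p hp)
        obtain ⟨b, e, he, hbe, hpsi⟩ := not_Lg (by rw [hS6]; exact hUO) hlO hdis hS3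
        rw [Finset.mem_coe, Finset.mem_biUnion]
        refine ⟨(b, e), ?_, ?_⟩
        · rw [hQ, Finset.mem_filter, Finset.mem_product, Finset.mem_powerset, ← hS6]
          exact ⟨⟨Finset.mem_univ _, he⟩, hbe⟩
        · rw [Finset.mem_filter, mem_SS]
          refine ⟨⟨hlO, ?_⟩, hS5, hpsi⟩
          rw [Nat.le_div_iff_mul_le hN0, mul_comm, ← hS6, NS_sm]
          exact hS2
      · intro S hS T hT h
        rw [Finset.mem_coe, Finset.mem_filter] at hS hT
        simp only at h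
        rw [← sm_union z S, ← sm_union z T, hS.2, hT.2, h]
    have h4 : ∀ t ∈ Q, ((((SS (X / NS S₀)).filter fun S =>
        V ≤ S.card ∧ ∀ p ∈ S, psi t.1 t.2 p = 1).card : ℕ) : ℝ) * 2 ^ V ≤
        11200 * (X / NS S₀) * ((1 + Real.log (NS P)) * (1 + Real.log Z)) := by
      rintro ⟨b, e⟩ ht
      rw [hQ, Finset.mem_filter, Finset.mem_product, Finset.mem_powerset] at ht
      have he : ∀ p ∈ e, OP p := fun p hp => hUO p (ht.1.2 hp)
      refine (count_psi he ht.2 (X / NS S₀) V).trans ?_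
      have h5 : NS e ≤ Z * NS P := by
        refine (NS_mono hUO ht.1.2).trans ?_
        have h6 : NS (S₀ ∪ P) ≤ NS S₀ * NS P := by
          rw [NS_eq, NS_eq, NS_eq, ← Finset.union_sdiff_self_eq_union,
            Finset.prod_union Finset.disjoint_sdiff]
          refine Nat.mul_le_mul_left _ ?_
          refine Finset.prod_le_prod_of_subset_of_one_le' Finset.sdiff_subset ?_
          intro p hp _
          exact nm_pos (hPO p hp).pr.ne_zero
        exact h6.trans (Nat.mul_le_mul_right _ hS₀.2)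
      have h6 : Real.log (NS e) ≤ Real.log Z + Real.log (NS P) := by
        rw [← Real.log_mul (by positivity) (by positivity)]
        exact Real.log_le_log (by exact_mod_cast NS_pos he) (by exact_mod_cast h5)
      have h7 : ((X / NS S₀ : ℕ) : ℝ) ≤ (X : ℝ) / NS S₀ := Nat.cast_div_le
      have h8 : 0 ≤ Real.log (NS e) := Real.log_nonneg (by exact_mod_cast NS_pos he)
      have h9 : 1 + Real.log (NS e) ≤ (1 + Real.log (NS P)) * (1 + Real.log Z) := by
        nlinarith [mul_nonneg hlP hlZ]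
      gcongr
    have h5 : (Q.card : ℝ) ≤ 2 * (2 ^ S₀.card * 2 ^ P.card) := by
      have : Q.card ≤ 2 * (2 ^ S₀.card * 2 ^ P.card) := by
        refine (Finset.card_filter_le _ _).trans ?_
        rw [Finset.card_product, Finset.card_powerset, ← pow_add]
        refine Nat.mul_le_mul_left _ (Nat.pow_le_pow_right (by norm_num) (Finset.card_union_le _ _))
      exact_mod_cast this
    calc ((B.filter fun S => sm z S = S₀).card : ℝ) * 2 ^ V ≤ (∑ t ∈ Q,
        ((((SS (X / NS S₀)).filter fun S => V ≤ S.card ∧ ∀ p ∈ S, psi t.1 t.2 p = 1).card : ℕ) : ℝ)) *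
          2 ^ V := by
          refine mul_le_mul_of_nonneg_right ?_ (by positivity)
          exact_mod_cast h3
      _ = ∑ t ∈ Q, ((((SS (X / NS S₀)).filter fun S =>
          V ≤ S.card ∧ ∀ p ∈ S, psi t.1 t.2 p = 1).card : ℕ) : ℝ) * 2 ^ V := Finset.sum_mul _ _ _
      _ ≤ ∑ t ∈ Q, 11200 * (X / NS S₀) * ((1 + Real.log (NS P)) * (1 + Real.log Z)) :=
          Finset.sum_le_sum h4
      _ = Q.card * (11200 * (X / NS S₀) * ((1 + Real.log (NS P)) * (1 + Real.log Z))) := by
          rw [Finset.sum_const, nsmul_eq_mul]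
      _ ≤ (2 * (2 ^ S₀.card * 2 ^ P.card)) *
          (11200 * (X / NS S₀) * ((1 + Real.log (NS P)) * (1 + Real.log Z))) := by
          refine mul_le_mul_of_nonneg_right h5 (by positivity)
      _ = _ := by ring
  refine (Finset.sum_le_sum h2).trans ?_
  rw [← Finset.mul_sum]
  have h3 := sum_two_pow_div hZ
  have h4 : (0 : ℝ) ≤ 22400 * X * (2 ^ P.card * (1 + Real.log (NS P)) * (1 + Real.log Z)) := by
    positivity
  refine (mul_le_mul_of_nonneg_left h3 h4).trans (le_of_eq ?_)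
  ring

/-- few sets have few primes with a given sign -/
theorem bad_sign {X z Z V A₀ : ℕ} (hZ : 1 ≤ Z) (hPz : ∀ p ∈ P, nm p ≤ z) (hV : A₀ ≤ V) :
    ((((SS X).filter fun S => ¬ LgM P (la z S) A₀ ∧ NS (sm z S) ≤ Z ∧
      V ≤ (la z S).card).card : ℕ) : ℝ) * 2 ^ V ≤
      2 ^ P.card * (1 + Real.log (NS P)) * (448000 * X * (1 + Real.log Z) *
        (2 * (1 + lp X)) ^ A₀) := by
  have hZ' : (1 : ℝ) ≤ Z := by exact_mod_cast hZ
  have hlZ : 0 ≤ Real.log Z := Real.log_nonneg hZ'
  have hNP : 0 < NS P := NS_pos hPO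
  have hlP : 0 ≤ Real.log (NS P) := Real.log_nonneg (by exact_mod_cast hNP)
  have hlp := lp_nonneg X
  set PJ := (PO X).powerset.filter (fun J => J.card ≤ A₀) with hPJ
  have h1 : ∀ e ∈ P.powerset.filter (fun e => e.Nonempty),
      ((((SS X).filter fun S => ((la z S).filter fun q => ∑ v ∈ e, gA v q = 1).card < A₀ ∧
        NS (sm z S) ≤ Z ∧ V ≤ (la z S).card).card : ℕ) : ℝ) * 2 ^ V ≤
      (1 + Real.log (NS P)) * (448000 * X * (1 + Real.log Z) * (2 * (1 + lp X)) ^ A₀) := by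
    intro e he
    rw [Finset.mem_filter, Finset.mem_powerset] at he
    obtain ⟨heP, hene⟩ := he
    have heO : ∀ p ∈ e, OP p := fun p hp => hPO p (heP hp)
    have h2 : ((SS X).filter fun S => ((la z S).filter fun q => ∑ v ∈ e, gA v q = 1).card < A₀ ∧
        NS (sm z S) ≤ Z ∧ V ≤ (la z S).card).card ≤
        ∑ t ∈ SS Z ×ˢ PJ, ((SS (X / (NS t.1 * NS t.2))).filter fun S => V - A₀ ≤ S.card ∧
          ∀ p ∈ S, psi false e p = 1).card := by
      rw [← Finset.card_sigma]
      apply Finset.card_le_card_of_injOn (fun S => (⟨(sm z S,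
        (la z S).filter fun q => ∑ v ∈ e, gA v q = 1),
        (la z S).filter fun q => ¬ ∑ v ∈ e, gA v q = 1⟩ :
          Σ _ : Finset GaussianInt × Finset GaussianInt, Finset GaussianInt))
      · intro S hS
        rw [Finset.mem_coe, Finset.mem_filter, mem_SS] at hS
        obtain ⟨⟨hS1, hS2⟩, hS3, hS4, hS5⟩ := hS
        have hsO : ∀ p ∈ sm z S, OP p := fun p hp => hS1 p (Finset.mem_filter.1 hp).1
        have hlO : ∀ p ∈ la z S, OP p := fun p hp => hS1 p (Finset.mem_filter.1 hp).1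
        set J := (la z S).filter fun q => ∑ v ∈ e, gA v q = 1 with hJ
        set T := (la z S).filter fun q => ¬ ∑ v ∈ e, gA v q = 1 with hT
        have hJO : ∀ p ∈ J, OP p := fun p hp => hlO p (Finset.mem_filter.1 hp).1
        have hTO : ∀ p ∈ T, OP p := fun p hp => hlO p (Finset.mem_filter.1 hp).1
        have hJT : NS J * NS T = NS (la z S) := by
          rw [NS_eq, NS_eq, NS_eq]
          exact Finset.prod_filter_mul_prod_filter_not _ _ _
        have hcard : J.card + T.card = (la z S).card :=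
          Finset.card_filter_add_card_filter_not _
        refine Finset.mem_coe.2 (Finset.mem_sigma.2 ⟨Finset.mem_product.2 ⟨mem_SS.2 ⟨hsO, hS4⟩,
          Finset.mem_filter.2 ⟨Finset.mem_powerset.2 ?_, hS3.le⟩⟩,
          Finset.mem_filter.2 ⟨mem_SS.2 ⟨hTO, ?_⟩, ?_, ?_⟩⟩)
        · intro p hp
          have hpS : p ∈ S := (Finset.mem_filter.1 (Finset.mem_filter.1 hp).1).1
          rw [mem_PO]
          refine ⟨?_, hJO p hp⟩
          have h3 := NS_mono hS1 (Finset.singleton_subset_iff.2 hpS)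
          have e1 : NS {p} = nm p := by
            unfold NS
            rw [Finset.prod_singleton]
          rw [e1] at h3
          exact h3.trans hS2
        · rw [Nat.le_div_iff_mul_le (Nat.mul_pos (NS_pos hsO) (NS_pos hJO))]
          calc NS T * (NS (sm z S) * NS J) = NS (sm z S) * (NS J * NS T) := by ring
            _ = NS S := by rw [hJT, NS_sm]
            _ ≤ X := hS2
        · show V - A₀ ≤ T.card
          omega
        · intro p hp
          have hp' := Finset.mem_filter.1 hp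
          apply psi_one heO (hlO p hp'.1) _ hp'.2
          intro hpe
          exact (Finset.mem_filter.1 hp'.1).2 (hPz p (heP hpe))
      · intro S hS S' hS' h
        simp only [Sigma.mk.injEq, Prod.mk.injEq, heq_eq_eq] at h
        obtain ⟨⟨h3, h4⟩, h5⟩ := h
        rw [← sm_union z S, ← sm_union z S', h3,
          ← Finset.filter_union_filter_not_eq (fun q => ∑ v ∈ e, gA v q = 1) (la z S), h4, h5,
          Finset.filter_union_filter_not_eq]
    have h3 : ∀ t ∈ SS Z ×ˢ PJ, ((((SS (X / (NS t.1 * NS t.2))).filter fun S =>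
        V - A₀ ≤ S.card ∧ ∀ p ∈ S, psi false e p = 1).card : ℕ) : ℝ) * 2 ^ V ≤
        (11200 * X * (1 + Real.log (NS P)) * 2 ^ A₀) * (1 / NS t.1 * (1 / NS t.2)) := by
      rintro ⟨S₀, J⟩ _
      have h4 := count_psi (b := false) heO (Or.inr hene) (X / (NS S₀ * NS J)) (V - A₀)
      have h5 : (2 : ℝ) ^ V = 2 ^ (V - A₀) * 2 ^ A₀ := by
        rw [← pow_add, Nat.sub_add_cancel hV]
      have h6 : ((X / (NS S₀ * NS J) : ℕ) : ℝ) ≤ (X : ℝ) / (NS S₀ * NS J) := by
        have := Nat.cast_div_le (α := ℝ) (m := X) (n := NS S₀ * NS J)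
        push_cast at this
        exact this
      have h7 : Real.log (NS e) ≤ Real.log (NS P) :=
        Real.log_le_log (by exact_mod_cast NS_pos heO) (by exact_mod_cast NS_mono hPO heP)
      have h8 : 0 ≤ Real.log (NS e) := Real.log_nonneg (by exact_mod_cast NS_pos heO)
      show ((((SS (X / (NS S₀ * NS J))).filter fun S =>
        V - A₀ ≤ S.card ∧ ∀ p ∈ S, psi false e p = 1).card : ℕ) : ℝ) * 2 ^ V ≤
        (11200 * X * (1 + Real.log (NS P)) * 2 ^ A₀) * (1 / NS S₀ * (1 / NS J))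
      rw [h5, ← mul_assoc]
      calc _ ≤ (11200 * ((X / (NS S₀ * NS J) : ℕ) : ℝ) * (1 + Real.log (NS e))) * 2 ^ A₀ :=
            mul_le_mul_of_nonneg_right h4 (by positivity)
        _ ≤ (11200 * ((X : ℝ) / (NS S₀ * NS J)) * (1 + Real.log (NS P))) * 2 ^ A₀ := by gcongr
        _ = _ := by
            rw [div_mul_div_comm, one_mul]
            ring
    have h4 : ∑ t ∈ SS Z ×ˢ PJ, (1 / (NS t.1 : ℝ) * (1 / NS t.2)) ≤
        (40 * (1 + Real.log Z)) * (1 + lp X) ^ A₀ := by
      have e1 : ∑ t ∈ SS Z ×ˢ PJ, (1 / (NS t.1 : ℝ) * (1 / NS t.2)) =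
          (∑ a ∈ SS Z, 1 / (NS a : ℝ)) * ∑ b ∈ PJ, 1 / (NS b : ℝ) := by
        rw [Finset.sum_mul_sum, Finset.sum_product]
      rw [e1]
      exact mul_le_mul (harm_SS hZ) (sum_small_NS X A₀)
        (Finset.sum_nonneg fun _ _ => by positivity) (by positivity)
    calc ((((SS X).filter fun S => ((la z S).filter fun q => ∑ v ∈ e, gA v q = 1).card < A₀ ∧
        NS (sm z S) ≤ Z ∧ V ≤ (la z S).card).card : ℕ) : ℝ) * 2 ^ V ≤
        (∑ t ∈ SS Z ×ˢ PJ, ((((SS (X / (NS t.1 * NS t.2))).filter fun S => V - A₀ ≤ S.card ∧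
          ∀ p ∈ S, psi false e p = 1).card : ℕ) : ℝ)) * 2 ^ V := by
          refine mul_le_mul_of_nonneg_right ?_ (by positivity)
          exact_mod_cast h2
      _ = ∑ t ∈ SS Z ×ˢ PJ, ((((SS (X / (NS t.1 * NS t.2))).filter fun S => V - A₀ ≤ S.card ∧
          ∀ p ∈ S, psi false e p = 1).card : ℕ) : ℝ) * 2 ^ V := Finset.sum_mul _ _ _
      _ ≤ ∑ t ∈ SS Z ×ˢ PJ, (11200 * X * (1 + Real.log (NS P)) * 2 ^ A₀) *
          (1 / NS t.1 * (1 / NS t.2)) := Finset.sum_le_sum h3
      _ = (11200 * X * (1 + Real.log (NS P)) * 2 ^ A₀) *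
          ∑ t ∈ SS Z ×ˢ PJ, (1 / (NS t.1 : ℝ) * (1 / NS t.2)) := by rw [Finset.mul_sum]
      _ ≤ (11200 * X * (1 + Real.log (NS P)) * 2 ^ A₀) *
          ((40 * (1 + Real.log Z)) * (1 + lp X) ^ A₀) := by gcongr
      _ = _ := by
          rw [mul_pow]
          ring
  have h2 : ((SS X).filter fun S => ¬ LgM P (la z S) A₀ ∧ NS (sm z S) ≤ Z ∧
      V ≤ (la z S).card) ⊆ (P.powerset.filter (fun e => e.Nonempty)).biUnion fun e =>
      (SS X).filter fun S => ((la z S).filter fun q => ∑ v ∈ e, gA v q = 1).card < A₀ ∧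
        NS (sm z S) ≤ Z ∧ V ≤ (la z S).card := by
    intro S hS
    rw [Finset.mem_filter] at hS
    obtain ⟨hS1, hS2, hS3⟩ := hS
    unfold LgM at hS2
    push Not at hS2
    obtain ⟨e, he1, he2, he3⟩ := hS2
    rw [Finset.mem_biUnion]
    exact ⟨e, Finset.mem_filter.2 ⟨Finset.mem_powerset.2 he1, he2⟩,
      Finset.mem_filter.2 ⟨hS1, he3, hS3⟩⟩
  have h3 := (Finset.card_le_card h2).trans Finset.card_biUnion_le
  set Y : ℝ := (1 + Real.log (NS P)) *
    (448000 * X * (1 + Real.log Z) * (2 * (1 + lp X)) ^ A₀) with hY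
  have hY0 : 0 ≤ Y := by positivity
  calc ((((SS X).filter fun S => ¬ LgM P (la z S) A₀ ∧ NS (sm z S) ≤ Z ∧
      V ≤ (la z S).card).card : ℕ) : ℝ) * 2 ^ V ≤
      (∑ e ∈ P.powerset.filter (fun e => e.Nonempty), ((((SS X).filter fun S =>
        ((la z S).filter fun q => ∑ v ∈ e, gA v q = 1).card < A₀ ∧
        NS (sm z S) ≤ Z ∧ V ≤ (la z S).card).card : ℕ) : ℝ)) * 2 ^ V := by
        refine mul_le_mul_of_nonneg_right ?_ (by positivity)
        exact_mod_cast h3
    _ = ∑ e ∈ P.powerset.filter (fun e => e.Nonempty), ((((SS X).filter fun S =>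
        ((la z S).filter fun q => ∑ v ∈ e, gA v q = 1).card < A₀ ∧
        NS (sm z S) ≤ Z ∧ V ≤ (la z S).card).card : ℕ) : ℝ) * 2 ^ V := Finset.sum_mul _ _ _
    _ ≤ ∑ e ∈ P.powerset.filter (fun e => e.Nonempty), Y := Finset.sum_le_sum h1
    _ = (P.powerset.filter (fun e => e.Nonempty)).card * Y := by
        rw [Finset.sum_const, nsmul_eq_mul]
    _ ≤ 2 ^ P.card * Y := by
        refine mul_le_mul_of_nonneg_right ?_ hY0
        have : (P.powerset.filter (fun e => e.Nonempty)).card ≤ 2 ^ P.card := by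
          rw [← Finset.card_powerset]
          exact Finset.card_filter_le _ _
        exact_mod_cast this
    _ = _ := by rw [hY]; ring

omit hPO in
/-- few sets have many small primes -/
theorem bad_small {X z Z B₀ : ℕ} (hZ : 1 ≤ Z) :
    ((((SS X).filter fun S => B₀ < (sm z S).card ∧ NS (sm z S) ≤ Z).card : ℕ) : ℝ) * 2 ^ B₀ ≤
      16000 * X * (1 + Real.log Z) ^ 2 := by
  have hZ' : (1 : ℝ) ≤ Z := by exact_mod_cast hZ
  have hlZ : 0 ≤ Real.log Z := Real.log_nonneg hZ'
  have h1 : ((SS X).filter fun S => B₀ < (sm z S).card ∧ NS (sm z S) ≤ Z).card ≤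
      ∑ S₀ ∈ (SS Z).filter (fun S₀ => B₀ < S₀.card), (SS (X / NS S₀)).card := by
    rw [← Finset.card_sigma]
    apply Finset.card_le_card_of_injOn (fun S => (⟨sm z S, la z S⟩ :
      Σ _ : Finset GaussianInt, Finset GaussianInt))
    · intro S hS
      rw [Finset.mem_coe, Finset.mem_filter, mem_SS] at hS
      obtain ⟨⟨hS1, hS2⟩, hS3, hS4⟩ := hS
      have hsO : ∀ p ∈ sm z S, OP p := fun p hp => hS1 p (Finset.mem_filter.1 hp).1
      have hlO : ∀ p ∈ la z S, OP p := fun p hp => hS1 p (Finset.mem_filter.1 hp).1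
      rw [Finset.mem_coe, Finset.mem_sigma, Finset.mem_filter, mem_SS, mem_SS]
      refine ⟨⟨⟨hsO, hS4⟩, hS3⟩, hlO, ?_⟩
      rw [Nat.le_div_iff_mul_le (NS_pos hsO), mul_comm]
      show NS (sm z S) * NS (la z S) ≤ X
      rw [NS_sm]
      exact hS2
    · intro S hS S' hS' h
      simp only [Sigma.mk.injEq, heq_eq_eq] at h
      rw [← sm_union z S, ← sm_union z S', h.1, h.2]
  have h2 : ∀ S₀ ∈ (SS Z).filter (fun S₀ => B₀ < S₀.card),
      ((SS (X / NS S₀)).card : ℝ) * 2 ^ B₀ ≤ 10 * X * (2 ^ S₀.card / NS S₀) := by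
    intro S₀ hS₀
    rw [Finset.mem_filter] at hS₀
    have h3 := card_SS_le (X / NS S₀)
    have h4 : ((X / NS S₀ : ℕ) : ℝ) ≤ (X : ℝ) / NS S₀ := Nat.cast_div_le
    have h5 : (2 : ℝ) ^ B₀ ≤ 2 ^ S₀.card := pow_le_pow_right₀ (by norm_num) hS₀.2.le
    calc ((SS (X / NS S₀)).card : ℝ) * 2 ^ B₀ ≤ (10 * ((X : ℝ) / NS S₀)) * 2 ^ S₀.card := by
          have h6 : ((SS (X / NS S₀)).card : ℝ) ≤ 10 * ((X : ℝ) / NS S₀) := by linarith
          gcongr
      _ = _ := by ring
  calc ((((SS X).filter fun S => B₀ < (sm z S).card ∧ NS (sm z S) ≤ Z).card : ℕ) : ℝ) * 2 ^ B₀ ≤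
      (∑ S₀ ∈ (SS Z).filter (fun S₀ => B₀ < S₀.card), ((SS (X / NS S₀)).card : ℝ)) * 2 ^ B₀ := by
        refine mul_le_mul_of_nonneg_right ?_ (by positivity)
        exact_mod_cast h1
    _ = ∑ S₀ ∈ (SS Z).filter (fun S₀ => B₀ < S₀.card), ((SS (X / NS S₀)).card : ℝ) * 2 ^ B₀ :=
        Finset.sum_mul _ _ _
    _ ≤ ∑ S₀ ∈ (SS Z).filter (fun S₀ => B₀ < S₀.card), 10 * (X : ℝ) * (2 ^ S₀.card / NS S₀) :=
        Finset.sum_le_sum h2
    _ ≤ ∑ S₀ ∈ SS Z, 10 * (X : ℝ) * ((2 : ℝ) ^ S₀.card / NS S₀) :=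
        Finset.sum_le_sum_of_subset_of_nonneg (Finset.filter_subset _ _) fun _ _ _ => by positivity
    _ = 10 * X * ∑ S₀ ∈ SS Z, ((2 : ℝ) ^ S₀.card / NS S₀) := by rw [Finset.mul_sum]
    _ ≤ 10 * X * (40 * (1 + Real.log Z)) ^ 2 := by
        have := sum_two_pow_div hZ
        gcongr
    _ = _ := by ring

end cnt

end Pool.Agent.Helper35K9.TW.PQ
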