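import Pool.Agent.Helper35K9.TW.Bad
import Pool.Agent.Y697.PP.Mer

/-! Short annuli and blocks. -/

set_option autoImplicit false

namespace Pool.Agent.Helper35K9.TW.PP

open Pool.Agent.Y697.PP

open Finset
open Pool.Agent.Y697.MQ (leg OP Pr Pr_prod)
open Pool.Agent.Helper35K9.TW
open scoped Classical

theorem sqrt_add_le' {x y : ℝ} (hx : 0 ≤ x) (hy : 0 ≤ y) :
    Real.sqrt (x + y) ≤ Real.sqrt x + Real.sqrt y := by
  apply Real.sqrt_le_iff.2
  have h1 := Real.sqrt_nonneg x
  have h2 := Real.sqrt_nonneg y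
  refine ⟨by positivity, ?_⟩
  have h3 := Real.sq_sqrt hx
  have h4 := Real.sq_sqrt hy
  nlinarith [mul_nonneg h1 h2]

theorem ann_half (a b : ℕ) : (((Di b).filter fun g => a < nm g).filter fun g => 0 ≤ g.im).card ≤
    (Nat.sqrt (b - a) + 1) * (2 * Nat.sqrt b + 1) := by
  have h1 : ∀ g ∈ ((Di b).filter fun g => a < nm g).filter fun g => 0 ≤ g.im,
      g.re ∈ Finset.Icc (-(Nat.sqrt b : ℤ)) (Nat.sqrt b) := by
    intro g hg
    rw [Finset.mem_filter, Finset.mem_filter, mem_Di] at hg
    have := (abs_le_sqrt hg.1.1).1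
    rw [abs_le] at this
    rw [Finset.mem_Icc]
    exact this
  have h2 := Finset.card_le_mul_card_image_of_maps_to h1 (Nat.sqrt (b - a) + 1) (fun x _ => ?_)
  · rw [Int.card_Icc] at h2
    have : ((Nat.sqrt b : ℤ) + 1 - -(Nat.sqrt b : ℤ)).toNat = 2 * Nat.sqrt b + 1 := by omega
    rw [this] at h2
    exact h2
  · set F := (((Di b).filter fun g => a < nm g).filter fun g => 0 ≤ g.im).filter
      fun g => g.re = x with hF
    have hFm : ∀ g ∈ F, g.re = x ∧ 0 ≤ g.im ∧ (a : ℤ) < x * x + g.im * g.im ∧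
        x * x + g.im * g.im ≤ b := by
      intro g hg
      rw [hF, Finset.mem_filter, Finset.mem_filter, Finset.mem_filter, mem_Di] at hg
      obtain ⟨⟨⟨h3, h4⟩, h5⟩, h6⟩ := hg
      have h7 := nm_cast g
      rw [h6] at h7
      refine ⟨h6, h5, ?_, ?_⟩
      · rw [← h7]; exact_mod_cast h4
      · rw [← h7]; exact_mod_cast h3
    rcases F.eq_empty_or_nonempty with h3 | h3
    · rw [h3, Finset.card_empty]
      omega
    · obtain ⟨g₀, hg₀, hmin⟩ := Finset.exists_min_image F (fun g => g.im) h3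
      have h4 : F.card ≤ (Finset.Icc g₀.im (g₀.im + Nat.sqrt (b - a))).card := by
        apply Finset.card_le_card_of_injOn (fun g => g.im)
        · intro g hg
          have h5 := hFm g hg
          have h6 := hFm g₀ hg₀
          have h7 := hmin g hg
          rw [Finset.mem_coe, Finset.mem_Icc]
          refine ⟨h7, ?_⟩
          obtain ⟨d, hd⟩ := Int.eq_ofNat_of_zero_le (sub_nonneg.2 h7)
          have h8 : d ≤ Nat.sqrt (b - a) := by
            rw [Nat.le_sqrt]
            have h9 : (d : ℤ) * d ≤ b - a := by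
              rw [← hd]
              nlinarith [h5.2.1, h6.2.1, h5.2.2.2, h6.2.2.1]
            zify [show a ≤ b by
              have := h6.2.2.1.trans_le h6.2.2.2
              omega]
            exact h9
          have h9 : (d : ℤ) ≤ Nat.sqrt (b - a) := by exact_mod_cast h8
          simp only
          linarith
        · intro g hg h hh heq
          have h5 := hFm g hg
          have h6 := hFm h hh
          simp only at heq
          ext
          · rw [h5.1, h6.1]
          · exact heq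
      refine h4.trans ?_
      rw [Int.card_Icc]
      omega

theorem ann (a b : ℕ) : (((Di b).filter fun g => a < nm g).card : ℝ) ≤
    2 * ((Real.sqrt (b - a : ℕ) + 1) * (2 * Real.sqrt b + 1)) := by
  have h1 := ann_half a b
  have h2 : (((Di b).filter fun g => a < nm g).filter fun g => ¬ 0 ≤ g.im).card ≤
      (((Di b).filter fun g => a < nm g).filter fun g => 0 ≤ g.im).card := by
    apply Finset.card_le_card_of_injOn (fun g => ⟨g.re, -g.im⟩)
    · intro g hg
      rw [Finset.mem_coe, Finset.mem_filter, Finset.mem_filter, mem_Di] at hg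
      have h3 : nm ⟨g.re, -g.im⟩ = nm g := by
        have h4 := nm_cast g
        have h5 := nm_cast ⟨g.re, -g.im⟩
        simp only at h5
        rw [neg_mul_neg, ← h4] at h5
        exact_mod_cast h5
      rw [Finset.mem_coe, Finset.mem_filter, Finset.mem_filter, mem_Di, h3]
      refine ⟨hg.1, ?_⟩
      simp only
      have := hg.2
      omega
    · intro g _ h _ heq
      have h3 := congrArg Zsqrtd.re heq
      have h4 := congrArg Zsqrtd.im heq
      simp only at h3 h4
      ext
      · exact h3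
      · omega
  have h3 := Finset.card_filter_add_card_filter_not (s := (Di b).filter fun g => a < nm g)
    (fun g => 0 ≤ g.im)
  have h4 : ((Di b).filter fun g => a < nm g).card ≤
      2 * ((Nat.sqrt (b - a) + 1) * (2 * Nat.sqrt b + 1)) := by omega
  have h5 : (((Di b).filter fun g => a < nm g).card : ℝ) ≤
      2 * (((Nat.sqrt (b - a) : ℕ) + 1) * (2 * (Nat.sqrt b : ℕ) + 1)) := by exact_mod_cast h4
  refine h5.trans ?_
  have h6 := sqrt_cast (b - a)
  have h7 := sqrt_cast b
  gcongr

/-- the block of a prime -/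
noncomputable def jj (H : ℕ) (p : GaussianInt) : ℕ := ⌊(H : ℝ) * Real.log (nm p)⌋₊

/-- the bound of a block -/
noncomputable def XX (H k : ℕ) : ℕ := ⌊Real.exp ((k + 1) / H)⌋₊

theorem exp_jj_le {H : ℕ} (hH : 1 ≤ H) {p : GaussianInt} (hp : OP p) :
    Real.exp ((jj H p : ℝ) / H) ≤ nm p := by
  have hH' : (0 : ℝ) < H := by exact_mod_cast hH
  have h0 : (0 : ℝ) < nm p := by exact_mod_cast nm_pos hp.pr.ne_zero
  rw [← Real.le_log_iff_exp_le h0, div_le_iff₀ hH', mul_comm]
  exact Nat.floor_le (mul_nonneg hH'.le (log_nm_pos hp).le)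

theorem lt_exp_jj {H : ℕ} (hH : 1 ≤ H) {p : GaussianInt} (hp : OP p) :
    (nm p : ℝ) < Real.exp (((jj H p : ℝ) + 1) / H) := by
  have hH' : (0 : ℝ) < H := by exact_mod_cast hH
  have h0 : (0 : ℝ) < nm p := by exact_mod_cast nm_pos hp.pr.ne_zero
  rw [← Real.log_lt_iff_lt_exp h0, lt_div_iff₀ hH', mul_comm]
  exact Nat.lt_floor_add_one _

theorem nm_le_XX {H : ℕ} (hH : 1 ≤ H) {p : GaussianInt} (hp : OP p) : nm p ≤ XX H (jj H p) :=
  Nat.le_floor (lt_exp_jj hH hp).le

theorem XX_le (H k : ℕ) : (XX H k : ℝ) ≤ Real.exp ((k + 1) / H) :=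
  Nat.floor_le (Real.exp_pos _).le

theorem XX_le' {H : ℕ} (hH : 1 ≤ H) {p : GaussianInt} (hp : OP p) :
    (XX H (jj H p) : ℝ) ≤ nm p * Real.exp (1 / H) := by
  refine (XX_le _ _).trans ?_
  rw [add_div, Real.exp_add]
  exact mul_le_mul_of_nonneg_right (exp_jj_le hH hp) (Real.exp_pos _).le

/-- the sets whose box is not inside -/
theorem cut_count {X z K H : ℕ} (hX : 1 ≤ X) (hH : 1 ≤ H) :
    ((((SS X).filter fun S => S.card ≤ K ∧
      X < NS (sm z S) * ∏ p ∈ la z S, XX H (jj H p)).card : ℕ) : ℝ) ≤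
      6 * X * Real.sqrt (K / H) + 12 * Real.sqrt X := by
  have hH' : (0 : ℝ) < H := by exact_mod_cast hH
  have hX' : (1 : ℝ) ≤ X := by exact_mod_cast hX
  set a : ℕ := ⌊(X : ℝ) * Real.exp (-(K / H))⌋₊ with ha
  have h1 : ((SS X).filter fun S => S.card ≤ K ∧
      X < NS (sm z S) * ∏ p ∈ la z S, XX H (jj H p)).card ≤
      ((Di X).filter fun g => a < nm g).card := by
    apply Finset.card_le_card_of_injOn (fun S => ∏ p ∈ S, p)
    · intro S hS
      rw [Finset.mem_coe, Finset.mem_filter, mem_SS] at hS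
      obtain ⟨⟨hSO, hSX⟩, hSK, hlt⟩ := hS
      rw [Finset.mem_coe, Finset.mem_filter, mem_Di]
      refine ⟨hSX, ?_⟩
      have h2 : (X : ℝ) < NS (sm z S) * ∏ p ∈ la z S, (XX H (jj H p) : ℝ) := by exact_mod_cast hlt
      have h3 : ∏ p ∈ la z S, (XX H (jj H p) : ℝ) ≤
          ∏ p ∈ la z S, ((nm p : ℝ) * Real.exp (1 / H)) := by
        apply Finset.prod_le_prod (fun p _ => Nat.cast_nonneg _)
        intro p hp
        exact XX_le' hH (hSO p (Finset.mem_filter.1 hp).1)
      rw [Finset.prod_mul_distrib, Finset.prod_const, ← Real.exp_nat_mul] at h3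
      have h4 : ∏ p ∈ la z S, (nm p : ℝ) = NS (la z S) := by
        rw [NS_eq]
        push_cast
        rfl
      rw [h4] at h3
      have h5 : Real.exp ((la z S).card * (1 / H)) ≤ Real.exp (K / H) := by
        apply Real.exp_le_exp.2
        rw [mul_one_div]
        apply div_le_div_of_nonneg_right _ hH'.le
        exact_mod_cast (Finset.card_filter_le _ _).trans hSK
      have h6 : (X : ℝ) < NS S * Real.exp (K / H) := by
        calc (X : ℝ) < NS (sm z S) * ∏ p ∈ la z S, (XX H (jj H p) : ℝ) := h2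
          _ ≤ NS (sm z S) * (NS (la z S) * Real.exp (K / H)) := by
              refine mul_le_mul_of_nonneg_left (h3.trans ?_) (Nat.cast_nonneg _)
              exact mul_le_mul_of_nonneg_left h5 (Nat.cast_nonneg _)
          _ = NS S * Real.exp (K / H) := by
              rw [← NS_sm z S]
              push_cast
              ring
      have h7 : (X : ℝ) * Real.exp (-(K / H)) < NS S := by
        rw [Real.exp_neg, ← div_eq_mul_inv, div_lt_iff₀ (Real.exp_pos _)]
        exact h6
      have h8 : (a : ℝ) < NS S := lt_of_le_of_lt (Nat.floor_le (by positivity)) h7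
      exact_mod_cast h8
    · intro S hS T hT h
      rw [Finset.mem_coe, Finset.mem_filter, mem_SS] at hS hT
      exact prod_inj hS.1.1 hT.1.1 h
  have h2 : ((((SS X).filter fun S => S.card ≤ K ∧
      X < NS (sm z S) * ∏ p ∈ la z S, XX H (jj H p)).card : ℕ) : ℝ) ≤
      (((Di X).filter fun g => a < nm g).card : ℝ) := by exact_mod_cast h1
  refine h2.trans ((ann a X).trans ?_)
  have h3 : ((X - a : ℕ) : ℝ) ≤ X * (K / H) + 1 := by
    have h4 : (a : ℝ) ≤ X := by
      refine (Nat.floor_le (by positivity)).trans ?_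
      have : Real.exp (-((K : ℝ) / H)) ≤ 1 := by
        rw [Real.exp_le_one_iff]
        have : (0 : ℝ) ≤ K / H := by positivity
        linarith
      nlinarith
    have h5 : a ≤ X := by exact_mod_cast h4
    rw [Nat.cast_sub h5]
    have h6 : (X : ℝ) * Real.exp (-(K / H)) < a + 1 := Nat.lt_floor_add_one _
    have h7 : -((K : ℝ) / H) + 1 ≤ Real.exp (-(K / H)) := Real.add_one_le_exp _
    nlinarith
  have h4 : Real.sqrt ((X - a : ℕ) : ℝ) ≤ Real.sqrt X * Real.sqrt (K / H) + 1 := by
    refine (Real.sqrt_le_sqrt h3).trans ?_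
    refine (sqrt_add_le' (by positivity) (by norm_num)).trans ?_
    rw [Real.sqrt_one, Real.sqrt_mul (by linarith)]
  have h5 : 1 ≤ Real.sqrt X := Real.one_le_sqrt.2 hX'
  have h6 : Real.sqrt X * Real.sqrt X = X := Real.mul_self_sqrt (by linarith)
  have h7 : 0 ≤ Real.sqrt (K / H) := Real.sqrt_nonneg _
  calc 2 * ((Real.sqrt ((X - a : ℕ) : ℝ) + 1) * (2 * Real.sqrt X + 1)) ≤
      2 * ((Real.sqrt X * Real.sqrt (K / H) + 1 + 1) * (2 * Real.sqrt X + Real.sqrt X)) := by
        gcongr
    _ = 6 * (Real.sqrt X * Real.sqrt X) * Real.sqrt (K / H) + 12 * Real.sqrt X := by ring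
    _ = _ := by rw [h6]

/-- the primes of a block -/
theorem block_sum {X z H k : ℕ} (hH : 1 ≤ H) (hz : 1 ≤ z) {p : GaussianInt} (hp : OP p)
    (hpz : z < nm p) (hk : jj H p = k) :
    ∑ q ∈ (PO X).filter (fun q => jj H q = k), 1 / (nm q : ℝ) ≤
      15 / Real.sqrt H + 40 / Real.sqrt z := by
  have hH' : (1 : ℝ) ≤ H := by exact_mod_cast hH
  have hz' : (1 : ℝ) ≤ z := by exact_mod_cast hz
  set E : ℝ := Real.exp (k / H) with hE
  have hE1 : 1 ≤ E := Real.one_le_exp (by positivity)
  have he3 : Real.exp (1 / H) ≤ 3 := by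
    have h1 : Real.exp (1 / H) ≤ Real.exp 1 := by
      apply Real.exp_le_exp.2
      rw [div_le_one (by linarith)]
      exact hH'
    have h2 := Real.exp_one_lt_d9
    linarith
  have hstep : Real.exp ((k + 1) / H) = E * Real.exp (1 / H) := by
    rw [add_div, Real.exp_add]
  have hEz : (z : ℝ) ≤ 3 * E := by
    have h1 := lt_exp_jj hH hp
    rw [hk, hstep] at h1
    have h2 : (z : ℝ) ≤ nm p := by exact_mod_cast hpz.le
    nlinarith
  set a : ℕ := ⌈E⌉₊ - 1 with ha
  have hce : 1 ≤ ⌈E⌉₊ := Nat.one_le_ceil_iff.2 (by linarith)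
  have haE : E - 1 ≤ a := by
    rw [ha, Nat.cast_sub hce]
    have := Nat.le_ceil E
    push_cast
    linarith
  have h1 : ∀ q ∈ (PO X).filter (fun q => jj H q = k), E ≤ nm q ∧ q ∈ (Di (XX H k)).filter
      (fun g => a < nm g) := by
    intro q hq
    rw [Finset.mem_filter, mem_PO] at hq
    have h2 := exp_jj_le hH hq.1.2
    rw [hq.2] at h2
    refine ⟨h2, ?_⟩
    rw [Finset.mem_filter, mem_Di]
    have h3 := nm_le_XX hH hq.1.2
    rw [hq.2] at h3
    refine ⟨h3, ?_⟩
    have h4 : ⌈E⌉₊ ≤ nm q := Nat.ceil_le.2 h2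
    omega
  have h2 : ∑ q ∈ (PO X).filter (fun q => jj H q = k), 1 / (nm q : ℝ) ≤
      (((Di (XX H k)).filter fun g => a < nm g).card : ℝ) * (1 / E) := by
    refine (Finset.sum_le_sum (g := fun _ => 1 / E) fun q hq => ?_).trans ?_
    · exact one_div_le_one_div_of_le (by linarith) (h1 q hq).1
    · rw [Finset.sum_const, nsmul_eq_mul]
      refine mul_le_mul_of_nonneg_right ?_ (by positivity)
      exact_mod_cast Finset.card_le_card fun q hq => (h1 q hq).2
  refine h2.trans ?_
  have h3 := ann a (XX H k)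
  have hXX : (XX H k : ℝ) ≤ 3 * E := by
    refine (XX_le H k).trans ?_
    rw [hstep]
    nlinarith
  have hd : ((XX H k - a : ℕ) : ℝ) ≤ E * (2 / H) + 1 := by
    rcases Nat.le_total a (XX H k) with h | h
    · rw [Nat.cast_sub h]
      have h4 := XX_le H k
      rw [hstep] at h4
      have h5 : Real.exp (1 / H) ≤ 1 + 2 / H := by
        have h6 := Real.abs_exp_sub_one_le (x := 1 / H) (by
          rw [abs_of_pos (by positivity), div_le_one (by linarith)]
          exact hH')
        rw [abs_of_pos (show (0 : ℝ) < 1 / H by positivity)] at h6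
        have h7 := (le_abs_self _).trans h6
        have h8 : 2 * (1 / (H : ℝ)) = 2 / H := by ring
        linarith
      have h6 : E * Real.exp (1 / H) ≤ E * (1 + 2 / H) := mul_le_mul_of_nonneg_left h5 (by linarith)
      linarith
    · rw [Nat.sub_eq_zero_of_le h, Nat.cast_zero]
      positivity
  have hsE : 1 ≤ Real.sqrt E := Real.one_le_sqrt.2 hE1
  have hsEE : Real.sqrt E * Real.sqrt E = E := Real.mul_self_sqrt (by linarith)
  have h4 : Real.sqrt ((XX H k - a : ℕ) : ℝ) ≤ Real.sqrt E * Real.sqrt (2 / H) + 1 := by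
    refine (Real.sqrt_le_sqrt hd).trans ?_
    refine (sqrt_add_le' (by positivity) (by norm_num)).trans ?_
    rw [Real.sqrt_one, Real.sqrt_mul (by linarith)]
  have h5 : Real.sqrt (XX H k) ≤ 2 * Real.sqrt E := by
    refine (Real.sqrt_le_sqrt (hXX.trans (by linarith : 3 * E ≤ 2 ^ 2 * E))).trans ?_
    rw [Real.sqrt_mul (by norm_num), Real.sqrt_sq (by norm_num)]
  have h6 : (((Di (XX H k)).filter fun g => a < nm g).card : ℝ) ≤
      10 * (E * Real.sqrt (2 / H)) + 20 * Real.sqrt E := by
    refine h3.trans ?_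
    calc 2 * ((Real.sqrt ((XX H k - a : ℕ) : ℝ) + 1) * (2 * Real.sqrt (XX H k) + 1)) ≤
        2 * ((Real.sqrt E * Real.sqrt (2 / H) + 1 + 1) * (2 * (2 * Real.sqrt E) + Real.sqrt E)) := by
          gcongr
      _ = 10 * ((Real.sqrt E * Real.sqrt E) * Real.sqrt (2 / H)) + 20 * Real.sqrt E := by ring
      _ = _ := by rw [hsEE]
  have h7 : (((Di (XX H k)).filter fun g => a < nm g).card : ℝ) * (1 / E) ≤
      10 * Real.sqrt (2 / H) + 20 * (1 / Real.sqrt E) := by
    rw [mul_one_div, div_le_iff₀ (by linarith)]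
    refine h6.trans (le_of_eq ?_)
    have : 20 * (1 / Real.sqrt E) * E = 20 * Real.sqrt E := by
      have hne : Real.sqrt E ≠ 0 := by linarith
      calc 20 * (1 / Real.sqrt E) * E = 20 * (1 / Real.sqrt E) * (Real.sqrt E * Real.sqrt E) := by
            rw [hsEE]
        _ = 20 * Real.sqrt E := by field_simp
    rw [add_mul, this]
    ring
  refine h7.trans (add_le_add ?_ ?_)
  · have h8 : Real.sqrt (2 / H) = Real.sqrt 2 / Real.sqrt H := Real.sqrt_div' _ (by linarith)
    have h9 : Real.sqrt 2 ≤ 3 / 2 := by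
      rw [Real.sqrt_le_left (by norm_num)]
      norm_num
    rw [h8, ← mul_div_assoc]
    apply div_le_div_of_nonneg_right _ (Real.sqrt_nonneg _)
    linarith
  · have h8 : Real.sqrt z ≤ 2 * Real.sqrt E := by
      refine (Real.sqrt_le_sqrt (hEz.trans (by linarith : 3 * E ≤ 2 ^ 2 * E))).trans ?_
      rw [Real.sqrt_mul (by norm_num), Real.sqrt_sq (by norm_num)]
    have hsz : 0 < Real.sqrt z := Real.sqrt_pos.2 (by linarith)
    rw [mul_one_div, div_le_div_iff₀ (by linarith) hsz]
    linarith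

/-- the sets with two primes in one block -/
theorem coll_count {X z H : ℕ} (hX : 1 ≤ X) (hH : 1 ≤ H) (hz : 1 ≤ z) :
    ((((SS X).filter fun S => ¬ Set.InjOn (jj H) (la z S : Set GaussianInt)).card : ℕ) : ℝ) ≤
      400 * X * (1 + Real.log X) * (15 / Real.sqrt H + 40 / Real.sqrt z) := by
  set δ : ℝ := 15 / Real.sqrt H + 40 / Real.sqrt z with hδ
  have hδ0 : 0 ≤ δ := by positivity
  have h1 : (SS X).filter (fun S => ¬ Set.InjOn (jj H) (la z S : Set GaussianInt)) ⊆
      ((PO X).filter fun p => z < nm p).biUnion fun p =>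
        (((PO X).filter fun q => jj H q = jj H p).filter fun q => q ≠ p).biUnion fun q =>
          (SS X).filter fun S => p * q ∣ ∏ l ∈ S, l := by
    intro S hS
    rw [Finset.mem_filter] at hS
    obtain ⟨hS1, hS2⟩ := hS
    have hS3 := mem_SS.1 hS1
    unfold Set.InjOn at hS2
    push Not at hS2
    obtain ⟨p, hp, q, hq, hpq, hne⟩ := hS2
    rw [Finset.mem_coe] at hp hq
    unfold la at hp hq
    rw [Finset.mem_filter, not_le] at hp hq
    have key : ∀ l ∈ S, l ∈ PO X := by
      intro l hl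
      rw [mem_PO]
      refine ⟨?_, hS3.1 l hl⟩
      have := NS_mono hS3.1 (Finset.singleton_subset_iff.2 hl)
      have e : NS {l} = nm l := by
        unfold NS
        rw [Finset.prod_singleton]
      rw [e] at this
      exact this.trans hS3.2
    rw [Finset.mem_biUnion]
    refine ⟨p, Finset.mem_filter.2 ⟨key p hp.1, hp.2⟩, ?_⟩
    rw [Finset.mem_biUnion]
    refine ⟨q, Finset.mem_filter.2 ⟨Finset.mem_filter.2 ⟨key q hq.1, hpq.symm⟩, Ne.symm hne⟩, ?_⟩
    rw [Finset.mem_filter]
    refine ⟨hS1, ?_⟩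
    rw [← Finset.mul_prod_erase S (fun l => l) hp.1]
    exact mul_dvd_mul_left p (Finset.dvd_prod_of_mem (fun l => l)
      (Finset.mem_erase.2 ⟨Ne.symm hne, hq.1⟩))
  have h2 : ((((SS X).filter fun S => ¬ Set.InjOn (jj H) (la z S : Set GaussianInt)).card : ℕ) : ℝ) ≤
      ∑ p ∈ (PO X).filter (fun p => z < nm p),
        ∑ q ∈ ((PO X).filter fun q => jj H q = jj H p).filter (fun q => q ≠ p),
          ((((SS X).filter fun S => p * q ∣ ∏ l ∈ S, l).card : ℕ) : ℝ) := by
    have h3 := (Finset.card_le_card h1).trans (Finset.card_biUnion_le.trans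
      (Finset.sum_le_sum fun p _ => Finset.card_biUnion_le))
    exact_mod_cast h3
  refine h2.trans ?_
  have h3 : ∀ p ∈ (PO X).filter (fun p => z < nm p),
      ∑ q ∈ ((PO X).filter fun q => jj H q = jj H p).filter (fun q => q ≠ p),
          ((((SS X).filter fun S => p * q ∣ ∏ l ∈ S, l).card : ℕ) : ℝ) ≤
        10 * X * δ * (1 / nm p) := by
    intro p hp
    rw [Finset.mem_filter, mem_PO] at hp
    have hp0 : (0 : ℝ) < nm p := by exact_mod_cast nm_pos hp.1.2.pr.ne_zero
    have h4 : ∀ q ∈ ((PO X).filter fun q => jj H q = jj H p).filter (fun q => q ≠ p),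
        ((((SS X).filter fun S => p * q ∣ ∏ l ∈ S, l).card : ℕ) : ℝ) ≤
        10 * X * (1 / nm p) * (1 / nm q) := by
      intro q hq
      rw [Finset.mem_filter, Finset.mem_filter, mem_PO] at hq
      have hq0 : (0 : ℝ) < nm q := by exact_mod_cast nm_pos hq.1.1.2.pr.ne_zero
      refine (card_SS_mult (mul_ne_zero hp.1.2.pr.ne_zero hq.1.1.2.pr.ne_zero) X).trans ?_
      rw [nm_mul]
      push_cast
      apply le_of_eq
      field_simp
    refine (Finset.sum_le_sum h4).trans ?_
    rw [← Finset.mul_sum]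
    have h5 : ∑ q ∈ ((PO X).filter fun q => jj H q = jj H p).filter (fun q => q ≠ p),
        1 / (nm q : ℝ) ≤ δ := by
      refine le_trans ?_ (block_sum (X := X) hH hz hp.1.2 hp.2 rfl)
      exact Finset.sum_le_sum_of_subset_of_nonneg (Finset.filter_subset _ _)
        fun _ _ _ => by positivity
    calc 10 * X * (1 / nm p) * ∑ q ∈ ((PO X).filter fun q => jj H q = jj H p).filter
          (fun q => q ≠ p), 1 / (nm q : ℝ) ≤ 10 * X * (1 / nm p) * δ := by gcongr
      _ = _ := by ring
  refine (Finset.sum_le_sum h3).trans ?_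
  rw [← Finset.mul_sum]
  have h4 : ∑ p ∈ (PO X).filter (fun p => z < nm p), 1 / (nm p : ℝ) ≤ 40 * (1 + Real.log X) := by
    refine le_trans ?_ (harm hX)
    apply Finset.sum_le_sum_of_subset_of_nonneg
    · intro p hp
      rw [Finset.mem_filter, mem_PO] at hp
      exact Finset.mem_filter.2 ⟨mem_Di.2 hp.1.1, hp.1.2.pr.ne_zero⟩
    · intro _ _ _
      positivity
  have h5 : (0 : ℝ) ≤ 10 * X * δ := by positivity
  have h6 := mul_le_mul_of_nonneg_left h4 h5
  refine h6.trans (le_of_eq ?_)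
  ring

end Pool.Agent.Helper35K9.TW.PP
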