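import Pool.Agent.Helper35K9.TW.Box
import Pool.Agent.Y697.PQ.Jt

/-! The forms of the subgraphs. -/

set_option autoImplicit false

namespace Pool.Agent.Helper35K9.TW.PQ

open Pool.Agent.Y697.PQ

open Finset Module
open Pool.Agent.Y697.PP
open Pool.Agent.Helper35K9.TW.PP
open scoped Classical

section gen
variable {α ι : Type} [Fintype α] [DecidableEq α] [Fintype ι] [DecidableEq ι] [LinearOrder ι]

/-- the function on the pairs, for a part of the small primes -/
noncomputable def AbT (A : α → α → ZMod 2) (β : ι → (α → ZMod 2) × ZMod 2) (m : α → Prop) :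
    α ⊕ ι → α ⊕ ι → ZMod 2
  | Sum.inl v, Sum.inl u => if m v ∧ m u then A v u else 0
  | Sum.inl v, Sum.inr i => if m v then (β i).1 v else 0
  | Sum.inr i, Sum.inl v => if m v then (β i).1 v else 0
  | Sum.inr _, Sum.inr _ => 0

/-- the weights -/
noncomputable def tbT (θ : α → ZMod 2) (β : ι → (α → ZMod 2) × ZMod 2) (m : α → Prop) :
    α ⊕ ι → ZMod 2
  | Sum.inl v => if m v then θ v else 1
  | Sum.inr i => (β i).2

theorem AbT_ll {A : α → α → ZMod 2} {β : ι → (α → ZMod 2) × ZMod 2} {m : α → Prop} {v u : α}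
    (h : m v) (h' : m u) : AbT A β m (Sum.inl v) (Sum.inl u) = A v u := if_pos ⟨h, h'⟩

theorem AbT_lr {A : α → α → ZMod 2} {β : ι → (α → ZMod 2) × ZMod 2} {m : α → Prop} {v : α} {i : ι}
    (h : m v) : AbT A β m (Sum.inl v) (Sum.inr i) = (β i).1 v := if_pos h

theorem AbT_rl {A : α → α → ZMod 2} {β : ι → (α → ZMod 2) × ZMod 2} {m : α → Prop} {v : α} {i : ι}
    (h : m v) : AbT A β m (Sum.inr i) (Sum.inl v) = (β i).1 v := if_pos h

theorem AbT_neg {A : α → α → ZMod 2} {β : ι → (α → ZMod 2) × ZMod 2} {m : α → Prop} {v : α}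
    (h : ¬ m v) (u : α ⊕ ι) : AbT A β m (Sum.inl v) u = 0 := by
  rcases u with u | u
  · exact if_neg (fun h' => h h'.1)
  · exact if_neg h

theorem tbT_pos {θ : α → ZMod 2} {β : ι → (α → ZMod 2) × ZMod 2} {m : α → Prop} {v : α}
    (h : m v) : tbT θ β m (Sum.inl v) = θ v := if_pos h

theorem tbT_neg {θ : α → ZMod 2} {β : ι → (α → ZMod 2) × ZMod 2} {m : α → Prop} {v : α}
    (h : ¬ m v) : tbT θ β m (Sum.inl v) = 1 := if_neg h

theorem AbT_symm {A : α → α → ZMod 2} (hA : ∀ v u, A v u = A u v)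
    (β : ι → (α → ZMod 2) × ZMod 2) (m : α → Prop) (w u : α ⊕ ι) :
    AbT A β m w u = AbT A β m u w := by
  rcases w with w | w <;> rcases u with u | u <;> simp only [AbT]
  rw [hA w u]
  exact if_congr and_comm rfl rfl

/-- the good labels -/
def LgG (β : ι → (α → ZMod 2) × ZMod 2) : Prop :=
  ∀ (c : ZMod 2) (ε : α → ZMod 2), (∀ i, c * (β i).2 + ∑ v, ε v * (β i).1 v = 0) →
    c = 0 ∧ ∀ v, ε v = 0

theorem nd_T {A : α → α → ZMod 2} (hA : ∀ v u, A v u = A u v) (θ : α → ZMod 2)
    {β : ι → (α → ZMod 2) × ZMod 2} (hβ : LgG β) (m : α → Prop) :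
    Nd (BB (tbT θ β m) (AbT A β m)) (W0 α ι) := by
  intro x hx hx0
  have hne : Nonempty ι := by
    by_contra h
    rw [not_nonempty_iff] at h
    exact absurd (hβ 1 0 fun i => (h.false i).elim).1 (by decide)
  obtain ⟨i₀⟩ := hne
  set c := x (Sum.inr i₀) with hc
  have hxc : ∀ i, x (Sum.inr i) = c := fun i => hx i i₀
  have hrow : ∀ w, BB (tbT θ β m) (AbT A β m) (Pi.single w 1) x = 0 := by
    intro w
    rw [BB_symm _ (AbT_symm hA β m), hx0, LinearMap.zero_apply]
  have h1 : ∀ i, c * (β i).2 +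
      ∑ v : α, (if m v then c + x (Sum.inl v) else 0) * (β i).1 v = 0 := by
    intro i
    have h2 := hrow (Sum.inr i)
    rw [BB_single, Fintype.sum_sum_type] at h2
    have h3 : ∑ l : ι, AbT A β m (Sum.inr i) (Sum.inr l) *
        (x (Sum.inr i) + x (Sum.inr l)) = 0 :=
      Finset.sum_eq_zero fun l _ => by
        show 0 * _ = _
        rw [zero_mul]
    rw [h3, add_zero, hxc] at h2
    have h4 : ∑ v : α, AbT A β m (Sum.inr i) (Sum.inl v) * (c + x (Sum.inl v)) =
        ∑ v : α, (if m v then c + x (Sum.inl v) else 0) * (β i).1 v :=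
      Finset.sum_congr rfl fun v _ => by
        show (if m v then (β i).1 v else 0) * _ = _
        split_ifs <;> ring
    rw [h4] at h2
    have h5 : tbT θ β m (Sum.inr i) = (β i).2 := rfl
    rw [h5] at h2
    linear_combination h2
  obtain ⟨h2, h3⟩ := hβ c (fun v => if m v then c + x (Sum.inl v) else 0) h1
  funext w
  rcases w with v | i
  · by_cases hv : m v
    · have := h3 v
      rw [if_pos hv, h2, zero_add] at this
      exact this
    · have h4 := hrow (Sum.inl v)
      rw [BB_single, Fintype.sum_sum_type] at h4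
      have h5 : ∀ u : α ⊕ ι, AbT A β m (Sum.inl v) u = 0 := by
        rintro (u | u)
        · show (if m v ∧ m u then A v u else 0) = 0
          rw [if_neg (fun h => hv h.1)]
        · show (if m v then (β u).1 v else 0) = 0
          rw [if_neg hv]
      simp only [h5, zero_mul, Finset.sum_const_zero, add_zero] at h4
      have h6 : tbT θ β m (Sum.inl v) = 1 := by
        show (if m v then θ v else 1) = 1
        rw [if_neg hv]
      rw [h6, one_mul] at h4
      exact h4
  · rw [hxc i, h2]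
    rfl

theorem row_inr {A : α → α → ZMod 2} (hA : ∀ v u, A v u = A u v) (θ : α → ZMod 2)
    (β : ι → (α → ZMod 2) × ZMod 2) (m : α → Prop) {x : α ⊕ ι → ZMod 2}
    (hx : ∀ v, x (Sum.inl v) = 0) (i : ι) :
    BB (tbT θ β m) (AbT A β m) x (Pi.single (Sum.inr i) 1) =
      x (Sum.inr i) * ((β i).2 + ∑ v, if m v then (β i).1 v else 0) := by
  rw [BB_symm _ (AbT_symm hA β m), BB_single, Fintype.sum_sum_type]
  have h3 : ∑ l : ι, AbT A β m (Sum.inr i) (Sum.inr l) *
      (x (Sum.inr i) + x (Sum.inr l)) = 0 :=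
    Finset.sum_eq_zero fun l _ => by
      show 0 * _ = _
      rw [zero_mul]
  have h4 : ∑ v : α, AbT A β m (Sum.inr i) (Sum.inl v) * (x (Sum.inr i) + x (Sum.inl v)) =
      x (Sum.inr i) * ∑ v, if m v then (β i).1 v else 0 := by
    rw [Finset.mul_sum]
    refine Finset.sum_congr rfl fun v _ => ?_
    rw [hx v, add_zero]
    show (if m v then (β i).1 v else 0) * _ = _
    ring
  rw [h3, h4, add_zero]
  show (β i).2 * _ + _ = _
  ring

/-- the difference of the labels -/
noncomputable def dl (β : ι → (α → ZMod 2) × ZMod 2) (m m' : α → Prop)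
    (i : ι) : ZMod 2 :=
  (∑ v, if m v then (β i).1 v else 0) + ∑ v, if m' v then (β i).1 v else 0

theorem finrank_JJ_le {A : α → α → ZMod 2} (hA : ∀ v u, A v u = A u v) (θ : α → ZMod 2)
    (β : ι → (α → ZMod 2) × ZMod 2) (m m' : α → Prop)
    (i₀ : ι) :
    finrank (ZMod 2) (JJ (BB (tbT θ β m) (AbT A β m)) (BB (tbT θ β m') (AbT A β m'))
      (W0 α ι)) ≤ 1 + 2 * Fintype.card α + Fintype.card {i // dl β m m' i = 0} := by
  set J := JJ (BB (tbT θ β m) (AbT A β m)) (BB (tbT θ β m') (AbT A β m')) (W0 α ι) with hJ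
  let f : J →ₗ[ZMod 2] ((α → ZMod 2) × (α → ZMod 2)) ×
      (ZMod 2 × ({i // dl β m m' i = 0} → ZMod 2)) :=
    { toFun := fun p => ((fun v => (p : (α ⊕ ι → ZMod 2) × (α ⊕ ι → ZMod 2)).1 (Sum.inl v),
        fun v => (p : (α ⊕ ι → ZMod 2) × (α ⊕ ι → ZMod 2)).2 (Sum.inl v)),
        ((p : (α ⊕ ι → ZMod 2) × (α ⊕ ι → ZMod 2)).1 (Sum.inr i₀) +
          (p : (α ⊕ ι → ZMod 2) × (α ⊕ ι → ZMod 2)).2 (Sum.inr i₀),
          fun i => (p : (α ⊕ ι → ZMod 2) × (α ⊕ ι → ZMod 2)).1 (Sum.inr i.1)))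
      map_add' := by
        rintro ⟨p, hp⟩ ⟨q, hq⟩
        refine Prod.ext (Prod.ext rfl rfl) (Prod.ext ?_ rfl)
        show (p.1 + q.1) (Sum.inr i₀) + (p.2 + q.2) (Sum.inr i₀) =
          p.1 (Sum.inr i₀) + p.2 (Sum.inr i₀) + (q.1 (Sum.inr i₀) + q.2 (Sum.inr i₀))
        rw [Pi.add_apply, Pi.add_apply]
        ring
      map_smul' := by
        rintro c ⟨p, hp⟩
        refine Prod.ext (Prod.ext rfl rfl) (Prod.ext ?_ rfl)
        show (c • p.1) (Sum.inr i₀) + (c • p.2) (Sum.inr i₀) =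
          c • (p.1 (Sum.inr i₀) + p.2 (Sum.inr i₀))
        rw [Pi.smul_apply, Pi.smul_apply, smul_add] }
  have hinj : Function.Injective f := by
    rw [← LinearMap.ker_eq_bot, LinearMap.ker_eq_bot']
    rintro ⟨⟨a, b⟩, hp⟩ h0
    have hp' := mem_JJ.1 hp
    have e1 : ∀ v, a (Sum.inl v) = 0 := fun v => congrFun (congrArg (fun z => z.1.1) h0) v
    have e2 : ∀ v, b (Sum.inl v) = 0 := fun v => congrFun (congrArg (fun z => z.1.2) h0) v
    have e3 : a (Sum.inr i₀) + b (Sum.inr i₀) = 0 := congrArg (fun z => z.2.1) h0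
    have e4 : ∀ i, dl β m m' i = 0 → a (Sum.inr i) = 0 := fun i hi =>
      congrFun (congrArg (fun z => z.2.2) h0) ⟨i, hi⟩
    have e5 : ∀ i, b (Sum.inr i) = a (Sum.inr i) := by
      intro i
      have h1 : (a + b) (Sum.inr i) = (a + b) (Sum.inr i₀) := hp'.1 i i₀
      rw [Pi.add_apply, Pi.add_apply, e3] at h1
      linear_combination h1 - (a (Sum.inr i)) * two0
    have e6 : ∀ i, a (Sum.inr i) = 0 := by
      intro i
      by_cases hi : dl β m m' i = 0
      · exact e4 i hi
      · have h1 := congrArg (fun z => z (Pi.single (Sum.inr i) 1)) hp'.2.1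
        simp only at h1
        rw [row_inr hA θ β m e1, row_inr hA θ β m' e2, e5] at h1
        have h2 : dl β m m' i = 1 := (z2 _).resolve_left hi
        have h3 : a (Sum.inr i) * dl β m m' i = 0 := by
          unfold dl
          linear_combination h1 + (a (Sum.inr i) *
            ∑ v, if m' v then (β i).1 v else 0) * two0
        rw [h2, mul_one] at h3
        exact h3
    apply Subtype.ext
    refine Prod.ext ?_ ?_
    · funext w
      rcases w with v | i
      · exact e1 v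
      · exact e6 i
    · funext w
      rcases w with v | i
      · exact e2 v
      · exact (e5 i).trans (e6 i)
  have h1 := LinearMap.finrank_le_finrank_of_injective hinj
  refine h1.trans (le_of_eq ?_)
  rw [Module.finrank_prod, Module.finrank_prod, Module.finrank_prod, Module.finrank_self,
    Module.finrank_fintype_fun_eq_card, Module.finrank_fintype_fun_eq_card]
  ring

theorem finrank_W0 (i₀ : ι) : finrank (ZMod 2) (W0 α ι) ≤ Fintype.card α + 1 := by
  let f : W0 α ι →ₗ[ZMod 2] (α → ZMod 2) × ZMod 2 :=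
    { toFun := fun x => (fun v => (x : α ⊕ ι → ZMod 2) (Sum.inl v),
        (x : α ⊕ ι → ZMod 2) (Sum.inr i₀))
      map_add' := fun _ _ => rfl
      map_smul' := fun _ _ => rfl }
  have hinj : Function.Injective f := by
    rw [← LinearMap.ker_eq_bot, LinearMap.ker_eq_bot']
    rintro ⟨a, ha⟩ h0
    apply Subtype.ext
    funext w
    rcases w with v | i
    · exact congrFun (congrArg (fun z => z.1) h0) v
    · exact (ha i i₀).trans (congrArg (fun z => z.2) h0)
  refine (LinearMap.finrank_le_finrank_of_injective hinj).trans (le_of_eq ?_)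
  rw [Module.finrank_prod, Module.finrank_self, Module.finrank_fintype_fun_eq_card]

/-- **The count of the completions.** -/
theorem count_J {M R : ℕ} {ε : ℝ} (hR : ∀ (V : Type) [AddCommGroup V]
    [Module (ZMod 2) V] [Fintype V] (W : Submodule (ZMod 2) V)
    (B : Fin M → LinearMap.BilinForm (ZMod 2) V) (d t : ℕ),
    (∀ k, Sy (B k)) → (∀ k, Nd (B k) W) →
    (∀ k l, k ≠ l → finrank (ZMod 2) (JJ (B k) (B l) W) ≤ d) → finrank (ZMod 2) W ≤ d →
    finrank (ZMod 2) W + t = finrank (ZMod 2) V → d + R ≤ t →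
    |(((YY W).filter fun Y => ∀ k, Nd (B k + Y) ⊤).card : ℝ) - gi ^ M * (YY W).card| ≤
      ε * (YY W).card)
    {A : α → α → ZMod 2} (hA : ∀ v u, A v u = A u v) (θ : α → ZMod 2)
    {β : ι → (α → ZMod 2) × ZMod 2} (hβ : LgG β) (m : Fin M → α → Prop) {A₀ : ℕ}
    (hA₀ : R + 2 + 2 * Fintype.card α ≤ A₀) (hι : A₀ ≤ Fintype.card ι)
    (hm : ∀ k l, k ≠ l → A₀ ≤ Fintype.card {i // dl β (m k) (m l) i ≠ 0}) :
    (gi ^ M - ε) * 2 ^ (EE ι).card ≤ ((univ.filter fun a : EE ι → ZMod 2 =>
      ∀ k, Nd (BB (tbT θ β (m k)) (AbT A β (m k)) + BB 0 (At α a)) ⊤).card : ℝ) := by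
  have hfin : Module.Finite (ZMod 2) (α ⊕ ι → ZMod 2) := inferInstance
  have hne : Nonempty ι := by
    rw [← Fintype.card_pos_iff]
    omega
  obtain ⟨i₀⟩ := hne
  have h1 : (YY (W0 α ι)).card = 2 ^ (EE ι).card := by
    have h2 : (univ : Finset (EE ι → ZMod 2)).card = (YY (W0 α ι)).card := by
      refine Finset.card_bij (fun a _ => BB 0 (At α a)) (fun a _ => YA_mem a)
        (fun a _ b _ h => YA_inj h) (fun Y hY => ?_)
      obtain ⟨a, ha⟩ := YA_surj hY
      exact ⟨a, Finset.mem_univ a, ha⟩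
    rw [← h2, Finset.card_univ, Fintype.card_fun, ZMod.card, Fintype.card_coe]
  have h2 : (univ.filter fun a : EE ι → ZMod 2 =>
      ∀ k, Nd (BB (tbT θ β (m k)) (AbT A β (m k)) + BB 0 (At α a)) ⊤).card =
      ((YY (W0 α ι)).filter fun Y => ∀ k, Nd (BB (tbT θ β (m k)) (AbT A β (m k)) + Y) ⊤).card := by
    refine Finset.card_bij (fun a _ => BB 0 (At α a)) (fun a ha => ?_)
      (fun a _ b _ h => YA_inj h) (fun Y hY => ?_)
    · rw [Finset.mem_filter] at ha ⊢
      exact ⟨YA_mem a, ha.2⟩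
    · rw [Finset.mem_filter] at hY
      obtain ⟨a, ha⟩ := YA_surj hY.1
      refine ⟨a, Finset.mem_filter.2 ⟨Finset.mem_univ a, ?_⟩, ha⟩
      rw [ha]
      exact hY.2
  have h3 : finrank (ZMod 2) (W0 α ι) ≤ Fintype.card α + 1 := finrank_W0 i₀
  have h4 : finrank (ZMod 2) (α ⊕ ι → ZMod 2) = Fintype.card α + Fintype.card ι := by
    rw [Module.finrank_fintype_fun_eq_card, Fintype.card_sum]
  have h5 := hR (α ⊕ ι → ZMod 2) (W0 α ι) (fun k => BB (tbT θ β (m k)) (AbT A β (m k)))
    (1 + 2 * Fintype.card α + (Fintype.card ι - A₀))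
    (finrank (ZMod 2) (α ⊕ ι → ZMod 2) - finrank (ZMod 2) (W0 α ι))
    (fun k => BB_symm _ (AbT_symm hA β (m k))) (fun k => nd_T hA θ hβ (m k))
    (fun k l hkl => ?_) (by omega) (by omega) (by omega)
  · rw [h2]
    have h6 := (abs_le.1 h5).1
    rw [h1] at h6 
    push_cast at h6
    linarith
  · refine (finrank_JJ_le hA θ β (m k) (m l) i₀).trans ?_
    have h6 := hm k l hkl
    have h7 := Fintype.card_subtype_compl (fun i : ι => dl β (m k) (m l) i = 0)
    have h8 : Fintype.card {i : ι // dl β (m k) (m l) i = 0} ≤ Fintype.card ι :=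
      Fintype.card_subtype_le _
    have h9 : Fintype.card {i // dl β (m k) (m l) i ≠ 0} =
        Fintype.card ι - Fintype.card {i : ι // dl β (m k) (m l) i = 0} := by
      convert h7
    omega

end gen

/-- restriction to a part -/
theorem nd_ext {W W' : Type} [Fintype W] [DecidableEq W] [Fintype W'] [DecidableEq W']
    (g : W → W') (hg : Function.Injective g) {A : W → W → ZMod 2} {θ : W → ZMod 2}
    {A' : W' → W' → ZMod 2} {θ' : W' → ZMod 2} (hA : ∀ x y, A x y = A y x)
    (hA' : ∀ x y, A' x y = A' y x)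
    (h1 : ∀ x y, x ≠ y → A x y = A' (g x) (g y)) (h2 : ∀ x, θ x = θ' (g x))
    (h3 : ∀ w, w ∉ Set.range g → θ' w = 1 ∧ ∀ u, A' w u = 0) (h : Nd (BB θ' A') ⊤) :
    Nd (BB θ A) ⊤ := by
  intro x _ hx0
  set x' : W' → ZMod 2 := Function.extend g x 0 with hx'
  have e1 : ∀ y, x' (g y) = x y := fun y => hg.extend_apply x 0 y
  have e2 : ∀ w, w ∉ Set.range g → x' w = 0 := fun w hw =>
    Function.extend_apply' _ _ _ (fun ⟨y, hy⟩ => hw ⟨y, hy⟩)
  have e3 : x' = 0 := by
    apply h x' trivial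
    refine (Pi.basisFun (ZMod 2) W').ext fun w => ?_
    rw [Pi.basisFun_apply, BB_symm θ' hA', BB_single, LinearMap.zero_apply]
    by_cases hw : w ∈ Set.range g
    · obtain ⟨y, rfl⟩ := hw
      have h4 : BB θ A (Pi.single y 1) x = 0 := by
        rw [BB_symm θ hA, hx0, LinearMap.zero_apply]
      rw [BB_single] at h4
      rw [e1, ← h2]
      have h5 : ∑ u, A y u * (x y + x u) = ∑ u, A' (g y) u * (x y + x' u) := by
        apply Fintype.sum_of_injective g hg
        · intro u hu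
          rw [hA', (h3 u hu).2 (g y), zero_mul]
        · intro u
          rw [e1]
          by_cases hyu : y = u
          · rw [hyu]
            have : x u + x u = 0 := by linear_combination (x u) * two0
            rw [this, mul_zero, mul_zero]
          · rw [h1 y u hyu]
      rw [← h5]
      exact h4
    · rw [e2 w hw, mul_zero, zero_add]
      refine Finset.sum_eq_zero fun u _ => ?_
      rw [(h3 w hw).2 u, zero_mul]
  funext y
  rw [← e1 y, e3]
  rfl

end Pool.Agent.Helper35K9.TW.PQ
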