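import Pool.Agent.Helper35K9.TW.Bxa

/-! The count of the good tuples in a box, with all the subsets of a given set of primes. -/

set_option autoImplicit false

namespace Pool.Agent.Helper35K9.TW.PQ

open Pool.Agent.Y697.PQ

open Finset Module
open Pool.Agent.Y697.MQ (leg leg_mul leg_congr leg_eq_zero OP recip leg_cases leg_ne gA gA_eq)
open Pool.Agent.Helper35K9.TW
open Pool.Agent.Y697.PP
open Pool.Agent.Helper35K9.TW.PP

variable {ι : Type} [Fintype ι] [DecidableEq ι] [LinearOrder ι]

open Classical in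
/-- the masked sum -/
theorem sum_mask {S₁ e : Finset GaussianInt} (he : e ⊆ S₁) (f : GaussianInt → ZMod 2) :
    ∑ v : S₁, (if (v : GaussianInt) ∈ e then f v else 0) = ∑ v ∈ e, f v := by
  rw [Finset.sum_coe_sort S₁ (fun v => if v ∈ e then f v else 0), Finset.sum_ite_mem,
    Finset.inter_eq_right.2 he]

open Classical in
theorem dl_mask {S₀ P : Finset GaussianInt} (hSP : Disjoint S₀ P) {U U' : Finset GaussianInt}
    (hU : U ⊆ P) (hU' : U' ⊆ P)
    (β : ι → ((S₀ ∪ P : Finset GaussianInt) → ZMod 2) × ZMod 2) (i : ι)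
    (m m' : (S₀ ∪ P : Finset GaussianInt) → Prop)
    (hm : ∀ v, m v ↔ (v : GaussianInt) ∈ S₀ ∪ U) (hm' : ∀ v, m' v ↔ (v : GaussianInt) ∈ S₀ ∪ U') :
    dl β m m' i =
      ∑ v : (S₀ ∪ P : Finset GaussianInt),
        (if (v : GaussianInt) ∈ symmDiff U U' then (β i).1 v else 0) := by
  unfold dl
  rw [← Finset.sum_add_distrib]
  refine Finset.sum_congr rfl fun v _ => ?_
  by_cases h₀ : (v : GaussianInt) ∈ S₀
  · have h1 : (v : GaussianInt) ∉ P := Finset.disjoint_left.1 hSP h₀
    have h2 : (v : GaussianInt) ∉ symmDiff U U' := by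
      rw [Finset.mem_symmDiff]
      rintro (h | h)
      · exact h1 (hU h.1)
      · exact h1 (hU' h.1)
    rw [if_pos ((hm v).2 (Finset.mem_union_left _ h₀)),
      if_pos ((hm' v).2 (Finset.mem_union_left _ h₀)), if_neg h2]
    linear_combination ((β i).1 v) * two0
  · have h1 : m v ↔ (v : GaussianInt) ∈ U := by
      rw [hm, Finset.mem_union]
      exact ⟨fun h => h.resolve_left h₀, Or.inr⟩
    have h1' : m' v ↔ (v : GaussianInt) ∈ U' := by
      rw [hm', Finset.mem_union]
      exact ⟨fun h => h.resolve_left h₀, Or.inr⟩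
    by_cases h2 : (v : GaussianInt) ∈ U <;> by_cases h3 : (v : GaussianInt) ∈ U'
    · rw [if_pos (h1.2 h2), if_pos (h1'.2 h3), if_neg (by rw [Finset.mem_symmDiff]; tauto)]
      linear_combination ((β i).1 v) * two0
    · rw [if_pos (h1.2 h2), if_neg (fun h => h3 (h1'.1 h)),
        if_pos (by rw [Finset.mem_symmDiff]; tauto), add_zero]
    · rw [if_neg (fun h => h2 (h1.1 h)), if_pos (h1'.2 h3),
        if_pos (by rw [Finset.mem_symmDiff]; tauto), zero_add]
    · rw [if_neg (fun h => h2 (h1.1 h)), if_neg (fun h => h3 (h1'.1 h)),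
        if_neg (by rw [Finset.mem_symmDiff]; tauto), zero_add]

open Classical in
/-- **The count in a box.** -/
theorem boxP {P : Finset GaussianInt} {R : ℕ} {ε : ℝ} (hR : ∀ (V : Type) [AddCommGroup V]
    [Module (ZMod 2) V] [Fintype V] (W : Submodule (ZMod 2) V)
    (B : Fin (2 ^ P.card) → LinearMap.BilinForm (ZMod 2) V) (d t : ℕ),
    (∀ k, Sy (B k)) → (∀ k, Nd (B k) W) →
    (∀ k l, k ≠ l → finrank (ZMod 2) (JJ (B k) (B l) W) ≤ d) → finrank (ZMod 2) W ≤ d →
    finrank (ZMod 2) W + t = finrank (ZMod 2) V → d + R ≤ t →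
    |(((YY W).filter fun Y => ∀ k, Nd (B k + Y) ⊤).card : ℝ) - gi ^ (2 ^ P.card) * (YY W).card| ≤
      ε * (YY W).card)
    {K : ℝ} (hK : 1 ≤ K) (hbil : ∀ (S T : Finset GaussianInt) (A B z : ℕ)
      (c d : GaussianInt → ℝ), (∀ p ∈ S, OP p) → (∀ p ∈ T, OP p) → 1 ≤ z → z ≤ A → z ≤ B →
      (∀ p ∈ S, nm p ≤ A) → (∀ p ∈ T, nm p ≤ B) → (∀ p, |c p| ≤ 1) → (∀ p, |d p| ≤ 1) →
      (TT S T c d) ^ 32 * z ≤ K * ((A : ℝ) * B) ^ 32)
    {S₀ : Finset GaussianInt} (hS : ∀ p ∈ S₀ ∪ P, OP p) (hSP : Disjoint S₀ P)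
    {C : ι → Finset GaussianInt} (hC : ∀ i, ∀ p ∈ C i, OP p)
    (hdis : ∀ i j, i ≠ j → Disjoint (C i) (C j)) (hdis₀ : ∀ i, ∀ p ∈ C i, p ∉ S₀ ∪ P)
    {X : ι → ℕ} {z : ℕ} (hz : 1 ≤ z)
    (hzX : ∀ i, z ≤ X i) (hX : ∀ i, ∀ p ∈ C i, nm p ≤ X i) {κ : ℝ} (hκ : 0 ≤ κ)
    (hκz : K ≤ κ ^ 32 * z) {A₀ : ℕ} (hA₀ : R + 2 + 2 * (S₀ ∪ P).card ≤ A₀)
    (hι : A₀ ≤ Fintype.card ι) :
    (gi ^ (2 ^ P.card) - ε) * (((Fintype.piFinset C).filter fun p =>
      Lg (S₀ ∪ P) (fun i => lab (S₀ ∪ P) (p i)) ∧ ∀ e ⊆ P, e.Nonempty →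
        A₀ ≤ (univ.filter fun i => ∑ v ∈ e, gA v (p i) = 1).card).card : ℝ) -
      (2 ^ ((S₀ ∪ P).card + 1)) ^ (Fintype.card ι) *
        (2 ^ (EE ι).card * (κ * ∏ j, (10 * (X j : ℝ)))) ≤
      (((Fintype.piFinset C).filter fun p =>
        ∀ U ⊆ P, (Mt gA gL ((S₀ ∪ U) ∪ univ.image p)).det ≠ 0).card : ℝ) := by
  set S₁ : Finset GaussianInt := S₀ ∪ P with hS₁
  set Er : ℝ := 2 ^ (EE ι).card * (κ * ∏ j, (10 * (X j : ℝ))) with hEr
  have hEr0 : 0 ≤ Er := mul_nonneg (by positivity)
    (mul_nonneg hκ (Finset.prod_nonneg fun j _ => by positivity))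
  set c₁ : ℝ := gi ^ (2 ^ P.card) - ε with hc₁
  obtain ⟨Q, hQ⟩ : ∃ Q : (ι → (S₁ → ZMod 2) × ZMod 2) → Prop, ∀ β, Q β ↔
      (Lg S₁ β ∧ ∀ e ⊆ P, e.Nonempty → A₀ ≤ (univ.filter fun i =>
        ∑ v : S₁, (if (v : GaussianInt) ∈ e then (β i).1 v else 0) = 1).card) :=
    ⟨_, fun _ => Iff.rfl⟩
  obtain ⟨D, hD⟩ : ∃ D : (ι → GaussianInt) → Prop, ∀ p, D p ↔
      ∀ U ⊆ P, (Mt gA gL ((S₀ ∪ U) ∪ univ.image p)).det ≠ 0 := ⟨_, fun _ => Iff.rfl⟩
  have hsA : ∀ v u : S₁, gA v u = gA u v := fun v u => gA_symm (hS v v.2) (hS u u.2)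
  have hPS : P ⊆ S₁ := Finset.subset_union_right
  -- the part with given labels
  have h1 : ∀ β : ι → (S₁ → ZMod 2) × ZMod 2, Q β →
      c₁ * (((Fintype.piFinset C).filter fun p => (fun i => lab S₁ (p i)) = β).card : ℝ) - Er ≤
      (((Fintype.piFinset C).filter fun p => (fun i => lab S₁ (p i)) = β ∧ D p).card : ℝ) := by
    intro β hβ
    rw [hQ] at hβ
    set C' : ι → Finset GaussianInt := fun i => (C i).filter fun q => lab S₁ q = β i with hC'
    have hpi : (Fintype.piFinset C).filter (fun p => (fun i => lab S₁ (p i)) = β) =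
        Fintype.piFinset C' := by
      ext p
      simp only [Finset.mem_filter, Fintype.mem_piFinset, hC']
      constructor
      · rintro ⟨h2, h3⟩ i
        exact ⟨h2 i, congrFun h3 i⟩
      · intro h2
        exact ⟨fun i => (h2 i).1, funext fun i => (h2 i).2⟩
    set en : P.powerset ≃ Fin (2 ^ P.card) :=
      Finset.equivFinOfCardEq (Finset.card_powerset P) with hen
    set m : Fin (2 ^ P.card) → S₁ → Prop := fun k v => (v : GaussianInt) ∈ S₀ ∪ (en.symm k).1
      with hm
    have h2 := count_J (α := S₁) (ι := ι) hR (A := fun v u => gA v u) hsA (fun v => gL v)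
      (β := β) hβ.1 m (A₀ := A₀) (by rw [Fintype.card_coe]; exact hA₀) hι (by
        intro k l hkl
        have hU := Finset.mem_powerset.1 (en.symm k).2
        have hU' := Finset.mem_powerset.1 (en.symm l).2
        have hne : (en.symm k).1 ≠ (en.symm l).1 := fun h => hkl (en.symm.injective (Subtype.ext h))
        have h3 := hβ.2 (symmDiff (en.symm k).1 (en.symm l).1)
          (by
            intro x hx
            rw [Finset.mem_symmDiff] at hx
            rcases hx with hx | hx
            · exact hU hx.1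
            · exact hU' hx.1)
          (by
            rw [Finset.nonempty_iff_ne_empty]
            intro h
            exact hne (symmDiff_eq_bot.1 h))
        refine h3.trans (le_of_eq ?_)
        rw [← Fintype.card_coe]
        refine Fintype.card_congr (Equiv.subtypeEquivRight fun i => ?_)
        rw [Finset.mem_filter, dl_mask hSP hU hU' β i (m k) (m l) (fun _ => Iff.rfl)
          (fun _ => Iff.rfl)]
        constructor
        · rintro ⟨-, h⟩
          rw [h]
          decide
        · intro h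
          exact ⟨Finset.mem_univ _, (z2 _).resolve_left h⟩)
    obtain ⟨G, hG⟩ : ∃ G : (EE ι → ZMod 2) → Prop, ∀ a, G a ↔
        ∀ k, Nd (BB (tbT (fun v : S₁ => gL v) β (m k))
          (AbT (fun v u : S₁ => gA v u) β (m k)) + BB 0 (At S₁ a)) ⊤ := ⟨_, fun _ => Iff.rfl⟩
    have h2' : c₁ * 2 ^ (EE ι).card ≤ ((univ.filter G).card : ℝ) := by
      refine h2.trans (le_of_eq ?_)
      congr 2
      ext a
      simp only [Finset.mem_filter, hG]
    clear h2
    have h3 := count_set hK hbil (C := C') (fun i p hp => hC i p (Finset.mem_filter.1 hp).1)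
      (fun i j hij => (hdis i j hij).mono (Finset.filter_subset _ _) (Finset.filter_subset _ _))
      hz hzX (fun i p hp => hX i p (Finset.mem_filter.1 hp).1) hκ hκz G h2'
    rw [hpi, Fintype.card_piFinset]
    push_cast
    refine h3.trans ?_
    have h4 : ((Fintype.piFinset C').filter fun p =>
        G fun e : EE ι => gr (p e.1.1) (p e.1.2)) ⊆
        ((Fintype.piFinset C).filter fun p => (fun i => lab S₁ (p i)) = β ∧ D p) := by
      intro p hp
      rw [Finset.mem_filter, Fintype.mem_piFinset, hG] at hp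
      obtain ⟨hp1, hp2⟩ := hp
      have hpC : ∀ i, p i ∈ C i := fun i => (Finset.mem_filter.1 (hp1 i)).1
      have hpl : ∀ i, lab S₁ (p i) = β i := fun i => (Finset.mem_filter.1 (hp1 i)).2
      have hpinj : Function.Injective p := by
        intro i j hij
        by_contra hne
        have := Finset.disjoint_left.1 (hdis i j hne) (hpC i)
        rw [hij] at this
        exact this (hpC j)
      rw [Finset.mem_filter, Fintype.mem_piFinset]
      refine ⟨hpC, funext hpl, ?_⟩
      rw [hD]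
      intro U hU
      have hkm : ∀ v, m (en ⟨U, Finset.mem_powerset.2 hU⟩) v ↔ (v : GaussianInt) ∈ S₀ ∪ U := by
        intro v
        rw [hm]
        simp only [Equiv.symm_apply_apply]
      have hp3 := hp2 (en ⟨U, Finset.mem_powerset.2 hU⟩)
      rw [BB_add] at hp3
      set T : Finset GaussianInt := S₀ ∪ U with hT
      have hTS : ∀ v ∈ T, v ∈ S₁ := fun v hv => by
        rw [hT, Finset.mem_union] at hv
        rcases hv with h | h
        · exact Finset.mem_union_left _ h
        · exact Finset.mem_union_right _ (hU h)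
      set f : T ⊕ ι → GaussianInt := Sum.elim Subtype.val p with hf
      have hfinj : Function.Injective f := by
        rintro (v | i) (u | j) h
        · exact congrArg Sum.inl (Subtype.ext h)
        · exfalso
          have h' : (v : GaussianInt) = p j := h
          exact hdis₀ j _ (hpC j) (h' ▸ hTS v v.2)
        · exfalso
          have h' : p i = (u : GaussianInt) := h
          exact hdis₀ i _ (hpC i) (h' ▸ hTS u u.2)
        · exact congrArg Sum.inr (hpinj h)
      have hfim : univ.image f = T ∪ univ.image p := by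
        ext x
        simp only [Finset.mem_image, Finset.mem_univ, true_and, Finset.mem_union]
        constructor
        · rintro ⟨v | i, rfl⟩
          · exact Or.inl v.2
          · exact Or.inr ⟨i, rfl⟩
        · rintro (h | ⟨i, rfl⟩)
          · exact ⟨Sum.inl ⟨x, h⟩, rfl⟩
          · exact ⟨Sum.inr i, rfl⟩
      rw [det_Mt gA gL _ f hfinj hfim]
      apply det_ne
      have hfO : ∀ x, OP (f x) := by
        rintro (v | i)
        · exact hS _ (hTS v v.2)
        · exact hC i _ (hpC i)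
      refine nd_ext (Sum.map (fun v : T => (⟨v, hTS v v.2⟩ : S₁)) id) ?_
        (A' := fun w u => AbT (fun v u : S₁ => gA v u) β (m (en ⟨U, Finset.mem_powerset.2 hU⟩)) w u +
          At S₁ (fun e : EE ι => gr (p e.1.1) (p e.1.2)) w u)
        (θ' := tbT (fun v : S₁ => gL v) β (m (en ⟨U, Finset.mem_powerset.2 hU⟩)))
        (fun x y => gA_symm (hfO x) (hfO y)) (fun x y => ?_) ?_ ?_ ?_ hp3
      · rintro (v | i) (u | j) h
        · have h' := Sum.inl_injective h
          exact congrArg Sum.inl (Subtype.ext (congrArg (fun z : S₁ => (z : GaussianInt)) h'))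
        · exact absurd h (by simp)
        · exact absurd h (by simp)
        · exact congrArg Sum.inr (Sum.inr_injective h)
      · show _ + _ = _ + _
        rw [AbT_symm hsA, At_symm]
      · rintro (v | i) (u | j) hne
        · show gA v u = AbT _ β (m _) (Sum.inl ⟨v, hTS v v.2⟩) (Sum.inl ⟨u, hTS u u.2⟩) + 0
          rw [AbT_ll ((hkm _).2 v.2) ((hkm _).2 u.2), add_zero]
        · show gA v (p j) = AbT _ β (m _) (Sum.inl ⟨v, hTS v v.2⟩) (Sum.inr j) + 0
          rw [AbT_lr ((hkm _).2 v.2), add_zero, ← hpl j]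
          rfl
        · show gA (p i) u = AbT _ β (m _) (Sum.inr i) (Sum.inl ⟨u, hTS u u.2⟩) + 0
          rw [AbT_rl ((hkm _).2 u.2), add_zero, ← hpl i,
            gA_symm (hC i _ (hpC i)) (hS u (hTS u u.2))]
          rfl
        · show gA (p i) (p j) = 0 + ex (fun e : EE ι => gr (p e.1.1) (p e.1.2)) i j
          rw [zero_add]
          have hij : i ≠ j := fun h => hne (congrArg Sum.inr h)
          have hpij : p i ≠ p j := fun h => hij (hpinj h)
          unfold ex
          rcases lt_or_gt_of_ne hij with h7 | h7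
          · rw [dif_pos (mem_EE.2 h7)]
            exact gA_eq (hC i _ (hpC i)) (hC j _ (hpC j)) hpij
          · rw [dif_neg (fun h8 => absurd (mem_EE.1 h8) (not_lt.2 h7.le)),
              dif_pos (mem_EE.2 h7)]
            rfl
      · rintro (v | i)
        · show gL v = tbT _ β (m _) (Sum.inl ⟨v, hTS v v.2⟩)
          rw [tbT_pos ((hkm _).2 v.2)]
        · show gL (p i) = (β i).2
          rw [← hpl i]
          rfl
      · rintro (v | i) hw
        · have hv : (v : GaussianInt) ∉ T := fun h => hw ⟨Sum.inl ⟨v, h⟩, rfl⟩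
          have hv' : ¬ m (en ⟨U, Finset.mem_powerset.2 hU⟩) v := fun h => hv ((hkm _).1 h)
          refine ⟨tbT_neg hv', ?_⟩
          intro u
          have h8 : At S₁ (fun e : EE ι => gr (p e.1.1) (p e.1.2)) (Sum.inl v) u = 0 := by
            rcases u with u | u <;> rfl
          show AbT _ β (m _) (Sum.inl v) u + _ = 0
          rw [AbT_neg hv', h8, add_zero]
        · exact absurd ⟨Sum.inr i, rfl⟩ hw
    exact_mod_cast Finset.card_le_card h4
  -- sum over the labels
  have hQp : ∀ p ∈ Fintype.piFinset C, (Q (fun i => lab S₁ (p i)) ↔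
      (Lg S₁ (fun i => lab S₁ (p i)) ∧ ∀ e ⊆ P, e.Nonempty →
        A₀ ≤ (univ.filter fun i => ∑ v ∈ e, gA v (p i) = 1).card)) := by
    intro p _
    rw [hQ]
    refine and_congr Iff.rfl (forall_congr' fun e => forall_congr' fun he =>
      forall_congr' fun _ => ?_)
    have h5 : (univ.filter fun i => ∑ v : S₁, (if (v : GaussianInt) ∈ e then
        (lab S₁ (p i)).1 v else 0) = 1) = (univ.filter fun i => ∑ v ∈ e, gA v (p i) = 1) := by
      refine Finset.filter_congr fun i _ => ?_
      have h6 := sum_mask (he.trans hPS) (fun v => gA v (p i))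
      rw [← h6]
      exact Iff.rfl
    rw [h5]
  have h2 : (((Fintype.piFinset C).filter fun p => Lg S₁ (fun i => lab S₁ (p i)) ∧
      ∀ e ⊆ P, e.Nonempty →
        A₀ ≤ (univ.filter fun i => ∑ v ∈ e, gA v (p i) = 1).card).card : ℝ) =
      ∑ β ∈ univ.filter (fun β : ι → (S₁ → ZMod 2) × ZMod 2 => Q β),
        (((Fintype.piFinset C).filter fun p => (fun i => lab S₁ (p i)) = β).card : ℝ) := by
    rw [← Finset.filter_congr hQp]
    rw [Finset.card_eq_sum_card_fiberwise (f := fun (p : ι → GaussianInt) (i : ι) => lab S₁ (p i))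
      (t := univ.filter (fun β : ι → (S₁ → ZMod 2) × ZMod 2 => Q β)) (by
        intro p hp
        rw [Finset.mem_coe, Finset.mem_filter] at hp
        rw [Finset.mem_coe, Finset.mem_filter]
        exact ⟨Finset.mem_univ _, hp.2⟩)]
    push_cast
    refine Finset.sum_congr rfl fun β hβ => ?_
    rw [Finset.mem_filter] at hβ
    congr 2
    ext p
    simp only [Finset.mem_filter]
    constructor
    · rintro ⟨⟨h3, h4⟩, h5⟩
      exact ⟨h3, h5⟩
    · rintro ⟨h3, h4⟩
      exact ⟨⟨h3, by rw [h4]; exact hβ.2⟩, h4⟩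
  have h3 : ∑ β ∈ univ.filter (fun β : ι → (S₁ → ZMod 2) × ZMod 2 => Q β),
      (((Fintype.piFinset C).filter fun p => (fun i => lab S₁ (p i)) = β ∧ D p).card : ℝ) ≤
      (((Fintype.piFinset C).filter fun p => D p).card : ℝ) := by
    have h4 : (((Fintype.piFinset C).filter fun p => D p).card : ℝ) =
        ∑ β : ι → (S₁ → ZMod 2) × ZMod 2, (((Fintype.piFinset C).filter fun p =>
          (fun i => lab S₁ (p i)) = β ∧ D p).card : ℝ) := by
      rw [Finset.card_eq_sum_card_fiberwise (f := fun (p : ι → GaussianInt) (i : ι) =>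
        lab S₁ (p i)) (t := univ) (fun _ _ => Finset.mem_coe.2 (Finset.mem_univ _))]
      push_cast
      refine Finset.sum_congr rfl fun β _ => ?_
      congr 2
      ext p
      simp only [Finset.mem_filter]
      tauto
    rw [h4]
    exact Finset.sum_le_sum_of_subset_of_nonneg (Finset.filter_subset _ _)
      fun _ _ _ => Nat.cast_nonneg _
  have h3' : (((Fintype.piFinset C).filter fun p => D p).card : ℝ) =
      (((Fintype.piFinset C).filter fun p =>
        ∀ U ⊆ P, (Mt gA gL ((S₀ ∪ U) ∪ univ.image p)).det ≠ 0).card : ℝ) := by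
    congr 2
    exact Finset.filter_congr fun p _ => hD p
  rw [← h3']
  refine le_trans ?_ h3
  rw [h2, Finset.mul_sum]
  have h4 := Finset.sum_le_sum fun β (hβ : β ∈ univ.filter
    (fun β : ι → (S₁ → ZMod 2) × ZMod 2 => Q β)) => h1 β (Finset.mem_filter.1 hβ).2
  rw [Finset.sum_sub_distrib, Finset.sum_const, nsmul_eq_mul] at h4
  have h5 : ((univ.filter (fun β : ι → (S₁ → ZMod 2) × ZMod 2 => Q β)).card : ℝ) ≤
      (2 ^ (S₁.card + 1)) ^ (Fintype.card ι) := by
    have h6 : (univ.filter (fun β : ι → (S₁ → ZMod 2) × ZMod 2 => Q β)).card ≤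
        Fintype.card (ι → (S₁ → ZMod 2) × ZMod 2) := Finset.card_le_univ _
    rw [Fintype.card_fun, Fintype.card_prod, Fintype.card_fun, ZMod.card, Fintype.card_coe,
      ← pow_succ] at h6
    exact_mod_cast h6
  have h6 := mul_le_mul_of_nonneg_right h5 hEr0
  linarith

end Pool.Agent.Helper35K9.TW.PQ
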