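import Pool.Agent.Helper35K9.TW.Cl
import Pool.Agent.Y697.PP.Cn2

/-! Sums of quadratic characters. -/

set_option autoImplicit false

namespace Pool.Agent.Helper35K9.TW.PP

open Pool.Agent.Y697.PP

open Finset
open Pool.Agent.Y697.MQ (leg OP Pr Pr_prod Reps Pr_iff Pr_one leg_mul leg_congr leg_eq_zero exists_op)
open Pool.Agent.Helper35K9.TW
open scoped Classical

/-- the quadratic character attached to `b` and `e` -/
noncomputable def psi (b : Bool) (e : Finset GaussianInt) (n : GaussianInt) : ℤ :=
  (if b then cl n else cl n * cl n) * ∏ v ∈ e, leg v n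

theorem cl_abs (g : GaussianInt) : |((cl g : ℤ) : ℝ)| ≤ 1 := by
  by_cases hg : Pr g
  · rcases cl_ne hg with h | h <;> rw [h] <;> norm_num
  · rw [cl_zero hg]
    norm_num

theorem psi_abs (b : Bool) (e : Finset GaussianInt) (g : GaussianInt) :
    |((psi b e g : ℤ) : ℝ)| ≤ 1 := by
  unfold psi
  push_cast
  rw [abs_mul, Finset.abs_prod]
  refine mul_le_one₀ ?_ (Finset.prod_nonneg fun _ _ => abs_nonneg _)
    (Finset.prod_le_one (fun _ _ => abs_nonneg _) fun _ _ => leg_abs _ _)
  cases b
  · simp only [Bool.false_eq_true, if_false]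
    push_cast
    rw [abs_mul]
    exact mul_le_one₀ (cl_abs g) (abs_nonneg _) (cl_abs g)
  · simp only [if_true]
    exact cl_abs g

theorem psi_zero {b : Bool} {e : Finset GaussianInt} {g : GaussianInt} (h : ¬ Pr g) :
    psi b e g = 0 := by
  unfold psi
  rw [cl_zero h]
  cases b <;> simp

theorem psi_one {b : Bool} {e : Finset GaussianInt} (he : ∀ p ∈ e, OP p) : psi b e 1 = 1 := by
  unfold psi
  have h1 : cl 1 = 1 := rfl
  rw [h1, Finset.prod_eq_one fun v hv => Pool.Agent.Y697.MQ.leg_one (he v hv).pr]
  cases b <;> rfl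

theorem psi_mul {b : Bool} {e : Finset GaussianInt} (he : ∀ p ∈ e, OP p) {g : GaussianInt}
    (hg : Pr g) (h : GaussianInt) : psi b e (g * h) = psi b e g * psi b e h := by
  unfold psi
  have h1 : ∏ v ∈ e, leg v (g * h) = (∏ v ∈ e, leg v g) * ∏ v ∈ e, leg v h := by
    rw [← Finset.prod_mul_distrib]
    exact Finset.prod_congr rfl fun v hv => leg_mul (he v hv).pr g h
  rw [h1, cl_mul hg]
  cases b <;> simp <;> ring

theorem psi_sum (t : ℕ) {b : Bool} {e : Finset GaussianInt} (he : ∀ p ∈ e, OP p)
    (h : b = true ∨ e.Nonempty) :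
    |∑ g ∈ Di t, ((psi b e g : ℤ) : ℝ)| ≤ 12 * Real.sqrt (NS e) * bd t := by
  have key : |∑ g ∈ Di t, ((psi b e g : ℤ) : ℝ)| ≤ 2 * Real.sqrt (32 * NS e) * bd t := by
    rcases e.eq_empty_or_nonempty with h1 | h1
    · subst h1
      have hb : b = true := by
        rcases h with h | h
        · exact h
        · exact absurd h Finset.not_nonempty_empty
      subst hb
      have hNS : NS (∅ : Finset GaussianInt) = 1 := by
        unfold NS
        rw [Finset.prod_empty]
        rfl
      refine avg t (fun g => ((psi true ∅ g : ℤ) : ℝ)) (fun g => psi_abs _ _ _)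
        (A := {0, 1}) ⟨0, by simp⟩ 4 _ (fun a ha => ?_) (fun g => ?_)
      · rw [hNS, Nat.cast_one, mul_one]
        rw [Finset.mem_insert, Finset.mem_singleton] at ha
        rcases ha with rfl | rfl
        · rw [mul_zero]
          have : nm 0 = 0 := rfl
          rw [this]
          norm_num
        · rw [mul_one]
          have : nm 4 = 16 := rfl
          rw [this]
          norm_num
      · rw [Finset.sum_pair (by norm_num : (0 : GaussianInt) ≠ 1), mul_zero, mul_one, add_zero]
        unfold psi
        simp only [if_true, Finset.prod_empty, mul_one]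
        rw [cl_shift]
        push_cast
        ring
    · obtain ⟨p, hp⟩ := h1
      have hpO := he p hp
      obtain ⟨A, hA, hAs⟩ := exists_reps_small hpO.pr.ne_zero
      set k : GaussianInt := ⟨4, 4⟩ * ∏ v ∈ e.erase p, v with hk
      have hNS : NS e = nm p * NS (e.erase p) := by
        rw [NS_eq, NS_eq, Finset.mul_prod_erase e nm hp]
      have hcop : IsCoprime p k := by
        refine (hpO.pr.irreducible.coprime_iff_not_dvd).2 fun hd => ?_
        rcases hpO.pr.dvd_or_dvd hd with h1 | h1
        · have h2 : p ∣ 2 := by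
            have e4 : (⟨4, 4⟩ : GaussianInt) = 2 * (2 * ⟨1, 1⟩) := by decide
            rw [e4] at h1
            rcases hpO.pr.dvd_or_dvd h1 with h1 | h1
            · exact h1
            · rcases hpO.pr.dvd_or_dvd h1 with h1 | h1
              · exact h1
              · exact h1.trans ⟨⟨1, -1⟩, by decide⟩
          have h3 : p ∣ 1 := by
            have h4 := (Pr_iff p).1 hpO.pm
            obtain ⟨c, hc⟩ := h4
            obtain ⟨d, hd⟩ := h2
            refine ⟨1 - d * ⟨1, 1⟩ * c, ?_⟩
            have e2 : (⟨2, 2⟩ : GaussianInt) = 2 * ⟨1, 1⟩ := by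
              ext <;> simp
            rw [e2, hd] at hc
            linear_combination -hc
          exact hpO.pr.not_isUnit (isUnit_of_dvd_one h3)
        · obtain ⟨q, hq, hpq⟩ := (Prime.dvd_finsetProd_iff hpO.pr _).1 h1
          have := hpO.dvd (he q (Finset.mem_of_mem_erase hq)) hpq
          exact Finset.ne_of_mem_erase hq this.symm
      refine avg t (fun g => ((psi b e g : ℤ) : ℝ)) (fun g => psi_abs _ _ _)
        (reps_ne hA) k _ (fun a ha => ?_) (fun g => ?_)
      · rw [hk, nm_mul, nm_mul, hNS]
        have e4 : nm ⟨4, 4⟩ = 32 := rfl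
        rw [e4]
        have h2 : (nm a : ℝ) ≤ nm p := by exact_mod_cast (hAs a ha).le
        have h3 : nm (∏ v ∈ e.erase p, v) = NS (e.erase p) := rfl
        rw [h3]
        push_cast
        have h4 : (0 : ℝ) ≤ NS (e.erase p) := Nat.cast_nonneg _
        nlinarith
      · have h1 : ∀ a ∈ A, ((psi b e (g + k * a) : ℤ) : ℝ) =
            (((if b then cl g else cl g * cl g) * ∏ v ∈ e.erase p, leg v g : ℤ) : ℝ) *
              ((leg p (g + k * a) : ℤ) : ℝ) := by
          intro a _
          rw [← Int.cast_mul]
          congr 1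
          unfold psi
          have h2 : cl (g + k * a) = cl g := by
            apply cl_congr
            refine ⟨-((∏ v ∈ e.erase p, v) * a), ?_⟩
            rw [hk]
            ring
          rw [h2, ← Finset.mul_prod_erase e _ hp]
          have h3 : ∏ v ∈ e.erase p, leg v (g + k * a) = ∏ v ∈ e.erase p, leg v g := by
            refine Finset.prod_congr rfl fun v hv => ?_
            apply leg_congr
            rw [add_sub_cancel_left, hk]
            exact dvd_mul_of_dvd_left (dvd_mul_of_dvd_right (Finset.dvd_prod_of_mem _ hv) _) _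
          rw [h3]
          ring
        rw [Finset.sum_congr rfl h1, ← Finset.mul_sum]
        obtain ⟨A', hA', h2⟩ := reps_affine hA g k hcop
        have h3 := h2 (fun a => leg p a)
        rw [sum_leg_reps hpO hA'] at h3
        have h4 : ∑ a ∈ A, ((leg p (g + k * a) : ℤ) : ℝ) = 0 := by exact_mod_cast h3
        rw [h4, mul_zero]
  refine key.trans ?_
  have h32 : Real.sqrt 32 ≤ 6 := by
    rw [Real.sqrt_le_left (by norm_num)]
    norm_num
  have h2 : Real.sqrt (32 * NS e) = Real.sqrt 32 * Real.sqrt (NS e) :=
    Real.sqrt_mul (by norm_num) _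
  rw [h2]
  have h3 : 0 ≤ Real.sqrt (NS e) := Real.sqrt_nonneg _
  have h4 : 0 ≤ bd t := by
    unfold bd
    positivity
  have h5 : 0 ≤ Real.sqrt (NS e) * bd t := mul_nonneg h3 h4
  nlinarith

end Pool.Agent.Helper35K9.TW.PP
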