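import Pool.Agent.Y697.MQ.KL2
import Pool.Agent.Helper35K9.TW.Cl

/-! The `L`-functions over the multiquadratic extensions, for all powers of the Hecke character. -/

set_option autoImplicit false

open Filter Complex NumberField IsDedekindDomain
open scoped Topology

namespace Pool.Agent.Helper35K9.TW

open Pool.Agent.Y697.MQ (OP Pr GenBy leg leg_mul leg_prod leg_cases leg_ne leg_congr leg_eq_zero
  leg_sq_eq abs_leg norm_int norm_odd normSq_G nat_pow_cpow fin_dvd fd2 split_loc loc_id Indep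
  exists_op_place op_place_unique)
open Pool.Agent.H921R2.TatePole (nm_summable)
open Pool.Agent.W164.RC (not_mem_both)

/-- the term of the Dirichlet series -/
noncomputable def Ya (a b : ℕ) (s : ℂ) (g : GaussianInt) : ℂ :=
  (g : ℂ) ^ a * (starRingEnd ℂ) (g : ℂ) ^ b * ((g.norm : ℤ) : ℂ) ^ (-s)

theorem nrm_cast (g : GaussianInt) : ((g.norm : ℤ) : ℂ) = ((g.norm.natAbs : ℕ) : ℂ) := by
  have h : (g.norm : ℤ) = ((g.norm.natAbs : ℕ) : ℤ) := by
    rw [Int.natCast_natAbs, abs_of_nonneg (GaussianInt.norm_nonneg _)]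
  calc ((g.norm : ℤ) : ℂ) = (((g.norm.natAbs : ℕ) : ℤ) : ℂ) := congrArg _ h
    _ = ((g.norm.natAbs : ℕ) : ℂ) := Int.cast_natCast _

theorem norm_G (g : GaussianInt) : ‖(g : ℂ)‖ = ((g.norm.natAbs : ℕ) : ℝ) ^ (1 / 2 : ℝ) := by
  rw [← Real.sqrt_eq_rpow, ← normSq_G, Complex.normSq_eq_norm_sq, Real.sqrt_sq (norm_nonneg _)]

theorem one_lt_norm {p : GaussianInt} (hp : OP p) : 1 < p.norm.natAbs := by
  have h1 := norm_odd hp
  have h2 : p.norm.natAbs ≠ 1 := fun h => hp.pr.not_isUnit (Zsqrtd.norm_eq_one_iff.1 h)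
  omega

theorem norm_Ya (a b : ℕ) (s : ℂ) {p : GaussianInt} (hp : OP p) :
    ‖Ya a b s p‖ = ((p.norm.natAbs : ℕ) : ℝ) ^ (((a : ℝ) + b) / 2 - s.re) := by
  unfold Ya
  have h1 := one_lt_norm hp
  have hpos : (0 : ℝ) < ((p.norm.natAbs : ℕ) : ℝ) := by exact_mod_cast (by omega : 0 < p.norm.natAbs)
  rw [norm_mul, norm_mul, norm_pow, norm_pow, RCLike.norm_conj, norm_G, nrm_cast]
  have h2 : ‖((p.norm.natAbs : ℕ) : ℂ) ^ (-s)‖ = ((p.norm.natAbs : ℕ) : ℝ) ^ (-s.re) := by
    have h3 : ((p.norm.natAbs : ℕ) : ℂ) = (((p.norm.natAbs : ℕ) : ℝ) : ℂ) := by push_cast; rfl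
    rw [h3, Complex.norm_cpow_eq_rpow_re_of_pos hpos, Complex.neg_re]
  rw [h2, ← pow_add, ← Real.rpow_natCast, ← Real.rpow_mul hpos.le, ← Real.rpow_add hpos]
  congr 1
  push_cast
  ring

/-- the term of the character of `D'` -/
noncomputable def lY (a b : ℕ) (D' : GaussianInt) (s : ℂ) (q : GaussianInt) : ℂ :=
  ((leg q D' : ℤ) : ℂ) * Ya a b s q

theorem norm_lY {a b : ℕ} {D' : GaussianInt} {s : ℂ} (hs : ((a : ℝ) + b) / 2 < s.re)
    {q : GaussianInt} (hq : OP q) : ‖lY a b D' s q‖ < 1 := by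
  unfold lY
  rw [norm_mul, norm_Ya a b s hq]
  have h1 := norm_int (abs_leg q D')
  have h2 : ((q.norm.natAbs : ℕ) : ℝ) ^ (((a : ℝ) + b) / 2 - s.re) < 1 := by
    apply Real.rpow_lt_one_of_one_lt_of_neg
    · exact_mod_cast one_lt_norm hq
    · linarith
  calc ‖((leg q D' : ℤ) : ℂ)‖ * ((q.norm.natAbs : ℕ) : ℝ) ^ (((a : ℝ) + b) / 2 - s.re) ≤
        1 * ((q.norm.natAbs : ℕ) : ℝ) ^ (((a : ℝ) + b) / 2 - s.re) :=
        mul_le_mul_of_nonneg_right h1 (by positivity)
    _ < 1 := by rw [one_mul]; exact h2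

theorem one_sub_lY {a b : ℕ} {D' : GaussianInt} {s : ℂ} (hs : ((a : ℝ) + b) / 2 < s.re)
    {q : GaussianInt} (hq : OP q) : 1 - lY a b D' s q ≠ 0 := by
  intro h
  have h1 := norm_lY (D' := D') hs hq
  rw [← sub_eq_zero.1 h, norm_one] at h1
  exact lt_irrefl _ h1

theorem diff_lY (a b : ℕ) (D' : GaussianInt) {q : GaussianInt} (hq : q ≠ 0) :
    Differentiable ℂ (fun s => lY a b D' s q) := by
  unfold lY Ya
  have h0 : ((q.norm : ℤ) : ℂ) ≠ 0 := by
    rw [Int.cast_ne_zero]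
    exact (GaussianInt.norm_pos.2 hq).ne'
  apply Differentiable.mul (differentiable_const _)
  apply Differentiable.mul (differentiable_const _)
  exact (differentiable_id.neg).const_cpow (Or.inl h0)

/-- the local factor -/
noncomputable def lfa (a b : ℕ) (I : Finset (Finset GaussianInt))
    (T : Finset GaussianInt → GaussianInt) (s : ℂ) (q : GaussianInt) : ℂ :=
  ∏ J ∈ I, (1 - lY a b (T J) s q)

theorem lfa_ne {a b : ℕ} {I : Finset (Finset GaussianInt)} {T : Finset GaussianInt → GaussianInt}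
    {s : ℂ} (hs : ((a : ℝ) + b) / 2 < s.re) {q : GaussianInt} (hq : OP q) :
    lfa a b I T s q ≠ 0 := by
  unfold lfa
  rw [Finset.prod_ne_zero_iff]
  exact fun J _ => one_sub_lY hs hq

theorem diff_lfa (a b : ℕ) (I : Finset (Finset GaussianInt)) (T : Finset GaussianInt → GaussianInt)
    {q : GaussianInt} (hq : q ≠ 0) : Differentiable ℂ (fun s => lfa a b I T s q) := by
  unfold lfa
  apply Differentiable.fun_finsetProd
  intro J _
  exact (differentiable_const _).sub (diff_lY a b (T J) hq)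

/-- an entire `L`-function, not zero at `m` -/
def HasL (a b m : ℕ) (D' : GaussianInt) : Prop := ∃ L : ℂ → ℂ, Differentiable ℂ L ∧
  (∀ s : ℂ, ((a : ℝ) + b) / 2 + 1 < s.re →
    HasProd (fun q : {q : GaussianInt // OP q} => (1 - lY a b D' s q.1)⁻¹) (L s)) ∧ L m ≠ 0

/-- the product over the primary primes prime to `M` -/
theorem prod_sidea {a b m : ℕ} (hm : ((a : ℝ) + b) / 2 < m) {I : Finset (Finset GaussianInt)}
    {T : Finset GaussianInt → GaussianInt}
    (hG : ∀ J ∈ I, HasL a b m (T J)) {M : GaussianInt} (hM : M ≠ 0) :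
    ∃ F : ℂ → ℂ, Differentiable ℂ F ∧ F m ≠ 0 ∧ ∀ s : ℂ, ((a : ℝ) + b) / 2 + 1 < s.re →
      HasProd (open Classical in fun q : {q : GaussianInt // OP q} =>
        if q.1 ∣ M then 1 else (lfa a b I T s q.1)⁻¹) (F s) := by
  classical
  choose! F hF1 hF2 hF3 using fun J (hJ : J ∈ I) => hG J hJ
  set B : Finset GaussianInt := (fin_dvd hM).toFinset with hB
  have hBm : ∀ q : GaussianInt, q ∈ B ↔ OP q ∧ q ∣ M := by
    intro q
    rw [hB, Set.Finite.mem_toFinset]
    rfl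
  refine ⟨fun s => (∏ J ∈ I, F J s) * ∏ q ∈ B, lfa a b I T s q, ?_, ?_, ?_⟩
  · apply Differentiable.mul
    · apply Differentiable.fun_finsetProd
      exact fun J hJ => hF1 J hJ
    · apply Differentiable.fun_finsetProd
      intro q hq
      exact diff_lfa a b I T ((hBm q).1 hq).1.pr.ne_zero
  · apply mul_ne_zero
    · rw [Finset.prod_ne_zero_iff]
      exact fun J hJ => hF3 J hJ
    · rw [Finset.prod_ne_zero_iff]
      intro q hq
      exact lfa_ne (by simpa using hm) ((hBm q).1 hq).1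
  · intro s hs
    have h1 : HasProd (fun q : {q : GaussianInt // OP q} => (lfa a b I T s q.1)⁻¹)
        (∏ J ∈ I, F J s) := by
      have h3 := hasProd_prod (L := SummationFilter.unconditional _)
        (f := fun J (q : {q : GaussianInt // OP q}) => (1 - lY a b (T J) s q.1)⁻¹)
        (a := fun J => F J s) (s := I) fun J hJ => hF2 J hJ s hs
      have e : (fun q : {q : GaussianInt // OP q} => (lfa a b I T s q.1)⁻¹) =
          fun q : {q : GaussianInt // OP q} => ∏ J ∈ I, (1 - lY a b (T J) s q.1)⁻¹ := by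
        funext q
        unfold lfa
        rw [Finset.prod_inv_distrib]
      rw [e]
      exact h3
    have h2 : HasProd (fun q : {q : GaussianInt // OP q} => if q.1 ∣ M then lfa a b I T s q.1 else 1)
        (∏ q ∈ B, lfa a b I T s q) := by
      have h3 := hasProd_prod_of_ne_finset_one (L := SummationFilter.unconditional _)
        (f := fun q : {q : GaussianInt // OP q} =>
        if q.1 ∣ M then lfa a b I T s q.1 else 1) (s := B.subtype (fun q => OP q)) (by
          intro q hq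
          rw [Finset.mem_subtype, hBm] at hq
          rw [if_neg fun h => hq ⟨q.2, h⟩])
      have e : ∏ q ∈ B.subtype (fun q => OP q), (if q.1 ∣ M then lfa a b I T s q.1 else 1) =
          ∏ q ∈ B, lfa a b I T s q := by
        rw [Finset.prod_subtype_of_mem (fun q => if q ∣ M then lfa a b I T s q else 1)
          (fun q hq => ((hBm q).1 hq).1)]
        exact Finset.prod_congr rfl fun q hq => if_pos ((hBm q).1 hq).2
      rw [e] at h3
      exact h3
    have h3 := h1.mul h2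
    have e : (fun q : {q : GaussianInt // OP q} => if q.1 ∣ M then 1 else (lfa a b I T s q.1)⁻¹) =
        fun q : {q : GaussianInt // OP q} => (lfa a b I T s q.1)⁻¹ *
          (if q.1 ∣ M then lfa a b I T s q.1 else 1) := by
      funext q
      split_ifs with h
      · rw [inv_mul_cancel₀ (lfa_ne (by linarith) q.2)]
      · rw [mul_one]
    rw [e]
    exact h3

variable {K : Type} [Field K] [NumberField K]

/-- `z` is the value at `v` of the Hecke character of `D y² = x³ - x` over `K` -/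
def IsVal (ι : GaussianInt →+* 𝓞 K) (D : GaussianInt) (v : HeightOneSpectrum (𝓞 K)) (z : ℂ) :
    Prop := ∃ (p : GaussianInt) (f : ℕ), OP p ∧ ι p ∈ v.asIdeal ∧
      Ideal.absNorm v.asIdeal = p.norm.natAbs ^ f ∧ z = (((leg p D : ℤ) : ℂ) * (p : ℂ)) ^ f

theorem IsVal.unique {ι : GaussianInt →+* 𝓞 K} {D : GaussianInt} {v : HeightOneSpectrum (𝓞 K)}
    {z z' : ℂ} (h : IsVal ι D v z) (h' : IsVal ι D v z') : z = z' := by
  obtain ⟨p, f, hp, hpv, hf, rfl⟩ := h
  obtain ⟨p', f', hp', hpv', hf', rfl⟩ := h'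
  obtain rfl := op_place_unique ι v hp hp' hpv hpv'
  have : f = f' := by
    rw [hf] at hf'
    exact Nat.pow_right_injective (one_lt_norm hp) hf'
  rw [this]

/-- the local factor at a place -/
theorem euler_val {D : GaussianInt} {v : HeightOneSpectrum (𝓞 K)} {z : ℂ}
    {q : GaussianInt} (hqD : ¬ q ∣ D) {f : ℕ}
    (hf : Ideal.absNorm v.asIdeal = q.norm.natAbs ^ f)
    (h1 : z = (((leg q D : ℤ) : ℂ) * (q : ℂ)) ^ f) {a b : ℕ}
    (hab : Odd (a + b)) (s : ℂ) :
    z ^ a * (starRingEnd ℂ) z ^ b * ((Ideal.absNorm v.asIdeal : ℕ) : ℂ) ^ (-s) =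
      lY a b D s q ^ f := by
  rw [h1, hf, nat_pow_cpow]
  unfold lY Ya
  rw [nrm_cast, map_pow, map_mul, map_intCast]
  have h2 : ((leg q D : ℤ) : ℂ) ^ (a + b) = ((leg q D : ℤ) : ℂ) := by
    rcases leg_ne hqD with h | h
    · rw [h]; simp
    · rw [h]
      push_cast
      rw [hab.neg_one_pow]
  have h3 : ((((leg q D : ℤ) : ℂ) * (q : ℂ)) ^ f) ^ a *
      ((((leg q D : ℤ) : ℂ) * (starRingEnd ℂ) (q : ℂ)) ^ f) ^ b =
      (((leg q D : ℤ) : ℂ) ^ (a + b) * ((q : ℂ) ^ a * (starRingEnd ℂ) (q : ℂ) ^ b)) ^ f := by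
    ring
  rw [h3, h2]
  ring

theorem inv_bound1 {x : ℂ} {w : ℝ} (hx : ‖x‖ ≤ w) (hw : w ≤ 1 / 4) : ‖(1 - x)⁻¹ - 1‖ ≤ 2 * w := by
  have hw0 : 0 ≤ w := (norm_nonneg x).trans hx
  have h3 : 1 / 2 ≤ ‖1 - x‖ := by
    have h4 := norm_sub_norm_le (1 : ℂ) x
    rw [norm_one] at h4
    linarith
  have h5 : (1 - x) ≠ 0 := by
    intro h
    rw [h, norm_zero] at h3
    norm_num at h3
  have h6 : (1 - x)⁻¹ - 1 = x / (1 - x) := by
    field_simp
    ring
  rw [h6, norm_div, div_le_iff₀ (by linarith)]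
  nlinarith

/-- **The `L`-functions over `K`.** -/
theorem KLa (ι : GaussianInt →+* 𝓞 K) {s₀ : Finset GaussianInt} {r : GaussianInt → 𝓞 K}
    (h : GenBy ι s₀ r) (hs₀ : ∀ d ∈ s₀, Pr d) {D : GaussianInt} (hD0 : D ≠ 0) {a b m : ℕ}
    (hm : ((a : ℝ) + b) / 2 < m) (hab : Odd (a + b))
    (hgood : ∀ J ⊆ s₀, ∃ D' e : GaussianInt, D * ∏ d ∈ J, d = D' * e ^ 2 ∧ HasL a b m D')
    (ps : HeightOneSpectrum (𝓞 K) → ℂ)
    (hps : ∀ (v : HeightOneSpectrum (𝓞 K)) (z : ℂ), IsVal ι D v z → ps v = z) :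
    ∃ F : ℂ → ℂ, Differentiable ℂ F ∧ F m ≠ 0 ∧ ∀ s : ℂ, ((a : ℝ) + b) / 2 + 1 < s.re →
      HasProd (open Classical in fun v : HeightOneSpectrum (𝓞 K) =>
        if ι (2 * D * ∏ d ∈ s₀, d) ∈ v.asIdeal then 1 else
          (1 - ps v ^ a * (starRingEnd ℂ) (ps v) ^ b *
            ((Ideal.absNorm v.asIdeal : ℕ) : ℂ) ^ (-s))⁻¹) (F s) := by
  classical
  have h0 : ∀ d ∈ s₀, d ≠ 0 := fun d hd => (hs₀ d hd).ne_zero
  obtain ⟨t, hts, htgen, htind⟩ := h.minimal h0
  set M : GaussianInt := 2 * D * ∏ d ∈ s₀, d with hM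
  have hM0 : M ≠ 0 := mul_ne_zero (mul_ne_zero two_ne_zero hD0) (Finset.prod_ne_zero_iff.2 h0)
  choose! T e he hL using fun J (hJ : J ∈ t.powerset) => hgood J ((Finset.mem_powerset.1 hJ).trans hts)
  obtain ⟨F, hF1, hF2, hF3⟩ := prod_sidea hm (I := t.powerset) (T := T) hL hM0
  refine ⟨F, hF1, hF2, fun s hs => ?_⟩
  have hdvd : ∀ J ∈ t.powerset, D * ∏ d ∈ J, d ∣ M := by
    intro J hJ
    rw [hM, mul_assoc]
    exact (mul_dvd_mul_left D (Finset.prod_dvd_prod_of_subset _ _ _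
      ((Finset.mem_powerset.1 hJ).trans hts))).mul_left 2
  have hval : ∀ J ∈ t.powerset, ∀ p : GaussianInt, OP p → ¬ p ∣ M →
      leg p (T J) = leg p D * ∏ d ∈ J, leg p d := by
    intro J hJ p hp hpM
    have h1 : leg p (D * ∏ d ∈ J, d) = leg p (T J * e J ^ 2) := by rw [he J hJ]
    have h2 : ¬ p ∣ e J := fun h2 => hpM ((h2.trans (by
      rw [he J hJ, pow_two, ← mul_assoc]
      exact dvd_mul_left _ _)).trans (hdvd J hJ))
    rw [leg_mul hp.pr, leg_prod hp.pr J (fun d => d), leg_mul hp.pr, pow_two, leg_mul hp.pr,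
      leg_sq_eq h2, mul_one] at h1
    exact h1.symm
  have hsplit : ∀ q : GaussianInt, OP q → ¬ q ∣ M →
      ((∀ v : HeightOneSpectrum (𝓞 K), ι q ∈ v.asIdeal →
      Ideal.absNorm v.asIdeal = q.norm.natAbs ^ fd2 q t) ∧
      Nat.card {v : HeightOneSpectrum (𝓞 K) // ι q ∈ v.asIdeal} * fd2 q t = 2 ^ t.card) ∧
      (∀ d ∈ t, ¬ q ∣ d) ∧ ¬ q ∣ D := by
    intro q hq hqM
    have h1 : ∀ d ∈ t, ¬ q ∣ d := by
      intro d hd h1
      exact hqM ((h1.trans (Finset.dvd_prod_of_mem _ (hts hd))).mul_left _)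
    refine ⟨split_loc ι htgen htind (fun d hd => h0 d (hts hd)) hq h1, h1, ?_⟩
    intro h2
    exact hqM ((h2.mul_left 2).mul_right _)
  set f : HeightOneSpectrum (𝓞 K) → ℂ := fun v =>
    if ι M ∈ v.asIdeal then 1 else (1 - ps v ^ a * (starRingEnd ℂ) (ps v) ^ b *
            ((Ideal.absNorm v.asIdeal : ℕ) : ℂ) ^ (-s))⁻¹ with hf
  set e' : (Σ q : {q : GaussianInt // OP q}, {v : HeightOneSpectrum (𝓞 K) // ι q.1 ∈ v.asIdeal}) →
    HeightOneSpectrum (𝓞 K) := fun x => x.2.1 with he'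
  have hinj : Function.Injective e' := by
    rintro ⟨⟨p, hp⟩, ⟨v, hv⟩⟩ ⟨⟨q, hq⟩, ⟨w, hw⟩⟩ hvw
    simp only [he'] at hvw
    subst hvw
    have hpq := op_place_unique ι v hp hq hv hw
    subst hpq
    rfl
  have h2M : ∀ v : HeightOneSpectrum (𝓞 K), ι M ∉ v.asIdeal → ι 2 ∉ v.asIdeal := by
    intro v hv h2
    apply hv
    rw [hM, map_mul, map_mul]
    exact v.asIdeal.mul_mem_right _ (v.asIdeal.mul_mem_right _ h2)
  have hout : ∀ v ∉ Set.range e', f v = 1 := by
    intro v hv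
    simp only [hf]
    rw [if_pos]
    by_contra hcon
    obtain ⟨q, hq, hqv⟩ := exists_op_place ι v (h2M v hcon)
    exact hv ⟨⟨⟨q, hq⟩, ⟨v, hqv⟩⟩, rfl⟩
  have hmem : ∀ (q : GaussianInt) (v : HeightOneSpectrum (𝓞 K)), OP q → ι q ∈ v.asIdeal →
      (ι M ∈ v.asIdeal ↔ q ∣ M) := by
    intro q v hq hv
    constructor
    · intro h1
      by_contra h2
      exact not_mem_both ((hq.pr.irreducible.coprime_iff_not_dvd).2 h2) hv h1
    · rintro ⟨c, hc⟩
      rw [hc, map_mul]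
      exact v.asIdeal.mul_mem_right _ hv
  have hfac : ∀ (q : GaussianInt) (v : HeightOneSpectrum (𝓞 K)), OP q → ι q ∈ v.asIdeal →
      ¬ q ∣ M → f v = (1 - lY a b D s q ^ fd2 q t)⁻¹ := by
    intro q v hq hv hqM
    obtain ⟨⟨h7, -⟩, -, h8⟩ := hsplit q hq hqM
    have hnm : ι M ∉ v.asIdeal := fun h => hqM ((hmem q v hq hv).1 h)
    simp only [hf]
    rw [if_neg hnm, euler_val h8 (h7 v hv) (hps v _ ⟨q, _, hq, hv, h7 v hv, rfl⟩) hab s]
  have hmult : Multipliable f := by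
    have hsum := nm_summable (K := K) (x := s.re - ((a : ℝ) + b) / 2) (by linarith)
    have h5 : Summable (fun v : HeightOneSpectrum (𝓞 K) => ‖f v - 1‖) := by
      refine Summable.of_norm_bounded_eventually (hsum.mul_left 2) ?_
      have h6 := hsum.tendsto_cofinite_zero.eventually (Iio_mem_nhds (by norm_num : (0 : ℝ) < 1 / 4))
      filter_upwards [h6] with v hv
      rw [norm_norm]
      by_cases hiq : ι M ∈ v.asIdeal
      · simp only [hf]
        rw [if_pos hiq, sub_self, norm_zero]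
        positivity
      · obtain ⟨q, hq, hqv⟩ := exists_op_place ι v (h2M v hiq)
        have hqM : ¬ q ∣ M := fun h => hiq ((hmem q v hq hqv).2 h)
        obtain ⟨⟨h7, -⟩, -, h8⟩ := hsplit q hq hqM
        rw [hfac q v hq hqv hqM]
        have hw : ‖lY a b D s q ^ fd2 q t‖ ≤
            (Pool.Agent.H921R2.TatePole.nm v : ℝ) ^ (-(s.re - ((a : ℝ) + b) / 2)) := by
          have h9 : (Pool.Agent.H921R2.TatePole.nm v : ℝ) = ((q.norm.natAbs : ℕ) : ℝ) ^ fd2 q t := by
            unfold Pool.Agent.H921R2.TatePole.nm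
            rw [h7 v hqv]
            push_cast
            rfl
          have hc := norm_int (abs_leg q D)
          rw [h9, ← Real.rpow_natCast, ← Real.rpow_mul (Nat.cast_nonneg _), norm_pow]
          unfold lY
          rw [norm_mul, norm_Ya a b s hq]
          have h10 : ((q.norm.natAbs : ℕ) : ℝ) ^ ((fd2 q t : ℝ) * (-(s.re - ((a : ℝ) + b) / 2))) =
              (((q.norm.natAbs : ℕ) : ℝ) ^ (((a : ℝ) + b) / 2 - s.re)) ^ fd2 q t := by
            rw [← Real.rpow_natCast (((q.norm.natAbs : ℕ) : ℝ) ^ (((a : ℝ) + b) / 2 - s.re)),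
              ← Real.rpow_mul (Nat.cast_nonneg _)]
            congr 1
            ring
          rw [h10]
          apply pow_le_pow_left₀ (by positivity)
          calc _ ≤ 1 * ((q.norm.natAbs : ℕ) : ℝ) ^ (((a : ℝ) + b) / 2 - s.re) :=
                mul_le_mul_of_nonneg_right hc (by positivity)
            _ = _ := one_mul _
        exact inv_bound1 hw (le_of_lt hv)
    have h7 := multipliable_one_add_of_summable h5
    refine h7.congr (fun v => ?_)
    ring
  rw [← hinj.hasProd_iff hout]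
  refine HasProd.sigma_of_hasProd (hF3 s hs) ?_ ((hinj.multipliable_iff hout).2 hmult)
  rintro ⟨q, hq⟩
  simp only [Function.comp_apply, he']
  by_cases hqM : q ∣ M
  · rw [if_pos hqM]
    have h1 : (fun c : {v : HeightOneSpectrum (𝓞 K) // ι q ∈ v.asIdeal} => f c.1) = fun _ => 1 := by
      funext c
      simp only [hf]
      rw [if_pos ((hmem q c.1 hq c.2).2 hqM)]
    rw [h1]
    exact hasProd_one
  · rw [if_neg hqM]
    obtain ⟨⟨h7, h9⟩, h10, h8⟩ := hsplit q hq hqM
    have hfin : Finite {v : HeightOneSpectrum (𝓞 K) // ι q ∈ v.asIdeal} := by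
      apply Nat.finite_of_card_ne_zero
      intro h1
      rw [h1, zero_mul] at h9
      exact (pow_ne_zero t.card two_ne_zero) h9.symm
    have _ : Fintype {v : HeightOneSpectrum (𝓞 K) // ι q ∈ v.asIdeal} := Fintype.ofFinite _
    have h1 : (fun c : {v : HeightOneSpectrum (𝓞 K) // ι q ∈ v.asIdeal} => f c.1) = fun _ =>
        (1 - lY a b D s q ^ fd2 q t)⁻¹ := by
      funext c
      exact hfac q c.1 hq c.2 hqM
    rw [h1]
    have h2 : (lfa a b t.powerset T s q)⁻¹ =
        ∏ _c : {v : HeightOneSpectrum (𝓞 K) // ι q ∈ v.asIdeal},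
        (1 - lY a b D s q ^ fd2 q t)⁻¹ := by
      rw [Finset.prod_const, Finset.card_univ, ← Nat.card_eq_fintype_card, inv_pow,
        ← loc_id h10 h9]
      congr 1
      unfold lfa
      refine Finset.prod_congr rfl fun J hJ => ?_
      unfold lY
      rw [hval J hJ q hq hqM]
      push_cast
      ring
    rw [h2]
    exact hasProd_fintype _

end Pool.Agent.Helper35K9.TW
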