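import Pool.Agent.Helper35K9.TW.Blk
import Pool.Agent.Helper35K9.TW.Box

/-! The sets of primes are distributed over boxes. -/

set_option autoImplicit false

namespace Pool.Agent.Helper35K9.TW.PP

open Pool.Agent.Y697.PP

open Finset
open Pool.Agent.Y697.MQ (leg OP Pr Pr_prod gA)
open Pool.Agent.Helper35K9.TW
open scoped Classical

/-- the key of a set -/
noncomputable def ky (z H : ℕ) (S : Finset GaussianInt) : Finset GaussianInt × Finset ℕ :=
  (sm z S, (la z S).image (jj H))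

/-- the regular sets -/
noncomputable def RR (X z H K : ℕ) : Finset (Finset GaussianInt) :=
  (SS X).filter fun S => Set.InjOn (jj H) (la z S : Set GaussianInt) ∧
    (ky z H S).1.card + (ky z H S).2.card ≤ K ∧ NS (ky z H S).1 * ∏ k ∈ (ky z H S).2, XX H k ≤ X

/-- the primes of a block -/
noncomputable def CC (z H k : ℕ) : Finset GaussianInt :=
  (PO (XX H k)).filter fun p => z < nm p ∧ jj H p = k

theorem mem_CC {z H k : ℕ} (hH : 1 ≤ H) {p : GaussianInt} :
    p ∈ CC z H k ↔ OP p ∧ z < nm p ∧ jj H p = k := by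
  unfold CC
  rw [Finset.mem_filter, mem_PO]
  constructor
  · exact fun h => ⟨h.1.2, h.2⟩
  · intro h
    refine ⟨⟨?_, h.1⟩, h.2⟩
    have := nm_le_XX hH h.1
    rw [h.2.2] at this
    exact this

section fill
variable {z H : ℕ} {S₀ : Finset GaussianInt} {J : Finset ℕ} {p : J → GaussianInt}

theorem sm_fill (hH : 1 ≤ H) (h₀ : ∀ q ∈ S₀, nm q ≤ z) (hp : ∀ i : J, p i ∈ CC z H i) :
    sm z (S₀ ∪ univ.image p) = S₀ := by
  ext q
  unfold sm
  rw [Finset.mem_filter, Finset.mem_union, Finset.mem_image]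
  constructor
  · rintro ⟨h | ⟨i, -, rfl⟩, h2⟩
    · exact h
    · have := ((mem_CC hH).1 (hp i)).2.1
      omega
  · exact fun h => ⟨Or.inl h, h₀ q h⟩

theorem la_fill (hH : 1 ≤ H) (h₀ : ∀ q ∈ S₀, nm q ≤ z) (hp : ∀ i : J, p i ∈ CC z H i) :
    la z (S₀ ∪ univ.image p) = univ.image p := by
  ext q
  unfold la
  rw [Finset.mem_filter, Finset.mem_union, Finset.mem_image]
  constructor
  · rintro ⟨h | h, h2⟩
    · exact absurd (h₀ q h) h2
    · exact h
  · rintro ⟨i, -, rfl⟩
    have := ((mem_CC hH).1 (hp i)).2.1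
    exact ⟨Or.inr ⟨i, Finset.mem_univ _, rfl⟩, by omega⟩

theorem jj_fill (hH : 1 ≤ H) (hp : ∀ i : J, p i ∈ CC z H i) :
    (univ.image p).image (jj H) = J := by
  ext k
  rw [Finset.mem_image]
  constructor
  · rintro ⟨q, hq, rfl⟩
    rw [Finset.mem_image] at hq
    obtain ⟨i, -, rfl⟩ := hq
    rw [((mem_CC hH).1 (hp i)).2.2]
    exact i.2
  · intro hk
    exact ⟨p ⟨k, hk⟩, Finset.mem_image_of_mem _ (Finset.mem_univ _),
      ((mem_CC hH).1 (hp ⟨k, hk⟩)).2.2⟩

theorem inj_fill (hH : 1 ≤ H) (hp : ∀ i : J, p i ∈ CC z H i) : Function.Injective p := by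
  intro i j hij
  have h1 := ((mem_CC hH).1 (hp i)).2.2
  have h2 := ((mem_CC hH).1 (hp j)).2.2
  rw [hij, h2] at h1
  exact Subtype.ext h1.symm

theorem ky_fill (hH : 1 ≤ H) (h₀ : ∀ q ∈ S₀, nm q ≤ z) (hp : ∀ i : J, p i ∈ CC z H i) :
    ky z H (S₀ ∪ univ.image p) = (S₀, J) := by
  unfold ky
  rw [sm_fill hH h₀ hp, la_fill hH h₀ hp, jj_fill hH hp]

end fill

theorem key_bij {X z H K : ℕ} (hH : 1 ≤ H) {S₀ : Finset GaussianInt} {J : Finset ℕ}
    (hkey : (S₀, J) ∈ (RR X z H K).image (ky z H)) (P : Finset GaussianInt → Prop) :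
    ((Fintype.piFinset fun i : J => CC z H i).filter fun p => P (S₀ ∪ univ.image p)).card =
      ((RR X z H K).filter fun S => ky z H S = (S₀, J) ∧ P S).card := by
  rw [Finset.mem_image] at hkey
  obtain ⟨W, hW, hWk⟩ := hkey
  unfold RR at hW
  rw [Finset.mem_filter, mem_SS, hWk] at hW
  obtain ⟨⟨hWO, hWX⟩, hWI, hWK, hWN⟩ := hW
  simp only at hWK hWN
  have hS₀ : sm z W = S₀ := congrArg Prod.fst hWk
  have h₀O : ∀ q ∈ S₀, OP q := by
    intro q hq
    rw [← hS₀] at hq
    exact hWO q (Finset.mem_filter.1 hq).1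
  have h₀ : ∀ q ∈ S₀, nm q ≤ z := by
    intro q hq
    rw [← hS₀] at hq
    exact (Finset.mem_filter.1 hq).2
  apply Finset.card_bij (fun (p : J → GaussianInt) _ => S₀ ∪ univ.image p)
  · intro p hp
    rw [Finset.mem_filter, Fintype.mem_piFinset] at hp
    obtain ⟨hp, hP⟩ := hp
    have hk := ky_fill hH h₀ hp
    rw [Finset.mem_filter]
    refine ⟨?_, hk, hP⟩
    unfold RR
    rw [Finset.mem_filter, hk, mem_SS]
    refine ⟨⟨?_, ?_⟩, ?_, hWK, hWN⟩
    · intro q hq
      rw [Finset.mem_union, Finset.mem_image] at hq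
      rcases hq with hq | ⟨i, -, rfl⟩
      · exact h₀O q hq
      · exact ((mem_CC hH).1 (hp i)).1
    · rw [← NS_sm z, sm_fill hH h₀ hp, la_fill hH h₀ hp]
      refine le_trans (Nat.mul_le_mul_left _ ?_) hWN
      rw [NS_eq, Finset.prod_image (fun a _ b _ h => inj_fill hH hp h),
        ← Finset.prod_coe_sort J (fun k => XX H k)]
      apply Finset.prod_le_prod' 
      intro i _
      have h1 := nm_le_XX hH ((mem_CC hH).1 (hp i)).1
      rw [((mem_CC hH).1 (hp i)).2.2] at h1
      exact h1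
    · rw [la_fill hH h₀ hp]
      intro a ha b hb hab
      rw [Finset.mem_coe, Finset.mem_image] at ha hb
      obtain ⟨i, -, rfl⟩ := ha
      obtain ⟨j, -, rfl⟩ := hb
      rw [((mem_CC hH).1 (hp i)).2.2, ((mem_CC hH).1 (hp j)).2.2] at hab
      rw [Subtype.ext hab]
  · intro p hp p' hp' h
    rw [Finset.mem_filter, Fintype.mem_piFinset] at hp hp'
    have h1 := la_fill hH h₀ hp.1
    rw [h, la_fill hH h₀ hp'.1] at h1
    funext i
    have h2 : p i ∈ univ.image p' := by
      rw [h1]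
      exact Finset.mem_image_of_mem _ (Finset.mem_univ _)
    rw [Finset.mem_image] at h2
    obtain ⟨j, -, hj⟩ := h2
    have h3 := ((mem_CC hH).1 (hp.1 i)).2.2
    have h4 := ((mem_CC hH).1 (hp'.1 j)).2.2
    rw [hj, h3] at h4
    rw [← hj, Subtype.ext h4]
  · intro S hS
    rw [Finset.mem_filter] at hS
    obtain ⟨hSR, hSk, hSP⟩ := hS
    unfold RR at hSR
    rw [Finset.mem_filter, mem_SS] at hSR
    obtain ⟨⟨hSO, hSX⟩, hSI, -, -⟩ := hSR
    have hk1 : sm z S = S₀ := congrArg Prod.fst hSk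
    have hk2 : (la z S).image (jj H) = J := congrArg Prod.snd hSk
    have hex : ∀ i : J, ∃ q ∈ la z S, jj H q = i := by
      rintro ⟨i, hi⟩
      rw [← hk2, Finset.mem_image] at hi
      exact hi
    choose p hp1 hp2 using hex
    have him : univ.image p = la z S := by
      ext q
      rw [Finset.mem_image]
      constructor
      · rintro ⟨i, -, rfl⟩
        exact hp1 i
      · intro hq
        have hjq : jj H q ∈ J := by
          rw [← hk2]
          exact Finset.mem_image_of_mem _ hq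
        exact ⟨⟨jj H q, hjq⟩, Finset.mem_univ _, hSI (Finset.mem_coe.2 (hp1 _))
          (Finset.mem_coe.2 hq) (hp2 ⟨jj H q, hjq⟩)⟩
    have hSe : S₀ ∪ univ.image p = S := by rw [him, ← hk1, sm_union]
    refine ⟨p, ?_, hSe⟩
    rw [Finset.mem_filter, Fintype.mem_piFinset, hSe]
    refine ⟨fun i => (mem_CC hH).2 ⟨hSO _ (Finset.mem_filter.1 (hp1 i)).1,
      not_le.1 (Finset.mem_filter.1 (hp1 i)).2, hp2 i⟩, hSP⟩

theorem Lg_iff {S₀ : Finset GaussianInt} {J : Finset ℕ} (p : J → GaussianInt) :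
    Lg S₀ (fun i => lab S₀ (p i)) ↔ LgS S₀ (univ.image p) := by
  unfold Lg LgS
  refine forall_congr' fun c => forall_congr' fun ε => ?_
  refine imp_congr ?_ Iff.rfl
  constructor
  · intro h q hq
    rw [Finset.mem_image] at hq
    obtain ⟨i, -, rfl⟩ := hq
    exact h i
  · intro h i
    exact h (p i) (Finset.mem_image_of_mem _ (Finset.mem_univ _))

/-- the nondegenerate sets -/
def Dt (S : Finset GaussianInt) : Prop := (Mt gA gL S).det ≠ 0

theorem per_key {C : ℝ} (hC : 1 ≤ C) (hbil : ∀ (S T : Finset GaussianInt) (A B z : ℕ)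
      (c d : GaussianInt → ℝ), (∀ p ∈ S, OP p) → (∀ p ∈ T, OP p) → 1 ≤ z → z ≤ A → z ≤ B →
      (∀ p ∈ S, nm p ≤ A) → (∀ p ∈ T, nm p ≤ B) → (∀ p, |c p| ≤ 1) → (∀ p, |d p| ≤ 1) →
      (TT S T c d) ^ 32 * z ≤ C * ((A : ℝ) * B) ^ 32)
    {X z H K : ℕ} (hH : 1 ≤ H) (hz : 1 ≤ z) {κ : ℝ} (hκ : 0 ≤ κ) (hκz : C ≤ κ ^ 32 * z)
    {S₀ : Finset GaussianInt} {J : Finset ℕ} (hkey : (S₀, J) ∈ (RR X z H K).image (ky z H)) :
    0.4192 * (((RR X z H K).filter fun S => ky z H S = (S₀, J) ∧
      LgS (sm z S) (la z S)).card : ℝ) -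
      (2 ^ (2 * K ^ 2 + K) * 10 ^ K * κ) * (X / NS S₀) ≤
      (((RR X z H K).filter fun S => ky z H S = (S₀, J) ∧ Dt S).card : ℝ) := by
  have hkey' := hkey
  rw [Finset.mem_image] at hkey'
  obtain ⟨W, hW, hWk⟩ := hkey'
  unfold RR at hW
  rw [Finset.mem_filter, mem_SS, hWk] at hW
  obtain ⟨⟨hWO, hWX⟩, hWI, hWK, hWN⟩ := hW
  simp only at hWK hWN
  have hS₀ : sm z W = S₀ := congrArg Prod.fst hWk
  have hJ : (la z W).image (jj H) = J := congrArg Prod.snd hWk
  have h₀O : ∀ q ∈ S₀, OP q := by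
    intro q hq
    rw [← hS₀] at hq
    exact hWO q (Finset.mem_filter.1 hq).1
  have h₀ : ∀ q ∈ S₀, nm q ≤ z := by
    intro q hq
    rw [← hS₀] at hq
    exact (Finset.mem_filter.1 hq).2
  have h1 := key_bij hH hkey (fun S => LgS (sm z S) (la z S))
  have h2 := key_bij hH hkey Dt
  have h3 : (Fintype.piFinset fun i : J => CC z H i).filter
      (fun p => LgS (sm z (S₀ ∪ univ.image p)) (la z (S₀ ∪ univ.image p))) =
      (Fintype.piFinset fun i : J => CC z H i).filter (fun p => Lg S₀ fun i => lab S₀ (p i)) := by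
    apply Finset.filter_congr
    intro p hp
    rw [Fintype.mem_piFinset] at hp
    rw [sm_fill hH h₀ hp, la_fill hH h₀ hp, Lg_iff]
  rw [h3] at h1
  have hzX : ∀ i : J, z ≤ XX H i := by
    rintro ⟨i, h4⟩
    rw [← hJ, Finset.mem_image] at h4
    obtain ⟨q, hq, hqi⟩ := h4
    have h5 := nm_le_XX hH (hWO q (Finset.mem_filter.1 hq).1)
    rw [hqi] at h5
    have h6 := (Finset.mem_filter.1 hq).2
    show z ≤ XX H i
    omega
  have h4 := box (ι := J) hC hbil (S₀ := S₀) h₀O (C := fun i : J => CC z H i)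
    (fun i p hp => ((mem_CC hH).1 hp).1)
    (fun i j hij => by
      rw [Finset.disjoint_left]
      intro p hp hp'
      have h5 := ((mem_CC hH).1 hp).2.2
      have h6 := ((mem_CC hH).1 hp').2.2
      exact hij (Subtype.ext (h5.symm.trans h6)))
    (fun i p hp hp' => by
      have h5 := ((mem_CC hH).1 hp).2.1
      have h6 := h₀ p hp'
      omega)
    (X := fun i : J => XX H i) hz hzX
    (fun i p hp => by
      have h5 := nm_le_XX hH ((mem_CC hH).1 hp).1
      rw [((mem_CC hH).1 hp).2.2] at h5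
      exact h5) hκ hκz
  rw [h1] at h4
  refine le_trans ?_ (h4.trans (le_of_eq ?_))
  swap
  · rw [← h2]
    apply congrArg
    apply congrArg
    ext p
    simp only [Finset.mem_filter]
    exact Iff.rfl
  apply sub_le_sub_left
  -- the error
  have hJK : J.card ≤ K := by omega
  have hSK : S₀.card ≤ K := by omega
  have hcJ : Fintype.card J = J.card := Fintype.card_coe J
  have hEE : (EE J).card ≤ K * K := by
    unfold EE
    refine (Finset.card_filter_le _ _).trans ?_
    rw [Finset.card_univ, Fintype.card_prod, hcJ]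
    exact Nat.mul_le_mul hJK hJK
  have hN0 : (0 : ℝ) < NS S₀ := by exact_mod_cast NS_pos h₀O
  have hprod : ∏ j : J, (10 * (XX H j : ℝ)) ≤ 10 ^ K * (X / NS S₀) := by
    rw [Finset.prod_mul_distrib, Finset.prod_const, Finset.card_univ, hcJ]
    have h5 : ∏ j : J, (XX H j : ℝ) = ((∏ k ∈ J, XX H k : ℕ) : ℝ) := by
      rw [← Finset.prod_coe_sort J (fun k => XX H k)]
      push_cast
      rfl
    have h6 : ((∏ k ∈ J, XX H k : ℕ) : ℝ) ≤ X / NS S₀ := by
      rw [le_div_iff₀ hN0, mul_comm]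
      exact_mod_cast hWN
    rw [h5]
    have h7 : (10 : ℝ) ^ J.card ≤ 10 ^ K := pow_le_pow_right₀ (by norm_num) hJK
    gcongr
  have h5 : ((2 : ℝ) ^ (S₀.card + 1)) ^ (Fintype.card J) ≤ 2 ^ ((K + 1) * K) := by
    rw [hcJ, ← pow_mul]
    exact pow_le_pow_right₀ (by norm_num) (Nat.mul_le_mul (by omega) hJK)
  have h6 : (2 : ℝ) ^ (EE J).card ≤ 2 ^ (K * K) := pow_le_pow_right₀ (by norm_num) hEE
  have h7 : 0 ≤ ∏ j : J, (10 * (XX H j : ℝ)) := Finset.prod_nonneg fun _ _ => by positivity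
  calc ((2 : ℝ) ^ (S₀.card + 1)) ^ (Fintype.card J) *
      (2 ^ (EE J).card * (κ * ∏ j : J, (10 * (XX H j : ℝ)))) ≤
      2 ^ ((K + 1) * K) * (2 ^ (K * K) * (κ * (10 ^ K * (X / NS S₀)))) := by gcongr
    _ = (2 ^ (2 * K ^ 2 + K) * 10 ^ K * κ) * (X / NS S₀) := by
        have : (2 : ℝ) ^ (2 * K ^ 2 + K) = 2 ^ ((K + 1) * K) * 2 ^ (K * K) := by
          rw [← pow_add]
          congr 1
          ring
        rw [this]
        ring

theorem card_sub (N K : ℕ) : ((Finset.range N).powerset.filter fun J => J.card ≤ K).card ≤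
    (N + 1) ^ K := by
  induction K with
  | zero =>
    have : (Finset.range N).powerset.filter (fun J => J.card ≤ 0) ⊆ {∅} := by
      intro J hJ
      rw [Finset.mem_filter, Nat.le_zero, Finset.card_eq_zero] at hJ
      rw [hJ.2]
      exact Finset.mem_singleton_self _
    exact Finset.card_le_card this
  | succ K ih =>
    set P := (Finset.range N).powerset.filter fun J => J.card ≤ K with hP
    have h1 : (Finset.range N).powerset.filter (fun J => J.card ≤ K + 1) ⊆
        P ∪ ((Finset.range N) ×ˢ P).image fun t => insert t.1 t.2 := by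
      intro J hJ
      rw [Finset.mem_filter, Finset.mem_powerset] at hJ
      rw [Finset.mem_union]
      rcases J.eq_empty_or_nonempty with h | ⟨x, hx⟩
      · left
        rw [hP, Finset.mem_filter, Finset.mem_powerset, h]
        exact ⟨Finset.empty_subset _, by simp⟩
      · right
        rw [Finset.mem_image]
        refine ⟨(x, J.erase x), ?_, Finset.insert_erase hx⟩
        rw [Finset.mem_product, hP, Finset.mem_filter, Finset.mem_powerset]
        refine ⟨hJ.1 hx, (Finset.erase_subset _ _).trans hJ.1, ?_⟩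
        rw [Finset.card_erase_of_mem hx]
        omega
    refine (Finset.card_le_card h1).trans ((Finset.card_union_le _ _).trans ?_)
    have h2 : (((Finset.range N) ×ˢ P).image fun t => insert t.1 t.2).card ≤ N * P.card := by
      refine Finset.card_image_le.trans ?_
      rw [Finset.card_product, Finset.card_range]
    rw [pow_succ]
    nlinarith

theorem main_sum {C : ℝ} (hC : 1 ≤ C) (hbil : ∀ (S T : Finset GaussianInt) (A B z : ℕ)
      (c d : GaussianInt → ℝ), (∀ p ∈ S, OP p) → (∀ p ∈ T, OP p) → 1 ≤ z → z ≤ A → z ≤ B →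
      (∀ p ∈ S, nm p ≤ A) → (∀ p ∈ T, nm p ≤ B) → (∀ p, |c p| ≤ 1) → (∀ p, |d p| ≤ 1) →
      (TT S T c d) ^ 32 * z ≤ C * ((A : ℝ) * B) ^ 32)
    {X z H K : ℕ} (hX : 1 ≤ X) (hH : 1 ≤ H) (hz : 1 ≤ z) {κ : ℝ} (hκ : 0 ≤ κ)
    (hκz : C ≤ κ ^ 32 * z) {N : ℕ} (hN : (H : ℝ) * Real.log X < N) :
    0.4192 * (((RR X z H K).filter fun S => LgS (sm z S) (la z S)).card : ℝ) -
      (N + 1) ^ K * ((2 ^ (2 * K ^ 2 + K) * 10 ^ K * κ) * (X * (40 * (1 + Real.log X)))) ≤
      (((SS X).filter fun S => Dt S).card : ℝ) := by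
  set T := (RR X z H K).image (ky z H) with hT
  set B : ℝ := 2 ^ (2 * K ^ 2 + K) * 10 ^ K * κ with hB
  have hB0 : 0 ≤ B := by positivity
  have hfib : ∀ P : Finset GaussianInt → Prop, (((RR X z H K).filter fun S => P S).card : ℝ) =
      ∑ k ∈ T, (((RR X z H K).filter fun S => ky z H S = k ∧ P S).card : ℝ) := by
    intro P
    rw [Finset.card_eq_sum_card_fiberwise (f := ky z H) (t := T) (by
      intro S hS
      rw [Finset.mem_coe, Finset.mem_filter] at hS
      exact Finset.mem_coe.2 (Finset.mem_image_of_mem _ hS.1))]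
    push_cast
    refine Finset.sum_congr rfl fun k _ => ?_
    congr 2
    ext S
    simp only [Finset.mem_filter]
    tauto
  have h1 : (((RR X z H K).filter fun S => Dt S).card : ℝ) ≤
      (((SS X).filter fun S => Dt S).card : ℝ) := by
    have : (RR X z H K).filter (fun S => Dt S) ⊆
        (SS X).filter fun S => Dt S := by
      intro S hS
      rw [Finset.mem_filter] at hS ⊢
      exact ⟨(Finset.mem_filter.1 hS.1).1, hS.2⟩
    exact_mod_cast Finset.card_le_card this
  refine le_trans ?_ h1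
  rw [hfib, hfib, Finset.mul_sum]
  have h2 : ∑ k ∈ T, (0.4192 * (((RR X z H K).filter fun S => ky z H S = k ∧
      LgS (sm z S) (la z S)).card : ℝ) - B * (X / NS k.1)) ≤
      ∑ k ∈ T, (((RR X z H K).filter fun S => ky z H S = k ∧ Dt S).card : ℝ) := by
    refine Finset.sum_le_sum fun k hk => ?_
    obtain ⟨S₀, J⟩ := k
    exact per_key hC hbil hH hz hκ hκz hk
  refine le_trans ?_ h2
  rw [Finset.sum_sub_distrib]
  apply sub_le_sub_left
  have hsub : T ⊆ (SS X) ×ˢ ((Finset.range N).powerset.filter fun J => J.card ≤ K) := by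
    intro k hk
    rw [hT, Finset.mem_image] at hk
    obtain ⟨S, hS, rfl⟩ := hk
    unfold RR at hS
    rw [Finset.mem_filter] at hS
    obtain ⟨hS1, hS2, hS3, hS4⟩ := hS
    have hS5 := mem_SS.1 hS1
    rw [Finset.mem_product, Finset.mem_filter, Finset.mem_powerset]
    refine ⟨SS_sub hS1 (Finset.filter_subset _ _), ?_, by omega⟩
    intro j hj
    unfold ky at hj
    rw [Finset.mem_image] at hj
    obtain ⟨q, hq, rfl⟩ := hj
    have hqS := (Finset.mem_filter.1 hq).1
    have hqO := hS5.1 q hqS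
    have hqX : nm q ≤ X := by
      have := NS_mono hS5.1 (Finset.singleton_subset_iff.2 hqS)
      have e : NS {q} = nm q := by
        unfold NS
        rw [Finset.prod_singleton]
      rw [e] at this
      exact this.trans hS5.2
    rw [Finset.mem_range]
    have h3 : ((jj H q : ℕ) : ℝ) < N := by
      refine lt_of_le_of_lt (Nat.floor_le (mul_nonneg (Nat.cast_nonneg _) (log_nm_pos hqO).le)) ?_
      refine lt_of_le_of_lt ?_ hN
      refine mul_le_mul_of_nonneg_left ?_ (Nat.cast_nonneg _)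
      exact Real.log_le_log (by exact_mod_cast nm_pos hqO.pr.ne_zero) (by exact_mod_cast hqX)
    exact_mod_cast h3
  have h3 : ∑ k ∈ T, B * (X / NS k.1) ≤
      ∑ k ∈ (SS X) ×ˢ ((Finset.range N).powerset.filter fun J => J.card ≤ K), B * (X / NS k.1) :=
    Finset.sum_le_sum_of_subset_of_nonneg hsub fun _ _ _ => by positivity
  refine h3.trans ?_
  rw [Finset.sum_product]
  simp only [Finset.sum_const, nsmul_eq_mul]
  rw [← Finset.mul_sum]
  have h4 : ((((Finset.range N).powerset.filter fun J => J.card ≤ K).card : ℕ) : ℝ) ≤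
      (N + 1) ^ K := by exact_mod_cast card_sub N K
  have h5 : ∑ S ∈ SS X, B * (X / NS S) ≤ B * (X * (40 * (1 + Real.log X))) := by
    have h6 : ∀ S ∈ SS X, B * ((X : ℝ) / NS S) = B * X * (1 / NS S) := by
      intro S _
      ring
    rw [Finset.sum_congr rfl h6, ← Finset.mul_sum]
    have h7 := mul_le_mul_of_nonneg_left (harm_SS hX) (mul_nonneg hB0 (Nat.cast_nonneg X))
    refine h7.trans (le_of_eq ?_)
    ring
  have h6 : 0 ≤ ∑ S ∈ SS X, B * ((X : ℝ) / NS S) := Finset.sum_nonneg fun _ _ => by positivity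
  gcongr

end Pool.Agent.Helper35K9.TW.PP
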