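import Pool.Agent.Helper35K9.TW.Bdp
import Pool.Agent.Helper35K9.TW.Asy2

/-! The sum of the inverses of the norms of the primes. -/

set_option autoImplicit false

namespace Pool.Agent.Helper35K9.TW.PQ

open Pool.Agent.Y697.PQ

open Finset Filter
open Pool.Agent.Y697.MQ (leg OP Pr Pr_prod gA)
open Pool.Agent.Helper35K9.TW
open Pool.Agent.Y697.PP
open Pool.Agent.Helper35K9.TW.PP
open scoped Classical

theorem lp_pow (n : ℕ) : ∀ X : ℕ, X ≤ 2 ^ 2 ^ n → lp X ≤ 100 * (n + 1) := by
  have hl2 : 0 < Real.log 2 := Real.log_pos (by norm_num)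
  have hterm : ∀ (X : ℕ) (c : ℝ) (Q : Finset GaussianInt), 1 ≤ X → Q ⊆ PO X → 0 < c →
      (∀ q ∈ Q, c ≤ Real.log (nm q)) → ∑ q ∈ Q, 1 / (nm q : ℝ) ≤ 50 * Real.log X / c := by
    intro X c Q hX hQ hc h
    rw [le_div_iff₀ hc]
    refine le_trans ?_ (LL_le hX)
    unfold LL
    rw [Finset.sum_mul]
    refine (Finset.sum_le_sum (g := fun q => Real.log (nm q) / nm q) fun q hq => ?_).trans
      (Finset.sum_le_sum_of_subset_of_nonneg hQ fun q hq _ => ?_)
    · have h1 : (0 : ℝ) < nm q := by exact_mod_cast nm_pos (mem_PO.1 (hQ hq)).2.pr.ne_zero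
      rw [div_mul_eq_mul_div, one_mul]
      exact div_le_div_of_nonneg_right (h q hq) h1.le
    · exact div_nonneg (log_nm_pos (mem_PO.1 hq).2).le (Nat.cast_nonneg _)
  induction n with
  | zero =>
    intro X hX
    rcases Nat.eq_zero_or_pos X with h0 | h0
    · subst h0
      have : PO 0 = ∅ := by
        rw [Finset.eq_empty_iff_forall_notMem]
        intro q hq
        have h1 := mem_PO.1 hq
        have := two_le_nm h1.2
        omega
      unfold lp
      rw [this, Finset.sum_empty]
      norm_num
    · have h1 := hterm X (Real.log 2) (PO X) h0 (Finset.Subset.refl _) hl2 (fun q hq => by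
        apply Real.log_le_log (by norm_num)
        exact_mod_cast two_le_nm (mem_PO.1 hq).2)
      have h2 : Real.log X ≤ Real.log 2 := by
        apply Real.log_le_log (by exact_mod_cast h0)
        have : X ≤ 2 := by simpa using hX
        exact_mod_cast this
      have h3 : 50 * Real.log X / Real.log 2 ≤ 50 := by
        rw [div_le_iff₀ hl2]
        linarith
      unfold lp
      push_cast
      linarith
  | succ n ih =>
    intro X hX
    rcases Nat.eq_zero_or_pos X with h0 | h0
    · subst h0
      have := ih 0 (Nat.zero_le _)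
      push_cast at this ⊢
      linarith
    · have h1 : lp X = ∑ q ∈ (PO X).filter (fun q => nm q ≤ 2 ^ 2 ^ n), 1 / (nm q : ℝ) +
          ∑ q ∈ (PO X).filter (fun q => ¬ nm q ≤ 2 ^ 2 ^ n), 1 / (nm q : ℝ) :=
        (Finset.sum_filter_add_sum_filter_not _ _ _).symm
      have h2 : ∑ q ∈ (PO X).filter (fun q => nm q ≤ 2 ^ 2 ^ n), 1 / (nm q : ℝ) ≤
          lp (2 ^ 2 ^ n) := by
        unfold lp
        refine Finset.sum_le_sum_of_subset_of_nonneg ?_ fun _ _ _ => by positivity
        intro q hq
        rw [Finset.mem_filter] at hq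
        exact mem_PO.2 ⟨hq.2, (mem_PO.1 hq.1).2⟩
      have h3 := ih (2 ^ 2 ^ n) le_rfl
      have h4 := hterm X (2 ^ n * Real.log 2) ((PO X).filter (fun q => ¬ nm q ≤ 2 ^ 2 ^ n)) h0
        (Finset.filter_subset _ _) (by positivity) (fun q hq => by
          rw [Finset.mem_filter, not_le] at hq
          have e1 : (2 : ℝ) ^ n * Real.log 2 = Real.log ((2 ^ 2 ^ n : ℕ) : ℝ) := by
            push_cast
            rw [Real.log_pow]
            push_cast
            ring
          rw [e1]
          apply Real.log_le_log (by positivity)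
          exact_mod_cast hq.2.le)
      have h5 : Real.log X ≤ 2 ^ (n + 1) * Real.log 2 := by
        have e1 : (2 : ℝ) ^ (n + 1) * Real.log 2 = Real.log ((2 ^ 2 ^ (n + 1) : ℕ) : ℝ) := by
          push_cast
          rw [Real.log_pow]
          push_cast
          ring
        rw [e1]
        apply Real.log_le_log (by exact_mod_cast h0)
        exact_mod_cast hX
      have h6 : 50 * Real.log X / (2 ^ n * Real.log 2) ≤ 100 := by
        rw [div_le_iff₀ (by positivity)]
        have e1 : (2 : ℝ) ^ (n + 1) = 2 * 2 ^ n := by ring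
        rw [e1] at h5
        linarith
      rw [h1]
      push_cast
      linarith

theorem lp_le {X : ℕ} (h : 4 ≤ eL X) : lp X ≤ 300 * eL X := by
  set m : ℕ := ⌈2 * eL X⌉₊ with hm
  have h1 : 2 * eL X ≤ m := Nat.le_ceil _
  have h2 : (m : ℝ) ≤ 2 * eL X + 1 := (Nat.ceil_lt_add_one (by linarith)).le
  have hX := X_pos h
  have h3 : X ≤ 2 ^ 2 ^ (m + 1) := by
    have h4 : Real.log X ≤ Real.log ((2 ^ 2 ^ (m + 1) : ℕ) : ℝ) := by
      push_cast
      rw [Real.log_pow]
      push_cast
      rw [log_eq h, pow_succ]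
      have h5 := two_pow_ge m
      have h6 : Real.exp (eL X) ≤ Real.exp (m / 2) := Real.exp_le_exp.2 (by linarith)
      have h7 := Real.log_two_gt_d9
      have h8 : (0 : ℝ) < 2 ^ m := by positivity
      nlinarith
    have h5 := (Real.log_le_log_iff (by exact_mod_cast hX) (by positivity)).1 h4
    exact_mod_cast h5
  have h4 := lp_pow (m + 1) X h3
  push_cast at h4
  linarith

end Pool.Agent.Helper35K9.TW.PQ
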