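import Pool.Agent.Helper35K9.TW.Key
import Pool.Agent.Y697.PP.TK

/-! The main inequality with all error terms. -/

set_option autoImplicit false

namespace Pool.Agent.Helper35K9.TW.PP

open Pool.Agent.Y697.PP

open Finset
open Pool.Agent.Y697.MQ (leg OP Pr Pr_prod gA)
open Pool.Agent.Helper35K9.TW
open scoped Classical

theorem cover (X z H K V : ℕ) (hz : 1 ≤ z) : (SS X).card ≤
    ((RR X z H K).filter fun S => LgS (sm z S) (la z S)).card +
    ((SS X).filter fun S => K < S.card).card +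
    ((SS X).filter fun S => S.card ≤ K ∧ X < NS (sm z S) * ∏ p ∈ la z S, XX H (jj H p)).card +
    ((SS X).filter fun S => ¬ Set.InjOn (jj H) (la z S : Set GaussianInt)).card +
    ((SS X).filter fun S => ¬ LgS (sm z S) (la z S) ∧ NS (sm z S) ≤ z ^ K ∧
      V ≤ (la z S).card).card +
    ((SS X).filter fun S => (la z S).card < V).card := by
  have h1 : SS X ⊆ ((RR X z H K).filter fun S => LgS (sm z S) (la z S)) ∪
      ((SS X).filter fun S => K < S.card) ∪
      ((SS X).filter fun S => S.card ≤ K ∧ X < NS (sm z S) * ∏ p ∈ la z S, XX H (jj H p)) ∪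
      ((SS X).filter fun S => ¬ Set.InjOn (jj H) (la z S : Set GaussianInt)) ∪
      ((SS X).filter fun S => ¬ LgS (sm z S) (la z S) ∧ NS (sm z S) ≤ z ^ K ∧
        V ≤ (la z S).card) ∪
      ((SS X).filter fun S => (la z S).card < V) := by
    intro S hS
    by_contra hc
    simp only [Finset.mem_union, Finset.mem_filter, not_or, not_and, not_lt] at hc
    obtain ⟨⟨⟨⟨⟨h1, h2⟩, h3⟩, h4⟩, h5⟩, h6⟩ := hc
    have hK := h2 hS
    have hcut := h3 hS hK
    have hI := not_not.1 (h4 hS)
    have hV := h6 hS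
    have hNS : NS (sm z S) ≤ z ^ K := by
      rw [NS_eq]
      calc ∏ p ∈ sm z S, nm p ≤ ∏ p ∈ sm z S, z :=
            Finset.prod_le_prod' fun p hp => (Finset.mem_filter.1 hp).2
        _ = z ^ (sm z S).card := Finset.prod_const _
        _ ≤ z ^ K := Nat.pow_le_pow_right hz ((Finset.card_filter_le _ _).trans hK)
    have hL : LgS (sm z S) (la z S) := by
      by_contra hL
      exact absurd hV (not_le.2 (lt_of_not_ge fun h => h5 hS hL hNS hV))
    apply h1 _ hL
    unfold RR
    rw [Finset.mem_filter]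
    refine ⟨hS, hI, ?_, ?_⟩
    · have h7 : (ky z H S).1.card + (ky z H S).2.card ≤ (sm z S).card + (la z S).card :=
        Nat.add_le_add_left Finset.card_image_le _
      have h8 := Finset.card_filter_add_card_filter_not (s := S) (fun p => nm p ≤ z)
      unfold sm la at h7
      omega
    · show NS (sm z S) * ∏ k ∈ (la z S).image (jj H), XX H k ≤ X
      rw [Finset.prod_image hI]
      exact hcut
  refine (Finset.card_le_card h1).trans ?_
  refine (Finset.card_union_le _ _).trans (Nat.add_le_add_right ?_ _)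
  refine (Finset.card_union_le _ _).trans (Nat.add_le_add_right ?_ _)
  refine (Finset.card_union_le _ _).trans (Nat.add_le_add_right ?_ _)
  refine (Finset.card_union_le _ _).trans (Nat.add_le_add_right ?_ _)
  exact Finset.card_union_le _ _

theorem master {C : ℝ} (hC : 1 ≤ C) (hbil : ∀ (S T : Finset GaussianInt) (A B z : ℕ)
      (c d : GaussianInt → ℝ), (∀ p ∈ S, OP p) → (∀ p ∈ T, OP p) → 1 ≤ z → z ≤ A → z ≤ B →
      (∀ p ∈ S, nm p ≤ A) → (∀ p ∈ T, nm p ≤ B) → (∀ p, |c p| ≤ 1) → (∀ p, |d p| ≤ 1) →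
      (TT S T c d) ^ 32 * z ≤ C * ((A : ℝ) * B) ^ 32)
    {X z H K : ℕ} (V : ℕ) (hX : 1 ≤ X) (hH : 1 ≤ H) (hz : 1 ≤ z) {κ : ℝ} (hκ : 0 ≤ κ)
    (hκz : C ≤ κ ^ 32 * z) {N : ℕ} (hN : (H : ℝ) * Real.log X < N) :
    0.4192 * ((SS X).card : ℝ) ≤ (((SS X).filter fun S => Dt S).card : ℝ) +
      (400 * X * (1 + Real.log X) / 2 ^ K +
      (6 * X * Real.sqrt (K / H) + 12 * Real.sqrt X) +
      400 * X * (1 + Real.log X) * (15 / Real.sqrt H + 40 / Real.sqrt z) +
      35840000 * X * (1 + Real.log (z ^ K : ℕ)) ^ 3 / 2 ^ V +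
      (((SS X).filter fun S => (la z S).card < V).card : ℝ) +
      (N + 1) ^ K * ((2 ^ (2 * K ^ 2 + K) * 10 ^ K * κ) * (X * (40 * (1 + Real.log X))))) := by
  have h0 := cover X z H K V hz
  have h1 := main_sum hC hbil hX hH hz hκ hκz hN (K := K)
  have h2 := many hX K
  have h3 := cut_count (z := z) (K := K) hX hH
  have h4 := coll_count hX hH hz
  have h5 := bad_count (X := X) (z := z) (Z := z ^ K) (V := V) (Nat.one_le_pow _ _ hz)
  have h2' : (((SS X).filter fun S => K < S.card).card : ℝ) ≤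
      400 * X * (1 + Real.log X) / 2 ^ K := by
    rw [le_div_iff₀ (by positivity)]
    exact h2
  have h5' := (le_div_iff₀ (by positivity)).2 h5
  have h0' : ((SS X).card : ℝ) ≤
      (((RR X z H K).filter fun S => LgS (sm z S) (la z S)).card : ℝ) +
      (((SS X).filter fun S => K < S.card).card : ℝ) +
      (((SS X).filter fun S => S.card ≤ K ∧
        X < NS (sm z S) * ∏ p ∈ la z S, XX H (jj H p)).card : ℝ) +
      (((SS X).filter fun S => ¬ Set.InjOn (jj H) (la z S : Set GaussianInt)).card : ℝ) +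
      (((SS X).filter fun S => ¬ LgS (sm z S) (la z S) ∧ NS (sm z S) ≤ z ^ K ∧
        V ≤ (la z S).card).card : ℝ) +
      (((SS X).filter fun S => (la z S).card < V).card : ℝ) := by exact_mod_cast h0
  have g1 : (0 : ℝ) ≤ (((SS X).filter fun S => K < S.card).card : ℝ) := Nat.cast_nonneg _
  have g2 : (0 : ℝ) ≤ (((SS X).filter fun S => S.card ≤ K ∧
        X < NS (sm z S) * ∏ p ∈ la z S, XX H (jj H p)).card : ℝ) := Nat.cast_nonneg _
  have g3 : (0 : ℝ) ≤ (((SS X).filter fun S =>
      ¬ Set.InjOn (jj H) (la z S : Set GaussianInt)).card : ℝ) := Nat.cast_nonneg _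
  have g4 : (0 : ℝ) ≤ (((SS X).filter fun S => ¬ LgS (sm z S) (la z S) ∧ NS (sm z S) ≤ z ^ K ∧
        V ≤ (la z S).card).card : ℝ) := Nat.cast_nonneg _
  have g5 : (0 : ℝ) ≤ (((SS X).filter fun S => (la z S).card < V).card : ℝ) := Nat.cast_nonneg _
  linarith

end Pool.Agent.Helper35K9.TW.PP
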