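import Pool.Agent.Y697.MQ.KR
import Pool.Agent.Helper35K9.TW.Cl

/-! The points of `y² = x³ - D² x` over multiquadratic extensions. -/

set_option autoImplicit false

open WeierstrassCurve NumberField

namespace Pool.Agent.Helper35K9.TW

open Pool.Agent.Y697.MQ
open Pool.Agent.W307.RS (ShK)
open Pool.Agent.W612.RS (mq1)
open Pool.Agent.W410.RS (rk rk_eq gen)

theorem rk_zero {k : Type} [Field k] (D : k) (hD : D ≠ 0)
    (h : ∀ x y : k, D * y ^ 2 = x ^ 3 - x → y = 0) : rk (-D ^ 2) (0 : k) = 0 := by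
  classical
  rw [rk_eq]
  refine rank_zero_of (n := 2) two_ne_zero fun P => ?_
  match P with
  | 0 => exact smul_zero _
  | .some X Y hP =>
    have he := (Affine.equation_iff _ _).1 hP.1
    simp only [ShK, zero_mul, add_zero, mul_zero] at he
    have h1 : D * (Y / D ^ 2) ^ 2 = (X / D) ^ 3 - X / D := by
      field_simp
      linear_combination he
    have h2 := h _ _ h1
    have hY : Y = 0 := by
      rcases div_eq_zero_iff.1 h2 with h3 | h3
      · exact h3
      · exact absurd h3 (pow_ne_zero 2 hD)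
    subst hY
    have h3 : -(Affine.Point.some X 0 hP) = Affine.Point.some X 0 hP := by
      rw [Affine.Point.neg_some]
      simp only [Affine.negY, ShK, zero_mul, sub_zero, neg_zero]
    rw [two_zsmul]
    exact add_eq_zero_iff_eq_neg.2 h3.symm

variable {K : Type} [Field K] [NumberField K]

theorem finite_auxF {k : Type} [Field k] [Algebra GaussianInt k] [IsFractionRing GaussianInt k]
    [Algebra k K] [DecidableEq K]
    (ι : GaussianInt →+* 𝓞 K)
    (hc : ∀ g : GaussianInt, algebraMap k K (algebraMap GaussianInt k g) = (ι g : K))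
    {s₀ : Finset GaussianInt} {r : GaussianInt → 𝓞 K} (h : GenBy ι s₀ r)
    (hs₀ : ∀ d ∈ s₀, Pr d) {D : GaussianInt} (hD0 : D ≠ 0)
    (hgood : ∀ J ⊆ s₀, ∃ D' e : GaussianInt, D * ∏ d ∈ J, d = D' * e ^ 2 ∧
      ∀ x y : k, algebraMap GaussianInt k D' * y ^ 2 = x ^ 3 - x → y = 0) :
    Finite (ShK (-((ι D : 𝓞 K) : K) ^ 2) (0 : K)).toAffine.Point := by
  classical
  have hchar := k_charZero (k := k)
  have hinj := IsFractionRing.injective GaussianInt k
  have hk0 : ∀ g : GaussianInt, g ≠ 0 → algebraMap GaussianInt k g ≠ 0 :=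
    fun g hg h => hg (hinj (by rw [h, map_zero]))
  have hι0 : ((ι D : 𝓞 K) : K) ≠ 0 := by
    rw [← hc]
    exact (map_ne_zero _).2 (hk0 D hD0)
  have htop : IntermediateField.adjoin k
      ((fun d : GaussianInt => ((r d : 𝓞 K) : K)) '' (s₀ : Set GaussianInt)) = ⊤ := by
    rw [eq_top_iff]
    intro x _
    have h1 := h.gen (IntermediateField.adjoin k
      ((fun d : GaussianInt => ((r d : 𝓞 K) : K)) '' (s₀ : Set GaussianInt))).toSubfield (by
        intro g
        rw [← hc g]
        exact (IntermediateField.adjoin k _).algebraMap_mem _) (by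
        intro d hd
        exact IntermediateField.subset_adjoin k _ ⟨d, hd, rfl⟩)
    have h2 : x ∈ (IntermediateField.adjoin k
      ((fun d : GaussianInt => ((r d : 𝓞 K) : K)) '' (s₀ : Set GaussianInt))).toSubfield := by
      rw [h1]; trivial
    exact h2
  have hne4 : 4 * (-(algebraMap GaussianInt k D) ^ 2) ^ 3 + 27 * (0 : k) ^ 2 ≠ 0 := by
    have : 4 * (-(algebraMap GaussianInt k D) ^ 2) ^ 3 + 27 * (0 : k) ^ 2 =
        -(4 * (algebraMap GaussianInt k D) ^ 6) := by
      ring
    rw [this]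
    exact neg_ne_zero.2 (mul_ne_zero (OfNat.ofNat_ne_zero 4) (pow_ne_zero 6 (hk0 D hD0)))
  have h1 := gen mq1 s₀ k K (fun d => ((r d : 𝓞 K) : K)) (fun d => algebraMap GaussianInt k d)
    (fun d hd => by
      rw [hc, ← h.sq d hd]; push_cast; rfl) (fun d hd => hk0 d (hs₀ d hd).ne_zero) htop
    (-(algebraMap GaussianInt k D) ^ 2) 0 hne4
  have h2 : ∀ J ∈ s₀.powerset, rk ((∏ d ∈ J, algebraMap GaussianInt k d) ^ 2 *
      (-(algebraMap GaussianInt k D) ^ 2))
      ((∏ d ∈ J, algebraMap GaussianInt k d) ^ 3 * 0) = 0 := by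
    intro J hJ
    obtain ⟨D', e, he, hg⟩ := hgood J (Finset.mem_powerset.1 hJ)
    have hne : D * ∏ d ∈ J, d ≠ 0 := mul_ne_zero hD0 (Finset.prod_ne_zero_iff.2 fun d hd =>
      (hs₀ d (Finset.mem_powerset.1 hJ hd)).ne_zero)
    rw [he] at hne
    have he0 : e ≠ 0 := fun h => hne (by rw [h]; simp)
    have hD' : D' ≠ 0 := left_ne_zero_of_mul hne
    have h4 : (∏ d ∈ J, algebraMap GaussianInt k d) ^ 2 * (-(algebraMap GaussianInt k D) ^ 2) =
        (-(algebraMap GaussianInt k D') ^ 2) * (algebraMap GaussianInt k e) ^ 4 := by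
      have h5 : algebraMap GaussianInt k D * ∏ d ∈ J, algebraMap GaussianInt k d =
          algebraMap GaussianInt k D' * algebraMap GaussianInt k e ^ 2 := by
        rw [← map_prod, ← map_mul, he, map_mul, map_pow]
      have h6 : (∏ d ∈ J, algebraMap GaussianInt k d) ^ 2 * (-(algebraMap GaussianInt k D) ^ 2) =
          -(algebraMap GaussianInt k D * ∏ d ∈ J, algebraMap GaussianInt k d) ^ 2 := by ring
      rw [h6, h5]
      ring
    rw [mul_zero, h4]
    have h5 := rk_scale (-(algebraMap GaussianInt k D') ^ 2) (algebraMap GaussianInt k e)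
      (hk0 e he0)
    rw [rk_zero _ (hk0 D' hD') hg] at h5
    exact le_antisymm h5 zero_le
  rw [Finset.sum_eq_zero h2, map_zero, map_neg, map_pow, hc] at h1
  have h3 : rk (-((ι D : 𝓞 K) : K) ^ 2) 0 = 0 := le_antisymm h1 zero_le
  rw [rk_eq] at h3
  apply finite_of_rank ?_ h3
  exact Pool.Agent.TH942.sfg (by
      have : 4 * (-((ι D : 𝓞 K) : K) ^ 2) ^ 3 + 27 * (0 : K) ^ 2 =
        -(4 * ((ι D : 𝓞 K) : K) ^ 6) := by ring
      rw [this]
      exact neg_ne_zero.2 (mul_ne_zero (OfNat.ofNat_ne_zero 4) (pow_ne_zero 6 hι0)))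

/-- **Finitely many points over `K`.** -/
theorem finite_F [DecidableEq K] (ι : GaussianInt →+* 𝓞 K) {s₀ : Finset GaussianInt}
    {r : GaussianInt → 𝓞 K} (h : GenBy ι s₀ r)
    (hs₀ : ∀ d ∈ s₀, Pr d) {D : GaussianInt} (hD0 : D ≠ 0)
    (hgood : ∀ J ⊆ s₀, ∃ D' e : GaussianInt, D * ∏ d ∈ J, d = D' * e ^ 2 ∧
      ∀ x y : FractionRing GaussianInt,
        algebraMap GaussianInt (FractionRing GaussianInt) D' * y ^ 2 = x ^ 3 - x → y = 0) :
    Finite (ShK (-((ι D : 𝓞 K) : K) ^ 2) (0 : K)).toAffine.Point := by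
  have hinj : Function.Injective ((algebraMap (𝓞 K) K).comp ι) := by
    intro a b hab
    apply ι_inj ι
    exact RingOfIntegers.ext hab
  let _ : Algebra (FractionRing GaussianInt) K :=
    (IsFractionRing.lift (K := FractionRing GaussianInt) hinj).toAlgebra
  exact finite_auxF (k := FractionRing GaussianInt) ι
    (fun g => IsFractionRing.lift_algebraMap hinj g) h hs₀ hD0 hgood

end Pool.Agent.Helper35K9.TW
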